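import Pool.Agent.H30.KL.Cov.S2

/-!
# General classification (MP_a7460d_ag): definitions

Vertices are the positions `a` of `u`, with value `u a`.  The row of the vertex `b` is the row `u b`.  For a box `(i,j)` (rows `≥ i`, columns `≤ j`) a
vertex `a` is `NW` if `a ≤ j`, `i ≤ u a`; `SW` if `a ≤ j`, `u a < i`; `NE` if `j < a`, `i ≤ u a`.
-/

open MvPolynomial Matrix

namespace Pool.Agent.H30.KL

variable {n : ℕ}

/-- the vertices `k ≤ j` with `i ≤ u k` -/
def NWs (u : Equiv.Perm (Fin n)) (i j : Fin n) : Finset (Fin n) :=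
  Finset.univ.filter fun k => k ≤ j ∧ i ≤ u k

/-- the vertices `k ≤ j` with `u k < i` -/
def SWs (u : Equiv.Perm (Fin n)) (i j : Fin n) : Finset (Fin n) :=
  Finset.univ.filter fun k => k ≤ j ∧ u k < i

/-- the vertices `k > j` with `i ≤ u k` -/
def NEs (u : Equiv.Perm (Fin n)) (i j : Fin n) : Finset (Fin n) :=
  Finset.univ.filter fun k => j < k ∧ i ≤ u k

theorem mem_NWs {u : Equiv.Perm (Fin n)} {i j k : Fin n} : k ∈ NWs u i j ↔ k ≤ j ∧ i ≤ u k := by
  simp [NWs]

theorem mem_SWs {u : Equiv.Perm (Fin n)} {i j k : Fin n} : k ∈ SWs u i j ↔ k ≤ j ∧ u k < i := by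
  simp [SWs]

theorem mem_NEs {u : Equiv.Perm (Fin n)} {i j k : Fin n} : k ∈ NEs u i j ↔ j < k ∧ i ≤ u k := by
  simp [NEs]

theorem card_NWs (u : Equiv.Perm (Fin n)) (i j : Fin n) : (NWs u i j).card = rk u i j := rfl

/-- `σ` is a linking from `C` to `R` through the `NW` vertices of the box `(i,j)`: a bijection from `NW ∪ C` to `NW ∪ R` all of whose
proper steps `a → σ a` satisfy `a < σ a`, `u a < u (σ a)`, `u t_{a,σ a} ≤ v` (a direct step from `C = {a}` to `R = {σ a}` is always allowed),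
and which respects the rank conditions of `v` for all the boxes contained in `(i,j)` except for `(i,j)` itself. -/
structure Link (u v : Equiv.Perm (Fin n)) (i j : Fin n) (C R : Finset (Fin n))
    (σ : Fin n → Fin n) : Prop where
  bij : Set.BijOn σ ↑(NWs u i j ∪ C) ↑(NWs u i j ∪ R)
  up : ∀ a ∈ NWs u i j ∪ C, σ a ≠ a → a < σ a ∧ u a < u (σ a) ∧
    (BruhatLE (u * Equiv.swap a (σ a)) v ∨ C = {a} ∧ R = {σ a})
  rank : ∀ i' j' : Fin n, i ≤ i' → j' ≤ j → (i' ≠ i ∨ j' ≠ j) →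
    ((NWs u i j ∪ C).filter fun a => a ≤ j' ∧ i' ≤ u (σ a)).card ≤ rk v i' j'

/-- irreducible pairs `(C,R)` for the box `(i,j)` -/
def Irr (u v : Equiv.Perm (Fin n)) (i j : Fin n) (C R : Finset (Fin n)) : Prop :=
  (∀ i' j' : Fin n, i' ≤ i → j' ≤ j → (i' ≠ i ∨ j' ≠ j) →
    rk u i' j' + (C.filter fun c => c ≤ j' ∧ u c < i').card ≤ rk v i' j' ∨
      C ⊆ SWs u i' j' ∧ rk u i' j' + C.card = rk v i' j' + 1) ∧
  (∀ i' j' : Fin n, i ≤ i' → j ≤ j' → (i' ≠ i ∨ j' ≠ j) →
    rk u i' j' + (R.filter fun r => j' < r ∧ i' ≤ u r).card ≤ rk v i' j' ∨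
      R ⊆ NEs u i' j' ∧ rk u i' j' + R.card = rk v i' j' + 1)

/-- for every box and every irreducible pair all linkings have the same number of steps -/
def Unif (u v : Equiv.Perm (Fin n)) : Prop :=
  ∀ (i j : Fin n) (C R : Finset (Fin n)), C ⊆ SWs u i j → R ⊆ NEs u i j → C.card = R.card →
    rk u i j + C.card = rk v i j + 1 → Irr u v i j C R →
    ∀ σ σ' : Fin n → Fin n, Link u v i j C R σ → Link u v i j C R σ' →
      ((NWs u i j ∪ C).filter fun a => σ a ≠ a).card = ((NWs u i j ∪ C).filter fun a => σ' a ≠ a).card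

/-- the minor on the rows of the vertices `f` and the columns `g` -/
noncomputable def Dm (u : Equiv.Perm (Fin n)) {ι : Type*} [Fintype ι] [DecidableEq ι]
    (f g : ι → Fin n) : MvPolynomial (Free u) ℂ :=
  ((Zmat u).submatrix (fun x => u (f x)) g).det

/-- height of a minor -/
def ht {ι : Type*} [Fintype ι] (f g : ι → Fin n) : ℤ :=
  ∑ x, ((f x : ℕ) : ℤ) - ∑ y, ((g y : ℕ) : ℤ)

/-- height of a pair of finite sets (rows, columns) -/
def hs (F G : Finset (Fin n)) : ℤ := ∑ x ∈ F, ((x : ℕ) : ℤ) - ∑ y ∈ G, ((y : ℕ) : ℤ)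

/-- number of cells of `τ` in the box `(i',j')` -/
def cnt (u : Equiv.Perm (Fin n)) {ι : Type*} [Fintype ι] (f g : ι → Fin n) (τ : Equiv.Perm ι)
    (i' j' : Fin n) : ℕ :=
  (Finset.univ.filter fun y => g y ≤ j' ∧ i' ≤ u (f (τ y))).card

/-- the rank conditions for the boxes contained in `(i,j)` except for `(i,j)` itself -/
def Star (u v : Equiv.Perm (Fin n)) (i j : Fin n) {ι : Type*} [Fintype ι] (f g : ι → Fin n)
    (τ : Equiv.Perm ι) : Prop :=
  ∀ i' j' : Fin n, i ≤ i' → j' ≤ j → (i' ≠ i ∨ j' ≠ j) → cnt u f g τ i' j' ≤ rk v i' j'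

open Classical in
/-- the part of the minor which satisfies `Star` -/
noncomputable def Dstar (u v : Equiv.Perm (Fin n)) (i j : Fin n) {ι : Type*} [Fintype ι]
    [DecidableEq ι] (f g : ι → Fin n) : MvPolynomial (Free u) ℂ :=
  ∑ τ ∈ Finset.univ.filter (Star u v i j f g), Equiv.Perm.sign τ • ∏ y, Zmat u (u (f (τ y))) (g y)

/-- the minors on the rows of the vertices `F` and the columns `G` lie in `K` -/
def InK (u : Equiv.Perm (Fin n)) (K : Ideal (MvPolynomial (Free u) ℂ)) (F G : Finset (Fin n)) :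
    Prop :=
  ∀ (s : ℕ) (f g : Fin s → Fin n), Function.Injective f → Function.Injective g →
    Finset.univ.image f = F → Finset.univ.image g = G → Dm u f g ∈ K

/-- all the minors of height `< h` of the rank conditions of `v` lie in `K` -/
def Low (u v : Equiv.Perm (Fin n)) (K : Ideal (MvPolynomial (Free u) ℂ)) (h : ℤ) : Prop :=
  ∀ (i j : Fin n) (F G : Finset (Fin n)), (∀ x ∈ F, i ≤ u x) → (∀ y ∈ G, y ≤ j) →
    rk v i j < F.card → hs F G < h → InK u K F G

/-- the largest homogeneous ideal contained in `I` -/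
noncomputable def Th {σ : Type*} (I : Ideal (MvPolynomial σ ℂ)) : Ideal (MvPolynomial σ ℂ) :=
  ⨅ s : ℂ, I.comap (theta s).toRingHom

theorem mem_Th {σ : Type*} {I : Ideal (MvPolynomial σ ℂ)} {p : MvPolynomial σ ℂ} :
    p ∈ Th I ↔ ∀ s : ℂ, theta s p ∈ I := by
  simp [Th, Ideal.mem_iInf]

theorem theta_one {σ : Type*} (p : MvPolynomial σ ℂ) : theta 1 p = p := by
  rw [theta]
  simp

theorem Th_le {σ : Type*} (I : Ideal (MvPolynomial σ ℂ)) : Th I ≤ I := by
  intro p hp
  have h := mem_Th.1 hp 1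
  rwa [theta_one] at h

end Pool.Agent.H30.KL
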