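import Pool.Agent.H30.KL.Gen.Inc
import Pool.Agent.H30.KL.Gen.Defs

/-!
# Obstruction: two good linkings with different numbers of steps (GEN-7a)

`mon u a b` is the exponent of the entry in the row of `b` and the column of `a`: `0` unless `a < b`, `u a < u b`; if `Zmat u (u b) a ≠ 0` then
`Zmat u (u b) a = monomial (mon u a b) 1`.  `mexp u π = ∑ k, mon u k (π k)` (only the steps up contribute).

Functional: `φ p = coeff (mexp u π₁) p + ε * coeff (mexp u π₂) p` with a suitable sign `ε`; `φ` vanishes on `klIdeal u v`: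
it is enough to consider `monomial e c * Dm` for a generator `Dm` of the box `(i,j)` of size `s = rk v i j + 1` (rows `i ≤ u (f x)`, columns `g y ≤ j`; `f`, `g` injective).
`Dm = ∑ τ, sign τ • ∏ y, Zmat u (u (f (τ y))) (g y)`; a term is `0` or `± monomial (∑ y, mon u (g y) (f (τ y))) 1`.
* `term_unique`: if `e + ∑ y, mon u (g y) (f (τ y)) = mexp u π`, all the entries of `τ` nonzero, and `π` is good: then each `y` has `f (τ y) = g y` or
  (`g y` is a step up of `π` and `f (τ y) = π (g y)`), and `e = 0`: otherwise some step up `k0` of `π` is not used, contradiction with `Good.count`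
  (`G = image g`, `τ' = f ∘ τ ∘ g⁻¹`, `G.card = s > rk v i j`).  So for `e ≠ 0` the coefficient is `0`.
* `e = 0`: all the steps up of `π` are used, and `f ∘ τ = π ∘ g` (the `g y` are not tops that move, by `Good.shape`: `j < x` for these), so there is at most one such `τ`; by `Good.shape`
  `image g = NW ∪ bottoms`, `image f = NW ∪ tops`.  `(i,j)` is violated by `u π₁` (`Inc.count`), hence by `u π₂` (`hV`), `Good.used` for `π₂` and the same bottoms and tops give
  that `π₂ ∘ g` also has its values in `image f`: so `τ₂` exists as well.  `τ₂⁻¹ τ₁` is conjugate (by `g`) to the restriction of `θ = e₂⁻¹ e₁`, `e_i : {a // ¬ π₁ a < a} ≃ {a // ¬ a < π₁⁻¹ a}` the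
  restriction of `π_i` (`Equiv.subtypeEquiv`), so `sign τ₁ * sign τ₂ = sign θ` (`Equiv.Perm.sign_bij`) does not depend on the box: take `ε = - sign θ`.
The contradiction: some box `(i,j)` is violated by `u π₁`.  `NW ∪ bottoms`, `NW ∪ tops` have `rk v i j + 1` elements, and the minor `Dm` on them is in the ideal, with
`coeff (mexp u π₁) Dm = ± 1`.  If the ideal is homogeneous then the component of `Dm` of degree `degree (mexp u π₁) = #steps of π₁` is in the ideal; its `coeff` at `mexp u π₁` is `± 1`, and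
at `mexp u π₂` it is `0` (different degree), so `φ ≠ 0` on it.
-/

open MvPolynomial Matrix

namespace Pool.Agent.H30.KL

variable {n : ℕ}

/-- exponent of the entry in the row of `b` and the column of `a` -/
noncomputable def mon (u : Equiv.Perm (Fin n)) (a b : Fin n) : Free u →₀ ℕ :=
  if h : u a < u b ∧ a < u.symm (u b) then Finsupp.single ⟨(u b, a), h⟩ 1 else 0

/-- exponent of the product of all the steps of `π` -/
noncomputable def mexp (u π : Equiv.Perm (Fin n)) : Free u →₀ ℕ := ∑ k, mon u k (π k)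

theorem mon_of_lt {u : Equiv.Perm (Fin n)} {a b : Fin n} (h1 : a < b) (h2 : u a < u b) :
    ∃ h, mon u a b = Finsupp.single (⟨(u b, a), h⟩ : Free u) 1 := by
  have h : u a < u b ∧ a < u.symm (u b) := ⟨h2, by rwa [Equiv.symm_apply_apply]⟩
  exact ⟨h, by rw [mon, dif_pos h]⟩

theorem mon_of_not {u : Equiv.Perm (Fin n)} {a b : Fin n} (h : ¬ (a < b ∧ u a < u b)) :
    mon u a b = 0 := by
  rw [mon, dif_neg]
  rintro ⟨h1, h2⟩
  rw [Equiv.symm_apply_apply] at h2
  exact h ⟨h2, h1⟩

theorem Zmat_eq_monomial {u : Equiv.Perm (Fin n)} {a b : Fin n} (h : Zmat u (u b) a ≠ 0) :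
    Zmat u (u b) a = monomial (mon u a b) 1 := by
  rcases entry_ne_zero h with h1 | h1
  · subst h1
    rw [entry_diag, mon_of_not (fun h2 => lt_irrefl _ h2.1)]
    rfl
  · obtain ⟨h2, h3⟩ := mon_of_lt h1.1 h1.2
    rw [h3, Zmat, Matrix.of_apply, dif_pos h2]
    rfl

/-- the indeterminate of a step -/
def pr (u : Equiv.Perm (Fin n)) (a b : Fin n) (h : a < b ∧ u a < u b) : Free u :=
  ⟨(u b, a), h.2, by rw [Equiv.symm_apply_apply]; exact h.1⟩

theorem exists_pr (u : Equiv.Perm (Fin n)) (p : Free u) : ∃ a b h, p = pr u a b h := by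
  obtain ⟨⟨r, c⟩, h⟩ := p
  refine ⟨c, u.symm r, ⟨h.2, by rw [Equiv.apply_symm_apply]; exact h.1⟩, ?_⟩
  simp [pr]

theorem mon_apply {u : Equiv.Perm (Fin n)} (a b : Fin n) {a' b' : Fin n}
    (h : a' < b' ∧ u a' < u b') : mon u a b (pr u a' b' h) = if a = a' ∧ b = b' then 1 else 0 := by
  by_cases h1 : a < b ∧ u a < u b
  · obtain ⟨h2, h3⟩ := mon_of_lt h1.1 h1.2
    rw [h3, Finsupp.single_apply]
    by_cases h4 : a = a' ∧ b = b'
    · obtain ⟨rfl, rfl⟩ := h4
      have e1 : (⟨(u b, a), h2⟩ : Free u) = pr u a b h := rfl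
      rw [if_pos e1, if_pos ⟨rfl, rfl⟩]
    · rw [if_neg h4, if_neg]
      intro h5
      apply h4
      have h6 := congrArg Subtype.val h5
      have h7 : (u b, a) = (u b', a') := h6
      rw [Prod.mk.injEq] at h7
      exact ⟨h7.2, u.injective h7.1⟩
  · rw [mon_of_not h1, if_neg]
    · rfl
    · rintro ⟨rfl, rfl⟩
      exact h1 h

theorem mexp_apply {u π : Equiv.Perm (Fin n)} {a b : Fin n} (h : a < b ∧ u a < u b) :
    mexp u π (pr u a b h) = if π a = b then 1 else 0 := by
  rw [mexp, Finsupp.finset_sum_apply]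
  simp only [mon_apply]
  rw [Finset.sum_eq_single a]
  · by_cases h1 : π a = b
    · rw [if_pos ⟨rfl, h1⟩, if_pos h1]
    · rw [if_neg (fun h2 => h1 h2.2), if_neg h1]
  · intro k _ hk
    rw [if_neg (fun h2 => hk h2.1)]
  · intro h1
    exact absurd (Finset.mem_univ a) h1

theorem mon_degree {u : Equiv.Perm (Fin n)} {a b : Fin n} (h : a < b → u a < u b) :
    (mon u a b).degree = if a < b then 1 else 0 := by
  by_cases h1 : a < b
  · obtain ⟨h2, h3⟩ := mon_of_lt h1 (h h1)
    rw [h3, Finsupp.degree_single, if_pos h1]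
  · rw [mon_of_not (fun h2 => h1 h2.1), if_neg h1, map_zero]

/-- the number of steps up -/
theorem degree_mexp {u π : Equiv.Perm (Fin n)} {b : Fin n → Fin n} (h : Inc u π b) :
    (mexp u π).degree = (Finset.univ.filter fun k => k < π k).card := by
  rw [mexp, map_sum, Finset.card_filter]
  apply Finset.sum_congr rfl
  intro k _
  apply mon_degree
  intro hk
  exact (h.up k ((h.lt_iff k).1 hk)).2

theorem Inc.le_of_lt_symm {u π : Equiv.Perm (Fin n)} {b : Fin n → Fin n} (h : Inc u π b)
    {x : Fin n} (hx : x < π.symm x) : x ≠ b x := by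
  intro h1
  have h2 := h.inv (π.symm x)
  rw [Equiv.apply_symm_apply] at h2
  have h3 := h.le (π.symm x)
  rw [← h2, ← h1] at h3
  exact absurd hx (not_lt.2 h3)

/-- not a step up and not a moved top: fixed -/
theorem Inc.fix {u π : Equiv.Perm (Fin n)} {b : Fin n → Fin n} (h : Inc u π b) {x : Fin n}
    (hx : ¬ π x < x) (hx' : ¬ x ≠ b x) : π x = x := by
  have h1 := h.lt_iff x
  apply le_antisymm
  · by_contra h2
    exact hx' (h1.1 (not_le.1 h2))
  · exact not_lt.1 hx

/-- `τ` fits `π` -/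
def Fits (π : Equiv.Perm (Fin n)) {s : ℕ} (f g : Fin s → Fin n) (τ : Equiv.Perm (Fin s)) : Prop :=
  ∀ y, f (τ y) = π (g y)

section

variable {u v π : Equiv.Perm (Fin n)} {b : Fin n → Fin n} {i j : Fin n} {s : ℕ}
  {f g : Fin s → Fin n} {τ : Equiv.Perm (Fin s)} {e : Free u →₀ ℕ}

theorem term_step (hnz : ∀ y, Zmat u (u (f (τ y))) (g y) ≠ 0)
    (he : e + ∑ y, mon u (g y) (f (τ y)) = mexp u π) (y : Fin s) :
    f (τ y) = g y ∨ (g y < f (τ y) ∧ u (g y) < u (f (τ y)) ∧ f (τ y) = π (g y)) := by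
  rcases entry_ne_zero (hnz y) with h1 | h1
  · exact Or.inl h1.symm
  · right
    refine ⟨h1.1, h1.2, ?_⟩
    have h2 := DFunLike.congr_fun he (pr u _ _ h1)
    rw [mexp_apply, Finsupp.add_apply, Finsupp.finset_sum_apply] at h2
    have h3 : 1 ≤ ∑ x, mon u (g x) (f (τ x)) (pr u _ _ h1) := by
      calc 1 = mon u (g y) (f (τ y)) (pr u _ _ h1) := by rw [mon_apply, if_pos ⟨rfl, rfl⟩]
        _ ≤ _ := Finset.single_le_sum (f := fun x => mon u (g x) (f (τ x)) (pr u _ _ h1))
            (fun x _ => Nat.zero_le _) (Finset.mem_univ y)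
    by_contra h4
    rw [if_neg (fun h5 => h4 h5.symm)] at h2
    omega

/-- the partial map of `τ` -/
noncomputable def pmap (f g : Fin s → Fin n) (τ : Equiv.Perm (Fin s)) : Fin n → Fin n :=
  Function.extend g (fun y => f (τ y)) id

theorem pmap_apply (hg : Function.Injective g) (y : Fin s) : pmap f g τ (g y) = f (τ y) :=
  hg.extend_apply _ _ _

theorem pmap_injOn (hf : Function.Injective f) (hg : Function.Injective g) :
    Set.InjOn (pmap f g τ) ↑(Finset.univ.image g) := by
  intro x hx y hy hxy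
  rw [Finset.mem_coe, Finset.mem_image] at hx hy
  obtain ⟨x', -, rfl⟩ := hx
  obtain ⟨y', -, rfl⟩ := hy
  rw [pmap_apply hg, pmap_apply hg] at hxy
  rw [τ.injective (hf hxy)]

theorem image_card (hg : Function.Injective g) : (Finset.univ.image g).card = s := by
  rw [Finset.card_image_of_injective _ hg, Finset.card_univ, Fintype.card_fin]

theorem pmap_image (hg : Function.Injective g) :
    (Finset.univ.image g).image (pmap f g τ) = Finset.univ.image f := by
  ext x
  simp only [Finset.mem_image, Finset.mem_univ, true_and]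
  constructor
  · rintro ⟨_, ⟨y, rfl⟩, h⟩
    exact ⟨τ y, by rw [← h, pmap_apply hg]⟩
  · rintro ⟨y, rfl⟩
    exact ⟨g (τ.symm y), ⟨_, rfl⟩, by rw [pmap_apply hg, Equiv.apply_symm_apply]⟩

/-- all the steps of a good permutation are used -/
theorem term_used (hπ : Good u v π b) (hs : rk v i j < s) (hf : Function.Injective f)
    (hg : Function.Injective g) (hfi : ∀ x, i ≤ u (f x)) (hgj : ∀ y, g y ≤ j)
    (hst : ∀ y, f (τ y) = g y ∨ (g y ≠ b (g y) ∧ f (τ y) = π (g y))) {k : Fin n} (hk : k ≠ b k) :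
    ∃ y, g y = k ∧ f (τ y) = π k := by
  by_contra hcon
  push Not at hcon
  have h1 := hπ.count (i := i) (j := j) (Finset.univ.image g) (pmap f g τ) (pmap_injOn hf hg)
    (by
      intro a ha
      obtain ⟨y, -, rfl⟩ := Finset.mem_image.1 ha
      exact hgj y)
    (by
      intro a ha
      obtain ⟨y, -, rfl⟩ := Finset.mem_image.1 ha
      rw [pmap_apply hg]
      exact hfi _)
    (by
      intro a ha
      obtain ⟨y, -, rfl⟩ := Finset.mem_image.1 ha
      rw [pmap_apply hg]
      exact hst y)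
    hk
    (by
      intro ha
      obtain ⟨y, -, rfl⟩ := Finset.mem_image.1 ha
      rw [pmap_apply hg]
      exact hcon y rfl)
  rw [image_card hg] at h1
  omega

theorem term_hst (hπ : Inc u π b) (hnz : ∀ y, Zmat u (u (f (τ y))) (g y) ≠ 0)
    (he : e + ∑ y, mon u (g y) (f (τ y)) = mexp u π) (y : Fin s) :
    f (τ y) = g y ∨ (g y ≠ b (g y) ∧ f (τ y) = π (g y)) := by
  rcases term_step hnz he y with h1 | h1
  · exact Or.inl h1
  · refine Or.inr ⟨?_, h1.2.2⟩
    rw [← hπ.lt_iff, ← h1.2.2]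
    exact h1.1

theorem term_zero (hπ : Good u v π b) (hs : rk v i j < s) (hf : Function.Injective f)
    (hg : Function.Injective g) (hfi : ∀ x, i ≤ u (f x)) (hgj : ∀ y, g y ≤ j)
    (hnz : ∀ y, Zmat u (u (f (τ y))) (g y) ≠ 0)
    (he : e + ∑ y, mon u (g y) (f (τ y)) = mexp u π) : e = 0 := by
  by_contra hne
  obtain ⟨p, hp⟩ := Finsupp.ne_iff.1 hne
  obtain ⟨a0, b0, hab, rfl⟩ := exists_pr u p
  have h2 := DFunLike.congr_fun he (pr u _ _ hab)
  rw [mexp_apply, Finsupp.add_apply, Finsupp.finset_sum_apply] at h2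
  have hp' : e (pr u a0 b0 hab) ≠ 0 := hp
  have h3 : π a0 = b0 := by
    by_contra h4
    rw [if_neg h4] at h2
    omega
  rw [if_pos h3] at h2
  have h4 : ∑ x, mon u (g x) (f (τ x)) (pr u _ _ hab) = 0 := by omega
  have hk : a0 ≠ b a0 := by
    rw [← hπ.inc.lt_iff, h3]
    exact hab.1
  obtain ⟨y, hy1, hy2⟩ := term_used hπ hs hf hg hfi hgj (term_hst hπ.inc hnz he) hk
  have h5 := (Finset.sum_eq_zero_iff.1 h4) y (Finset.mem_univ y)
  rw [mon_apply, if_pos ⟨hy1, by rw [hy2, h3]⟩] at h5
  exact one_ne_zero h5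

end

end Pool.Agent.H30.KL
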