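import Pool.Agent.H30.KL.Gen.SuffC
import Pool.Agent.H44.KL.NecCrit

/-!
# Standard-graded homogeneity of Kazhdan–Lusztig ideals: the classification

Vertices are the positions `a` of `u`, with value `u a`; a box is a pair `(i,j)` (rows `≥ i`, columns `≤ j`).  `I_{u,v}` is homogeneous if and only if `u ≤ v`
fails or every class of boxes of every pair `(C,R)` has a minimal box which is reducible or for which all the linkings from `C` to `R` have the same number of
steps.  Both directions are proved: `suff_crit` and `nec_crit`.
-/

namespace Pool.Agent.H30.KL.ClassCrit

open Pool.Agent.H30.KL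

theorem result {n : ℕ} (u v : Equiv.Perm (Fin n)) : Hom u v ↔ (BruhatLE u v → Crit u v) := by
  constructor
  · intro h huv
    exact Pool.Agent.H44.KL.nec_crit huv h
  · intro h
    by_cases huv : BruhatLE u v
    · exact suff_crit huv (h huv)
    · exact hom_of_not_le huv

end Pool.Agent.H30.KL.ClassCrit
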