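import Pool.Agent.H30.KL.Gen.Defs

/-!
# General classification (MP_a7460d_ag): the criterion
-/

namespace Pool.Agent.H30.KL

variable {n : ℕ}

/-- `e` is a box of the pair `(C,R)` -/
def BoxOf (u v : Equiv.Perm (Fin n)) (C R : Finset (Fin n)) (e : Fin n × Fin n) : Prop :=
  C ⊆ SWs u e.1 e.2 ∧ R ⊆ NEs u e.1 e.2 ∧ rk u e.1 e.2 + C.card = rk v e.1 e.2 + 1

/-- one of the two boxes lies weakly south-west of the other -/
def Adj (e f : Fin n × Fin n) : Prop := (e.1 ≤ f.1 ∧ e.2 ≤ f.2) ∨ (f.1 ≤ e.1 ∧ f.2 ≤ e.2)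

/-- `f` lies in the class of `e`: the two boxes are joined by a chain of boxes of `(C,R)`, each of which lies weakly south-west or weakly
north-east of the next one -/
def Conn (u v : Equiv.Perm (Fin n)) (C R : Finset (Fin n)) : Fin n × Fin n → Fin n × Fin n → Prop :=
  Relation.ReflTransGen fun e f => BoxOf u v C R e ∧ BoxOf u v C R f ∧ Adj e f

/-- no other box of the class of `e` is contained in `e` -/
def NWmin (u v : Equiv.Perm (Fin n)) (C R : Finset (Fin n)) (e : Fin n × Fin n) : Prop :=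
  ∀ f, Conn u v C R e f → e.1 ≤ f.1 → f.2 ≤ e.2 → f = e

/-- all the linkings from `C` to `R` in the box `e` have the same number of steps -/
def Uni (u v : Equiv.Perm (Fin n)) (C R : Finset (Fin n)) (e : Fin n × Fin n) : Prop :=
  ∀ σ σ' : Fin n → Fin n, Link u v e.1 e.2 C R σ → Link u v e.1 e.2 C R σ' →
    ((NWs u e.1 e.2 ∪ C).filter fun a => σ a ≠ a).card =
      ((NWs u e.1 e.2 ∪ C).filter fun a => σ' a ≠ a).card

/-- every class has a minimal box which is reducible or for which all the linkings have the same number of steps -/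
def Crit (u v : Equiv.Perm (Fin n)) : Prop :=
  ∀ (C R : Finset (Fin n)) (e₀ : Fin n × Fin n), C.card = R.card → BoxOf u v C R e₀ →
    ∃ e, Conn u v C R e₀ e ∧ NWmin u v C R e ∧ (¬ Irr u v e.1 e.2 C R ∨ Uni u v C R e)

end Pool.Agent.H30.KL
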