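import Pool.Agent.H30.KL.Gen.Std1

/-!
# Entries of dead steps (GEN-4b)

`dead_mem`: strong induction on `b - a` (compare `S1_entry_mem_aux` in Cov/S1.lean).  `le_of_swap`, `rk_swap` (Cov/Ess.lean): there is a box with `rk v i j = rk u i j`, `a ≤ j < b`, `u a < i ≤ u b`; choose it with
`(n - i) + j` minimal.  `C = {a}`, `R = {b}`, enumerate `W ∪ R`, `W ∪ C` (`W = NWs u i j`) by `Fin (rk v i j + 1)` so that `f 0 = b`, `g 0 = a` and `f y = g y` otherwise (`Fin.cons`, `W.orderEmbOfFin`).  `dstar_mem`: `Dstar u v i j f g ∈ I`.
`τ = 1` is in `Star` (minimality of the box: the other boxes `(i',j')` contained in it have `rk u i' j' < rk v i' j'` if they separate `a` and `b`; `cnt u f g 1 i' j' = rk u i' j' + [a ≤ j' ∧ i' ≤ u b]`), its term is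
`Zmat u (u b) a`.  Every other `τ` in `Star` has its term in `I`: otherwise all the factors are nonzero and all the steps `g y → f (τ y)` alive (induction: the total height `∑ (f (τ y) - g y)` is `b - a`, all the terms
are `≥ 0`, so a step has height `≤ b - a`, with equality only if it is `a → b` and all the other `y` have `f (τ y) = g y`, which gives `τ = 1`), so `link_of_star` gives a link with at least two steps (the step of `y = 0`, `g 0 = a`,
goes to some `k ∈ W`, `k` is not a row of its own column, so it makes a step as well), and `τ = 1` gives a link with exactly one step (the direct one; `C = {a}`, `R = {b}`): contradiction to `Unif`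
(`Irr` holds for `C.card = 1`: `rk u i' j' ≤ rk v i' j'`).
-/

open MvPolynomial Matrix

namespace Pool.Agent.H30.KL

variable {n : ℕ} {u v : Equiv.Perm (Fin n)}

theorem dead_mem_aux (huv : BruhatLE u v) (hU : Unif u v) : ∀ (N : ℕ) (a b : Fin n),
    (b : ℕ) - a ≤ N → a < b → u a < u b → ¬ BruhatLE (u * Equiv.swap a b) v →
    Zmat u (u b) a ∈ klIdeal u v := by
  classical
  intro N
  induction N with
  | zero =>
    intro a b hN hab _ _
    rw [Fin.lt_def] at hab
    omega
  | succ N ih =>
    intro a b hN hab hu hd
    by_cases hz : Zmat u (u b) a = 0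
    · rw [hz]; exact Ideal.zero_mem _
    -- the box
    have hex : ∃ M : ℕ, ∃ i j : Fin n, (n - (i : ℕ)) + j = M ∧ a ≤ j ∧ j < b ∧ u a < i ∧ i ≤ u b ∧
        rk u i j = rk v i j := by
      obtain ⟨i, j, -, h1, h2, h3, h4, h5⟩ := sep_of_not_le huv hab hu hd
      exact ⟨_, i, j, rfl, h1, h2, h3, h4, h5⟩
    obtain ⟨i, j, hM, haj, hjb, hai, hib, hrk⟩ := Nat.find_spec hex
    have hmin : ∀ i' j' : Fin n, i ≤ i' → j' ≤ j → (i' ≠ i ∨ j' ≠ j) → a ≤ j' → i' ≤ u b →
        rk u i' j' < rk v i' j' := by
      intro i' j' hi' hj' hne ha' hb'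
      refine lt_of_le_of_ne (huv i' j') fun heq => ?_
      have h1 : (n - (i' : ℕ)) + j' < Nat.find hex := by
        rw [← hM]
        have h2 := i'.isLt
        have h3 := i.isLt
        rw [Fin.le_def] at hi' hj'
        rcases hne with hne | hne
        · have h4 : (i' : ℕ) ≠ i := fun h => hne (Fin.ext h)
          omega
        · have h4 : (j' : ℕ) ≠ j := fun h => hne (Fin.ext h)
          omega
      exact Nat.find_min hex h1 ⟨i', j', rfl, ha', lt_of_le_of_lt hj' hjb,
        lt_of_lt_of_le hai hi', hb', heq⟩
    set W := NWs u i j with hW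
    have hWc : W.card = rk v i j := by rw [hW, card_NWs, hrk]
    set w := W.orderEmbOfFin rfl with hw
    have hwm : ∀ k, w k ≤ j ∧ i ≤ u (w k) := fun k => mem_NWs.1 (W.orderEmbOfFin_mem rfl k)
    have hwa : ∀ k, w k ≠ a := by
      intro k h
      have h1 := (hwm k).2
      rw [h] at h1
      exact absurd hai (not_lt.2 h1)
    have hwb : ∀ k, w k ≠ b := by
      intro k h
      have h1 := (hwm k).1
      rw [h] at h1
      exact absurd hjb (not_lt.2 h1)
    set f : Fin (W.card + 1) → Fin n := Fin.cons b w with hf
    set g : Fin (W.card + 1) → Fin n := Fin.cons a w with hg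
    have hf0 : f 0 = b := rfl
    have hg0 : g 0 = a := rfl
    have hfs : ∀ k, f (Fin.succ k) = w k := fun k => rfl
    have hgs : ∀ k, g (Fin.succ k) = w k := fun k => rfl
    have hfinj : Function.Injective f := by
      rw [hf, Fin.cons_injective_iff]
      exact ⟨fun ⟨k, hk⟩ => hwb k hk, w.injective⟩
    have hginj : Function.Injective g := by
      rw [hg, Fin.cons_injective_iff]
      exact ⟨fun ⟨k, hk⟩ => hwa k hk, w.injective⟩
    have hfa : ∀ x, f x ≠ a := by
      intro x
      refine Fin.cases ?_ (fun k => ?_) x
      · rw [hf0]; exact hab.ne'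
      · rw [hfs]; exact hwa k
    have hfm : ∀ x, i ≤ u (f x) := by
      intro x
      refine Fin.cases ?_ (fun k => ?_) x
      · rw [hf0]; exact hib
      · rw [hfs]; exact (hwm k).2
    have hgm : ∀ y, g y ≤ j := by
      intro x
      refine Fin.cases ?_ (fun k => ?_) x
      · rw [hg0]; exact haj
      · rw [hgs]; exact (hwm k).1
    have hwimg : Finset.univ.image w = W := by
      ext x
      simp only [Finset.mem_image, Finset.mem_univ, true_and]
      rw [← Set.mem_range, hw, W.range_orderEmbOfFin rfl, Finset.mem_coe]
    have hF : Finset.univ.image f = W ∪ {b} := by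
      ext x
      simp only [Finset.mem_image, Finset.mem_univ, true_and, Finset.mem_union,
        Finset.mem_singleton]
      constructor
      · rintro ⟨y, rfl⟩
        refine Fin.cases ?_ (fun k => ?_) y
        · exact Or.inr hf0
        · exact Or.inl (by rw [hfs]; exact W.orderEmbOfFin_mem rfl k)
      · rintro (h | h)
        · rw [← hwimg, Finset.mem_image] at h
          obtain ⟨k, -, hk⟩ := h
          exact ⟨Fin.succ k, by rw [hfs, hk]⟩
        · exact ⟨0, by rw [hf0, h]⟩
    have hG : Finset.univ.image g = W ∪ {a} := by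
      ext x
      simp only [Finset.mem_image, Finset.mem_univ, true_and, Finset.mem_union,
        Finset.mem_singleton]
      constructor
      · rintro ⟨y, rfl⟩
        refine Fin.cases ?_ (fun k => ?_) y
        · exact Or.inr hg0
        · exact Or.inl (by rw [hgs]; exact W.orderEmbOfFin_mem rfl k)
      · rintro (h | h)
        · rw [← hwimg, Finset.mem_image] at h
          obtain ⟨k, -, hk⟩ := h
          exact ⟨Fin.succ k, by rw [hgs, hk]⟩
        · exact ⟨0, by rw [hg0, h]⟩
    have hC : ({a} : Finset (Fin n)) ⊆ SWs u i j := by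
      rw [Finset.singleton_subset_iff, mem_SWs]
      exact ⟨haj, hai⟩
    have hR : ({b} : Finset (Fin n)) ⊆ NEs u i j := by
      rw [Finset.singleton_subset_iff, mem_NEs]
      exact ⟨hjb, hib⟩
    -- `τ = 1` is in `Star`
    have hstar1 : Star u v i j f g 1 := by
      intro i' j' hi' hj' hne
      have h1 : cnt u f g 1 i' j' ≤ (if a ≤ j' ∧ i' ≤ u b then 1 else 0) + rk u i' j' := by
        have h2 : (Finset.univ.filter fun y => g y ≤ j' ∧
            i' ≤ u (f ((1 : Equiv.Perm (Fin (W.card + 1))) y))) ⊆
            (if a ≤ j' ∧ i' ≤ u b then {0} else ∅) ∪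
              (Finset.univ.filter fun k => w k ≤ j' ∧ i' ≤ u (w k)).map (Fin.succEmb _) := by
          intro y hy
          rw [Finset.mem_filter] at hy
          have hy2 := hy.2
          rw [Equiv.Perm.one_apply] at hy2
          rw [Finset.mem_union]
          revert hy2
          refine Fin.cases ?_ (fun k => ?_) y
          · intro hy2
            left
            rw [hg0, hf0] at hy2
            rw [if_pos hy2]
            exact Finset.mem_singleton_self _
          · intro hy2
            right
            rw [hgs, hfs] at hy2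
            rw [Finset.mem_map]
            exact ⟨k, Finset.mem_filter.2 ⟨Finset.mem_univ _, hy2⟩, rfl⟩
        have h3 := Finset.card_le_card h2
        have h4 := h3.trans (Finset.card_union_le _ _)
        rw [Finset.card_map] at h4
        have h5 : (Finset.univ.filter fun k => w k ≤ j' ∧ i' ≤ u (w k)).card ≤ rk u i' j' := by
          rw [← Finset.card_map w.toEmbedding]
          apply Finset.card_le_card
          intro x hx
          rw [Finset.mem_map] at hx
          obtain ⟨k, hk, rfl⟩ := hx
          rw [Finset.mem_filter] at hk ⊢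
          exact ⟨Finset.mem_univ _, hk.2⟩
        have h6 : (if a ≤ j' ∧ i' ≤ u b then ({0} : Finset (Fin (W.card + 1))) else ∅).card =
            if a ≤ j' ∧ i' ≤ u b then 1 else 0 := by
          split_ifs <;> simp
        rw [h6] at h4
        exact h4.trans (Nat.add_le_add_left h5 _)
      refine h1.trans ?_
      split_ifs with h2
      · have := hmin i' j' hi' hj' hne h2.1 h2.2
        omega
      · have := huv i' j'
        omega
    have hprod1 : ∏ y, Zmat u (u (f ((1 : Equiv.Perm (Fin (W.card + 1))) y))) (g y) =
        Zmat u (u b) a := by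
      rw [Fin.prod_univ_succ]
      have h1 : ∀ k : Fin W.card, Zmat u (u (f ((1 : Equiv.Perm (Fin (W.card + 1)))
          (Fin.succ k)))) (g (Fin.succ k)) = 1 := by
        intro k
        rw [Equiv.Perm.one_apply, hfs, hgs]
        exact entry_diag u (w k)
      rw [Finset.prod_congr rfl fun k _ => h1 k, Finset.prod_const_one, mul_one,
        Equiv.Perm.one_apply, hf0, hg0]
    -- the number of steps of the direct link
    obtain ⟨σ1, hσ1, hc1⟩ := link_of_star (v := v) hC hR hfinj hginj hF hG hstar1 (by
        intro y
        rw [Equiv.Perm.one_apply]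
        refine Fin.cases ?_ (fun k => ?_) y
        · rw [hf0, hg0]; exact hz
        · rw [hfs, hgs, entry_diag]
          exact one_ne_zero) (by
        intro y
        rw [Equiv.Perm.one_apply]
        refine Fin.cases ?_ (fun k => ?_) y
        · intro _
          right
          exact ⟨rfl, rfl⟩
        · intro h
          exact absurd rfl h)
    have hc1' : (Finset.univ.filter fun y => f ((1 : Equiv.Perm (Fin (W.card + 1))) y) ≠ g y).card
        ≤ 1 := by
      refine le_trans (Finset.card_le_card (t := {0}) ?_) (Finset.card_singleton _).le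
      intro y hy
      rw [Finset.mem_filter, Equiv.Perm.one_apply] at hy
      rw [Finset.mem_singleton]
      revert hy
      refine Fin.cases ?_ (fun k => ?_) y
      · intro _; rfl
      · intro hy
        exact absurd rfl hy.2
    have hIrr : Irr u v i j {a} {b} := by
      constructor
      · intro i' j' hi' hj' _
        by_cases h1 : a ≤ j' ∧ u a < i'
        · rcases (huv i' j').lt_or_eq with h2 | h2
          · left
            have h3 : (({a} : Finset (Fin n)).filter fun c => c ≤ j' ∧ u c < i').card ≤ 1 :=
              (Finset.card_filter_le _ _).trans (by simp)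
            omega
          · right
            refine ⟨?_, by rw [h2, Finset.card_singleton]⟩
            rw [Finset.singleton_subset_iff, mem_SWs]
            exact h1
        · left
          have h3 : (({a} : Finset (Fin n)).filter fun c => c ≤ j' ∧ u c < i') = ∅ := by
            rw [Finset.filter_singleton, if_neg h1]
          rw [h3, Finset.card_empty, add_zero]
          exact huv i' j'
      · intro i' j' hi' hj' _
        by_cases h1 : j' < b ∧ i' ≤ u b
        · rcases (huv i' j').lt_or_eq with h2 | h2
          · left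
            have h3 : (({b} : Finset (Fin n)).filter fun r => j' < r ∧ i' ≤ u r).card ≤ 1 :=
              (Finset.card_filter_le _ _).trans (by simp)
            omega
          · right
            refine ⟨?_, by rw [h2, Finset.card_singleton]⟩
            rw [Finset.singleton_subset_iff, mem_NEs]
            exact h1
        · left
          have h3 : (({b} : Finset (Fin n)).filter fun r => j' < r ∧ i' ≤ u r) = ∅ := by
            rw [Finset.filter_singleton, if_neg h1]
          rw [h3, Finset.card_empty, add_zero]
          exact huv i' j'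
    -- the other terms
    have hne : ∀ τ : Equiv.Perm (Fin (W.card + 1)), Star u v i j f g τ → τ ≠ 1 →
        ∏ y, Zmat u (u (f (τ y))) (g y) ∈ klIdeal u v := by
      intro τ hτ hτ1
      by_contra hprod
      have hfac : ∀ y, Zmat u (u (f (τ y))) (g y) ∉ klIdeal u v := by
        intro x hx
        apply hprod
        rw [← Finset.mul_prod_erase Finset.univ _ (Finset.mem_univ x)]
        exact Ideal.mul_mem_right _ _ hx
      have hnz : ∀ y, Zmat u (u (f (τ y))) (g y) ≠ 0 := by
        intro y h0
        apply hfac y
        rw [h0]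
        exact Ideal.zero_mem _
      have hst : ∀ y, g y = f (τ y) ∨ (g y < f (τ y) ∧ u (g y) < u (f (τ y))) :=
        fun y => entry_ne_zero (hnz y)
      have hle : ∀ y, (g y : ℕ) ≤ f (τ y) := by
        intro y
        rcases hst y with h | h
        · exact le_of_eq (congrArg Fin.val h)
        · exact le_of_lt h.1
      have hsum : ∑ y, (((f (τ y) : ℕ) : ℤ) - ((g y : ℕ) : ℤ)) = ((b : ℕ) : ℤ) - ((a : ℕ) : ℤ) := by
        rw [Finset.sum_sub_distrib, Equiv.sum_comp τ fun x => ((f x : ℕ) : ℤ), Fin.sum_univ_succ,
          Fin.sum_univ_succ (f := fun y => ((g y : ℕ) : ℤ)), hf0, hg0]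
        have h1 : ∀ k : Fin W.card, f (Fin.succ k) = g (Fin.succ k) := fun k => rfl
        simp only [h1]
        ring
      have hpos : ∀ y, 0 ≤ ((f (τ y) : ℕ) : ℤ) - ((g y : ℕ) : ℤ) := by
        intro y
        have := hle y
        omega
      have hone : ∀ y, ((f (τ y) : ℕ) : ℤ) - ((g y : ℕ) : ℤ) ≤ ((b : ℕ) : ℤ) - ((a : ℕ) : ℤ) := by
        intro y
        rw [← hsum]
        exact Finset.single_le_sum (f := fun y => ((f (τ y) : ℕ) : ℤ) - ((g y : ℕ) : ℤ))
          (fun y _ => hpos y) (Finset.mem_univ y)
      have hlt : ∀ y, ((f (τ y) : ℕ) : ℤ) - ((g y : ℕ) : ℤ) < ((b : ℕ) : ℤ) - ((a : ℕ) : ℤ) := by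
        intro y
        refine lt_of_le_of_ne (hone y) fun heq => hτ1 ?_
        have hothers : ∀ y', y' ≠ y → f (τ y') = g y' := by
          intro y' hy'
          have h1 : ((f (τ y) : ℕ) : ℤ) - ((g y : ℕ) : ℤ) +
              (((f (τ y') : ℕ) : ℤ) - ((g y' : ℕ) : ℤ)) ≤
              ∑ y, (((f (τ y) : ℕ) : ℤ) - ((g y : ℕ) : ℤ)) := by
            rw [← Finset.sum_pair hy'.symm (f := fun y => ((f (τ y) : ℕ) : ℤ) - ((g y : ℕ) : ℤ))]
            exact Finset.sum_le_sum_of_subset_of_nonneg (Finset.subset_univ _)
              fun y _ _ => hpos y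
          have h2 := hpos y'
          apply Fin.ext
          omega
        have hy0 : y = 0 := by
          by_contra h0
          exact hfa _ ((hothers 0 (Ne.symm h0)).trans hg0)
        have hsucc : ∀ k, τ (Fin.succ k) = Fin.succ k := by
          intro k
          apply hfinj
          rw [hothers (Fin.succ k) (by rw [hy0]; exact Fin.succ_ne_zero k)]
          rfl
        ext1 x
        rw [Equiv.Perm.one_apply]
        refine Fin.cases ?_ (fun k => ?_) x
        · by_contra h0
          obtain ⟨k, hk⟩ := Fin.exists_succ_eq.2 h0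
          have h1 := hsucc k
          rw [hk] at h1
          exact h0 (τ.injective h1)
        · exact hsucc k
      have hal : ∀ y, g y ≠ f (τ y) → BruhatLE (u * Equiv.swap (g y) (f (τ y))) v := by
        intro y hy
        obtain ⟨h1, h2⟩ := (hst y).resolve_left hy
        by_contra h3
        refine hfac y (ih (g y) (f (τ y)) ?_ h1 h2 h3)
        have h4 := hlt y
        rw [Fin.lt_def] at hab h1
        omega
      obtain ⟨σ2, hσ2, hc2⟩ := link_of_star hC hR hfinj hginj hF hG hτ hnz
        (fun y hy => Or.inl (hal y hy))
      have heq := hU i j {a} {b} hC hR (by simp) (by rw [hrk, Finset.card_singleton]) hIrr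
        σ1 σ2 hσ1 hσ2
      rw [hc1, hc2] at heq
      rw [heq] at hc1'
      have h0 : (0 : Fin (W.card + 1)) ∈ Finset.univ.filter fun y => f (τ y) ≠ g y := by
        rw [Finset.mem_filter, hg0]
        exact ⟨Finset.mem_univ _, hfa _⟩
      have hτ0 : τ 0 ≠ 0 := by
        intro h
        have h1 := hlt 0
        rw [h, hf0, hg0] at h1
        exact lt_irrefl _ h1
      obtain ⟨k, hk⟩ := Fin.exists_succ_eq.2 hτ0
      have h1 : Fin.succ k ∈ Finset.univ.filter fun y => f (τ y) ≠ g y := by
        rw [Finset.mem_filter]
        refine ⟨Finset.mem_univ _, fun h => ?_⟩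
        have h2 : τ (Fin.succ k) = Fin.succ k := hfinj (h.trans rfl)
        rw [← h2] at hk
        exact Fin.succ_ne_zero k (τ.injective hk)
      have h2 := Finset.card_le_one.1 hc1' _ h0 _ h1
      exact Fin.succ_ne_zero k h2.symm
    have hD := dstar_mem (u := u) (v := v) i j f g hfm hgm (by rw [hWc]; exact Nat.lt_succ_self _)
    rw [Dstar, ← Finset.add_sum_erase _ _ (Finset.mem_filter.2 ⟨Finset.mem_univ _, hstar1⟩),
      Equiv.Perm.sign_one, one_smul, hprod1] at hD
    refine (Ideal.add_mem_iff_left _ ?_).1 hD
    apply Ideal.sum_mem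
    intro τ hτ
    rw [Finset.mem_erase, Finset.mem_filter] at hτ
    have h1 := hne τ hτ.2.2 hτ.1
    rcases Int.units_eq_one_or (Equiv.Perm.sign τ) with h2 | h2
    · rw [h2, one_smul]; exact h1
    · rw [h2, Units.neg_smul, one_smul]; exact (Ideal.neg_mem_iff _).2 h1

theorem dead_mem (huv : BruhatLE u v) (hU : Unif u v) {a b : Fin n} (hab : a < b)
    (hu : u a < u b) (hd : ¬ BruhatLE (u * Equiv.swap a b) v) :
    Zmat u (u b) a ∈ klIdeal u v :=
  dead_mem_aux huv hU _ a b le_rfl hab hu hd

end Pool.Agent.H30.KL
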