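import Pool.Agent.H30.KL.Gen.Exp

/-!
# Decomposition of a minor by the first violated box (GEN-2)

`star_sub_mem`: `Dm u f g = ∑ τ, sign τ • ∏ y, Zmat u (u (f (τ y))) (g y)` (`Matrix.det_apply`), so `Dm - Dstar` is the sum over the `τ` which violate `Star`.
For such a `τ` let `p = (i0,j0)` be the first violated box (`rk v i' j' < cnt u f g τ i' j'`, `i ≤ i'`, `j' ≤ j`, not `(i,j)`): `i0` as large as possible, then `j0` as
small as possible.  Let `A = {y | g y ≤ j0 ∧ i0 ≤ u (f (τ y))}`, `A.card = cnt u f g τ i0 j0`.  For fixed `p`, `A` the group `Perm A` acts on the right: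
`τ ↦ τ * ρ` (`ρ` extended by the identity, `Equiv.Perm.ofSubtype`).  It preserves `A` and the product outside of `A`; it preserves `cnt` of every box `(i',j')` with `i' ≤ i0` or
`j0 ≤ j'`; for `i0 < i'`, `j' < j0` (all these boxes come before `p`) `cnt u f g (τ * ρ) i' j'` is the `cnt` of the inner minor (rows `f ∘ τ ∘ val`, columns
`g ∘ val`, index type `A`) and `ρ`.  So with `Q = {τ | the cells of p are A, no box before p which is not strictly inside (i0 < i', j' < j0) is violated}` (stable under `Perm A`)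
`A.card ! • ∑ τ ∈ Q, [inner condition] G τ = ∑ τ ∈ Q, ∑ ρ, [inner condition for τ * ρ] G (τ * ρ)
 = ∑ τ ∈ Q, ± (∏ y ∉ A, ...) * Dstar u v i0 j0 (f ∘ τ ∘ val) (g ∘ val)`,
every summand is in `K` by `H` (reindex `A` by `Fin A.card`; if the outer product is not `0` all its factors have `g y ≤ f (τ y)`, so the inner height is `≤ ht f g ≤ h`),
and `A.card !` is invertible in `ℂ`.
-/

open MvPolynomial Matrix

namespace Pool.Agent.H30.KL

variable {n : ℕ} {u v : Equiv.Perm (Fin n)}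

theorem Dstar_reindex {ι κ : Type*} [Fintype ι] [DecidableEq ι] [Fintype κ] [DecidableEq κ]
    (e : κ ≃ ι) (i j : Fin n) (f g : ι → Fin n) :
    Dstar u v i j (f ∘ e) (g ∘ e) = Dstar u v i j f g := by
  classical
  have hcnt : ∀ (τ : Equiv.Perm κ) (i' j' : Fin n),
      cnt u (f ∘ e) (g ∘ e) τ i' j' = cnt u f g (e.permCongr τ) i' j' := by
    intro τ i' j'
    unfold cnt
    refine Finset.card_bij (fun y _ => e y) ?_ ?_ ?_
    · intro y hy
      rw [Finset.mem_filter] at hy ⊢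
      refine ⟨Finset.mem_univ _, hy.2.1, ?_⟩
      have h2 := hy.2.2
      simp only [Function.comp] at h2
      simpa [Equiv.permCongr_apply] using h2
    · intro y _ y' _ h
      exact e.injective h
    · intro y hy
      rw [Finset.mem_filter] at hy
      refine ⟨e.symm y, ?_, by simp⟩
      rw [Finset.mem_filter]
      refine ⟨Finset.mem_univ _, by simpa using hy.2.1, ?_⟩
      have h2 := hy.2.2
      simpa [Equiv.permCongr_apply] using h2
  unfold Dstar
  refine Finset.sum_equiv e.permCongr ?_ ?_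
  · intro τ
    rw [Finset.mem_filter, Finset.mem_filter]
    unfold Star
    simp only [Finset.mem_univ, true_and, hcnt]
  · intro τ _
    rw [Equiv.Perm.sign_permCongr]
    congr 1
    rw [← Equiv.prod_comp e (fun y => Zmat u (u (f (e.permCongr τ y))) (g y))]
    refine Finset.prod_congr rfl fun y _ => ?_
    simp [Equiv.permCongr_apply]

namespace E1

/-- the cells of `τ` in the box `(i0,j0)` -/
def cells (u : Equiv.Perm (Fin n)) {s : ℕ} (f g : Fin s → Fin n) (i0 j0 : Fin n)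
    (τ : Equiv.Perm (Fin s)) : Finset (Fin s) :=
  Finset.univ.filter fun y => g y ≤ j0 ∧ i0 ≤ u (f (τ y))

theorem card_cells {s : ℕ} (f g : Fin s → Fin n) (i0 j0 : Fin n) (τ : Equiv.Perm (Fin s)) :
    (cells u f g i0 j0 τ).card = cnt u f g τ i0 j0 := rfl

/-- `(i0,j0)` is a violated box of `τ` -/
def Viol (u v : Equiv.Perm (Fin n)) (i j : Fin n) {s : ℕ} (f g : Fin s → Fin n)
    (τ : Equiv.Perm (Fin s)) (p : Fin n × Fin n) : Prop :=
  i ≤ p.1 ∧ p.2 ≤ j ∧ (p.1 ≠ i ∨ p.2 ≠ j) ∧ rk v p.1 p.2 < cnt u f g τ p.1 p.2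

/-- the first violated box -/
def First (u v : Equiv.Perm (Fin n)) (i j : Fin n) {s : ℕ} (f g : Fin s → Fin n)
    (τ : Equiv.Perm (Fin s)) (p : Fin n × Fin n) : Prop :=
  Viol u v i j f g τ p ∧ ∀ q, Viol u v i j f g τ q → q.1 < p.1 ∨ (q.1 = p.1 ∧ p.2 ≤ q.2)

theorem First.unique {i j : Fin n} {s : ℕ} {f g : Fin s → Fin n} {τ : Equiv.Perm (Fin s)}
    {p q : Fin n × Fin n} (hp : First u v i j f g τ p) (hq : First u v i j f g τ q) : p = q := by
  have h1 := hp.2 q hq.1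
  have h2 := hq.2 p hp.1
  rcases h1 with h1 | ⟨h1, h1'⟩
  · rcases h2 with h2 | ⟨h2, h2'⟩
    · exact absurd (h1.trans h2) (lt_irrefl _)
    · rw [h2] at h1
      exact absurd h1 (lt_irrefl _)
  · rcases h2 with h2 | ⟨h2, h2'⟩
    · rw [h1] at h2
      exact absurd h2 (lt_irrefl _)
    · exact Prod.ext h2 (le_antisymm h1' h2')

theorem exists_first {i j : Fin n} {s : ℕ} {f g : Fin s → Fin n} {τ : Equiv.Perm (Fin s)}
    (h : ¬ Star u v i j f g τ) : ∃ p, First u v i j f g τ p := by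
  classical
  unfold Star at h
  push Not at h
  obtain ⟨i', j', h1, h2, h3, h4⟩ := h
  have hne : (Finset.univ.filter fun q : Fin n × Fin n => Viol u v i j f g τ q).Nonempty :=
    ⟨(i', j'), by rw [Finset.mem_filter]; exact ⟨Finset.mem_univ _, h1, h2, h3, h4⟩⟩
  obtain ⟨p, hp, hpm⟩ := Finset.exists_max_image _ (fun q : Fin n × Fin n => q.1) hne
  have hne2 : (Finset.univ.filter fun q : Fin n × Fin n =>
      Viol u v i j f g τ q ∧ q.1 = p.1).Nonempty :=
    ⟨p, by
      rw [Finset.mem_filter] at hp ⊢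
      exact ⟨Finset.mem_univ _, hp.2, rfl⟩⟩
  obtain ⟨p', hp', hpm'⟩ := Finset.exists_min_image _ (fun q : Fin n × Fin n => q.2) hne2
  rw [Finset.mem_filter] at hp'
  refine ⟨p', hp'.2.1, ?_⟩
  intro q hq
  have h5 := hpm q (by rw [Finset.mem_filter]; exact ⟨Finset.mem_univ _, hq⟩)
  rw [← hp'.2.2] at h5
  rcases lt_or_eq_of_le h5 with h6 | h6
  · exact Or.inl h6
  · right
    refine ⟨h6, ?_⟩
    exact hpm' q (by rw [Finset.mem_filter]; exact ⟨Finset.mem_univ _, hq, h6.trans hp'.2.2⟩)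

theorem not_star_of_viol {i j : Fin n} {s : ℕ} {f g : Fin s → Fin n} {τ : Equiv.Perm (Fin s)}
    {p : Fin n × Fin n} (h : Viol u v i j f g τ p) : ¬ Star u v i j f g τ := by
  intro hs
  have := hs p.1 p.2 h.1 h.2.1 h.2.2.1
  exact absurd this (not_le.2 h.2.2.2)

/-- the stable condition -/
def QQ (u v : Equiv.Perm (Fin n)) (i j i0 j0 : Fin n) {s : ℕ} (f g : Fin s → Fin n)
    (A : Finset (Fin s)) (τ : Equiv.Perm (Fin s)) : Prop :=
  cells u f g i0 j0 τ = A ∧ ∀ i' j' : Fin n, i ≤ i' → j' ≤ j → (i' ≠ i ∨ j' ≠ j) →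
    (i0 < i' ∨ (i' = i0 ∧ j' < j0)) → ¬ (i0 < i' ∧ j' < j0) → cnt u f g τ i' j' ≤ rk v i' j'

/-- the inner condition -/
def CC (u v : Equiv.Perm (Fin n)) (i0 j0 : Fin n) {s : ℕ} (f g : Fin s → Fin n)
    (τ : Equiv.Perm (Fin s)) : Prop :=
  ∀ i' j' : Fin n, i0 < i' → j' < j0 → cnt u f g τ i' j' ≤ rk v i' j'

theorem first_iff {i j i0 j0 : Fin n} {s : ℕ} {f g : Fin s → Fin n} {A : Finset (Fin s)}
    (h1 : i ≤ i0) (h2 : j0 ≤ j) (h3 : i0 ≠ i ∨ j0 ≠ j) (h4 : rk v i0 j0 < A.card)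
    (τ : Equiv.Perm (Fin s)) :
    (First u v i j f g τ (i0, j0) ∧ cells u f g i0 j0 τ = A) ↔
      (QQ u v i j i0 j0 f g A τ ∧ CC u v i0 j0 f g τ) := by
  constructor
  · rintro ⟨hF, hA⟩
    have key : ∀ i' j' : Fin n, i ≤ i' → j' ≤ j → (i' ≠ i ∨ j' ≠ j) →
        (i0 < i' ∨ (i' = i0 ∧ j' < j0)) → cnt u f g τ i' j' ≤ rk v i' j' := by
      intro i' j' a1 a2 a3 a4
      by_contra hc
      rw [not_le] at hc
      have := hF.2 (i', j') ⟨a1, a2, a3, hc⟩
      simp only at this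
      rcases a4 with a4 | ⟨a4, a5⟩
      · rcases this with t | ⟨t, t'⟩
        · exact absurd (a4.trans t) (lt_irrefl _)
        · rw [t] at a4
          exact absurd a4 (lt_irrefl _)
      · rcases this with t | ⟨t, t'⟩
        · rw [a4] at t
          exact absurd t (lt_irrefl _)
        · exact absurd (a5.trans_le t') (lt_irrefl _)
    refine ⟨⟨hA, fun i' j' a1 a2 a3 a4 _ => key i' j' a1 a2 a3 a4⟩, ?_⟩
    intro i' j' a1 a2
    refine key i' j' (h1.trans a1.le) (a2.le.trans h2) (Or.inl ?_) (Or.inl a1)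
    exact ne_of_gt (h1.trans_lt a1)
  · rintro ⟨⟨hA, hQ⟩, hC⟩
    refine ⟨⟨⟨h1, h2, h3, ?_⟩, ?_⟩, hA⟩
    · simp only
      rw [← card_cells, hA]
      exact h4
    · rintro ⟨i', j'⟩ ⟨a1, a2, a3, a4⟩
      simp only at a1 a2 a3 a4 ⊢
      by_contra hc
      push Not at hc
      obtain ⟨b1, b2⟩ := hc
      have h5 : i0 < i' ∨ (i' = i0 ∧ j' < j0) := by
        rcases lt_or_eq_of_le b1 with h | h
        · exact Or.inl h
        · exact Or.inr ⟨h.symm, b2 h.symm⟩
      by_cases hin : i0 < i' ∧ j' < j0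
      · exact absurd (hC i' j' hin.1 hin.2) (not_le.2 a4)
      · exact absurd (hQ i' j' a1 a2 a3 h5 hin) (not_le.2 a4)

/-- extension by the identity -/
def ext {s : ℕ} {A : Finset (Fin s)} (ρ : Equiv.Perm A) : Equiv.Perm (Fin s) :=
  Equiv.Perm.ofSubtype (p := fun y => y ∈ A) ρ

theorem ext_mem {s : ℕ} {A : Finset (Fin s)} (ρ : Equiv.Perm A) {y : Fin s} (hy : y ∈ A) :
    ext ρ y = ρ ⟨y, hy⟩ := by
  unfold ext
  exact Equiv.Perm.ofSubtype_apply_of_mem (p := fun y => y ∈ A) ρ hy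

theorem ext_not_mem {s : ℕ} {A : Finset (Fin s)} (ρ : Equiv.Perm A) {y : Fin s} (hy : y ∉ A) :
    ext ρ y = y := by
  unfold ext
  exact Equiv.Perm.ofSubtype_apply_of_not_mem (p := fun y => y ∈ A) ρ hy

theorem ext_mem_iff {s : ℕ} {A : Finset (Fin s)} (ρ : Equiv.Perm A) (y : Fin s) :
    ext ρ y ∈ A ↔ y ∈ A := by
  by_cases hy : y ∈ A
  · rw [ext_mem ρ hy]
    exact ⟨fun _ => hy, fun _ => (ρ ⟨y, hy⟩).2⟩
  · rw [ext_not_mem ρ hy]

theorem ext_inv {s : ℕ} {A : Finset (Fin s)} (ρ : Equiv.Perm A) :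
    ext ρ⁻¹ = (ext ρ)⁻¹ := by
  unfold ext
  rw [map_inv]

theorem sign_ext {s : ℕ} {A : Finset (Fin s)} (ρ : Equiv.Perm A) :
    Equiv.Perm.sign (ext ρ) = Equiv.Perm.sign ρ := by
  unfold ext
  exact Equiv.Perm.sign_ofSubtype (p := fun y => y ∈ A) ρ

section act

variable {s : ℕ} {f g : Fin s → Fin n} {i0 j0 : Fin n} {A : Finset (Fin s)}
  {τ : Equiv.Perm (Fin s)}

theorem mem_of_cells (h : cells u f g i0 j0 τ = A) {y : Fin s} :
    y ∈ A ↔ g y ≤ j0 ∧ i0 ≤ u (f (τ y)) := by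
  rw [← h, cells, Finset.mem_filter]
  simp

theorem cnt_act_of_le (h : cells u f g i0 j0 τ = A) (ρ : Equiv.Perm A) {i' j' : Fin n}
    (hi : i' ≤ i0) : cnt u f g (τ * ext ρ) i' j' = cnt u f g τ i' j' := by
  unfold cnt
  congr 1
  ext y
  rw [Finset.mem_filter, Finset.mem_filter]
  simp only [Finset.mem_univ, true_and, Equiv.Perm.mul_apply]
  by_cases hy : y ∈ A
  · have h1 := ((mem_of_cells h).1 hy).2
    have h2 := ((mem_of_cells h).1 ((ext_mem_iff ρ y).2 hy)).2
    constructor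
    · rintro ⟨a, b⟩
      exact ⟨a, hi.trans h1⟩
    · rintro ⟨a, b⟩
      exact ⟨a, hi.trans h2⟩
  · rw [ext_not_mem ρ hy]

theorem cnt_act_of_ge (h : cells u f g i0 j0 τ = A) (ρ : Equiv.Perm A) {i' j' : Fin n}
    (hj : j0 ≤ j') : cnt u f g (τ * ext ρ) i' j' = cnt u f g τ i' j' := by
  unfold cnt
  refine Finset.card_bij (fun y _ => ext ρ y) ?_ ?_ ?_
  · intro y hy
    rw [Finset.mem_filter] at hy ⊢
    obtain ⟨-, h1, h2⟩ := hy
    refine ⟨Finset.mem_univ _, ?_, ?_⟩
    · by_cases hA : y ∈ A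
      · exact (((mem_of_cells h).1 ((ext_mem_iff ρ y).2 hA)).1).trans hj
      · rw [ext_not_mem ρ hA]; exact h1
    · simpa [Equiv.Perm.mul_apply] using h2
  · intro y _ y' _ hyy
    exact (ext ρ).injective hyy
  · intro y hy
    rw [Finset.mem_filter] at hy
    obtain ⟨-, h1, h2⟩ := hy
    refine ⟨(ext ρ)⁻¹ y, ?_, by simp⟩
    rw [Finset.mem_filter]
    refine ⟨Finset.mem_univ _, ?_, ?_⟩
    · rw [← ext_inv]
      by_cases hA : y ∈ A
      · exact (((mem_of_cells h).1 ((ext_mem_iff ρ⁻¹ y).2 hA)).1).trans hj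
      · rw [ext_not_mem _ hA]; exact h1
    · simpa [Equiv.Perm.mul_apply] using h2

theorem cells_act (h : cells u f g i0 j0 τ = A) (ρ : Equiv.Perm A) :
    cells u f g i0 j0 (τ * ext ρ) = A := by
  ext y
  rw [cells, Finset.mem_filter]
  simp only [Finset.mem_univ, true_and, Equiv.Perm.mul_apply]
  by_cases hy : y ∈ A
  · have h1 := ((mem_of_cells h).1 hy).1
    have h2 := ((mem_of_cells h).1 ((ext_mem_iff ρ y).2 hy)).2
    exact ⟨fun _ => hy, fun _ => ⟨h1, h2⟩⟩
  · rw [ext_not_mem ρ hy]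
    exact (mem_of_cells h).symm

theorem QQ_act {i j : Fin n} (h : QQ u v i j i0 j0 f g A τ) (ρ : Equiv.Perm A) :
    QQ u v i j i0 j0 f g A (τ * ext ρ) := by
  refine ⟨cells_act h.1 ρ, ?_⟩
  intro i' j' a1 a2 a3 a4 a5
  have h6 := h.2 i' j' a1 a2 a3 a4 a5
  by_cases hj : j0 ≤ j'
  · rw [cnt_act_of_ge h.1 ρ hj]; exact h6
  · rw [not_le] at hj
    have hi : i' ≤ i0 := by
      by_contra hc
      exact a5 ⟨not_le.1 hc, hj⟩
    rw [cnt_act_of_le h.1 ρ hi]; exact h6

theorem QQ_act_iff {i j : Fin n} (ρ : Equiv.Perm A) :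
    QQ u v i j i0 j0 f g A τ ↔ QQ u v i j i0 j0 f g A (τ * ext ρ) := by
  refine ⟨fun h => QQ_act h ρ, fun h => ?_⟩
  have h2 := QQ_act h ρ⁻¹
  rw [ext_inv, mul_assoc, mul_inv_cancel, mul_one] at h2
  exact h2

/-- counting in the inner minor -/
theorem cnt_inner (h : cells u f g i0 j0 τ = A) (ρ : Equiv.Perm A) {i' j' : Fin n}
    (hi : i0 ≤ i') (hj : j' ≤ j0) :
    cnt u (fun y : A => f (τ y)) (fun y : A => g y) ρ i' j' = cnt u f g (τ * ext ρ) i' j' := by
  unfold cnt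
  refine Finset.card_bij (fun y _ => (y : Fin s)) ?_ ?_ ?_
  · intro y hy
    rw [Finset.mem_filter] at hy ⊢
    refine ⟨Finset.mem_univ _, hy.2.1, ?_⟩
    rw [Equiv.Perm.mul_apply, ext_mem ρ y.2]
    exact hy.2.2
  · intro y _ y' _ hyy
    exact Subtype.ext hyy
  · intro y hy
    rw [Finset.mem_filter] at hy
    obtain ⟨-, h1, h2⟩ := hy
    have hA : y ∈ A := by
      rw [← cells_act h ρ, cells, Finset.mem_filter]
      exact ⟨Finset.mem_univ _, h1.trans hj, hi.trans h2⟩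
    refine ⟨⟨y, hA⟩, ?_, rfl⟩
    rw [Finset.mem_filter]
    refine ⟨Finset.mem_univ _, h1, ?_⟩
    rw [Equiv.Perm.mul_apply, ext_mem ρ hA] at h2
    exact h2

theorem star_inner {i j : Fin n} (h1 : i ≤ i0) (h2 : j0 ≤ j)
    (h : QQ u v i j i0 j0 f g A τ) (ρ : Equiv.Perm A) :
    Star u v i0 j0 (fun y : A => f (τ y)) (fun y : A => g y) ρ ↔
      CC u v i0 j0 f g (τ * ext ρ) := by
  constructor
  · intro hS i' j' a1 a2
    rw [← cnt_inner h.1 ρ a1.le a2.le]
    exact hS i' j' a1.le a2.le (Or.inl (ne_of_gt a1))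
  · intro hC i' j' a1 a2 a3
    rw [cnt_inner h.1 ρ a1 a2]
    by_cases hin : i0 < i' ∧ j' < j0
    · exact hC i' j' hin.1 hin.2
    · refine (QQ_act h ρ).2 i' j' (h1.trans a1) (a2.trans h2) ?_ ?_ hin
      · rcases a3 with a3 | a3
        · left
          have : i0 < i' := lt_of_le_of_ne a1 (Ne.symm a3)
          exact ne_of_gt (h1.trans_lt this)
        · right
          have : j' < j0 := lt_of_le_of_ne a2 a3
          exact ne_of_lt (this.trans_le h2)
      · rcases lt_or_eq_of_le a1 with h | h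
        · exact Or.inl h
        · right
          refine ⟨h.symm, ?_⟩
          rcases a3 with a3 | a3
          · exact absurd h.symm a3
          · exact lt_of_le_of_ne a2 a3

end act

/-- the term of `τ` -/
noncomputable def FF (u : Equiv.Perm (Fin n)) {s : ℕ} (f g : Fin s → Fin n)
    (τ : Equiv.Perm (Fin s)) : MvPolynomial (Free u) ℂ :=
  Equiv.Perm.sign τ • ∏ y, Zmat u (u (f (τ y))) (g y)

/-- the product outside of `A` -/
noncomputable def OO (u : Equiv.Perm (Fin n)) {s : ℕ} (f g : Fin s → Fin n) (A : Finset (Fin s))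
    (τ : Equiv.Perm (Fin s)) : MvPolynomial (Free u) ℂ :=
  ∏ y ∈ Aᶜ, Zmat u (u (f (τ y))) (g y)

section sums

variable {s : ℕ} {f g : Fin s → Fin n} {i0 j0 : Fin n} {A : Finset (Fin s)}

open Classical in
theorem inner_term {i j : Fin n} (h1 : i ≤ i0) (h2 : j0 ≤ j) {τ : Equiv.Perm (Fin s)}
    (h : QQ u v i j i0 j0 f g A τ) :
    (∑ ρ : Equiv.Perm A, if CC u v i0 j0 f g (τ * ext ρ) then FF u f g (τ * ext ρ) else 0) =
      Equiv.Perm.sign τ •
        (OO u f g A τ * Dstar u v i0 j0 (fun y : A => f (τ y)) (fun y : A => g y)) := by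
  unfold Dstar
  rw [Finset.sum_filter, Finset.mul_sum, Finset.smul_sum]
  refine Finset.sum_congr rfl fun ρ _ => ?_
  by_cases hS : Star u v i0 j0 (fun y : A => f (τ y)) (fun y : A => g y) ρ
  · rw [if_pos hS, if_pos ((star_inner h1 h2 h ρ).1 hS)]
    unfold FF OO
    have hp : ∏ y, Zmat u (u (f ((τ * ext ρ) y))) (g y) =
        (∏ y : A, Zmat u (u (f (τ (ρ y)))) (g y)) * ∏ y ∈ Aᶜ, Zmat u (u (f (τ y))) (g y) := by
      rw [← Finset.prod_mul_prod_compl A]
      congr 1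
      · rw [← Finset.prod_coe_sort A]
        refine Finset.prod_congr rfl fun y _ => ?_
        rw [Equiv.Perm.mul_apply, ext_mem ρ y.2]
      · refine Finset.prod_congr rfl fun y hy => ?_
        rw [Equiv.Perm.mul_apply, ext_not_mem ρ (Finset.mem_compl.1 hy)]
    rw [hp, Equiv.Perm.sign_mul, sign_ext, mul_smul, mul_smul_comm]
    congr 2
    rw [mul_comm]
  · rw [if_neg hS, if_neg (fun hc => hS ((star_inner h1 h2 h ρ).2 hc)), mul_zero, smul_zero]

open Classical in
theorem card_mul_sum {i j : Fin n} (h1 : i ≤ i0) (h2 : j0 ≤ j) :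
    (Fintype.card (Equiv.Perm A) : MvPolynomial (Free u) ℂ) *
      (∑ τ ∈ Finset.univ.filter (QQ u v i j i0 j0 f g A),
        if CC u v i0 j0 f g τ then FF u f g τ else 0) =
    ∑ τ ∈ Finset.univ.filter (QQ u v i j i0 j0 f g A), Equiv.Perm.sign τ •
        (OO u f g A τ * Dstar u v i0 j0 (fun y : A => f (τ y)) (fun y : A => g y)) := by
  have e1 : ∀ ρ : Equiv.Perm A, (∑ τ ∈ Finset.univ.filter (QQ u v i j i0 j0 f g A),
      if CC u v i0 j0 f g (τ * ext ρ) then FF u f g (τ * ext ρ) else 0) =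
      ∑ τ ∈ Finset.univ.filter (QQ u v i j i0 j0 f g A),
        if CC u v i0 j0 f g τ then FF u f g τ else 0 := by
    intro ρ
    refine Finset.sum_equiv (Equiv.mulRight (ext ρ)) ?_ ?_
    · intro τ
      rw [Finset.mem_filter, Finset.mem_filter]
      simp only [Finset.mem_univ, true_and, Equiv.coe_mulRight]
      exact QQ_act_iff ρ
    · intro τ _
      rfl
  calc (Fintype.card (Equiv.Perm A) : MvPolynomial (Free u) ℂ) *
      (∑ τ ∈ Finset.univ.filter (QQ u v i j i0 j0 f g A),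
        if CC u v i0 j0 f g τ then FF u f g τ else 0)
      = ∑ _ρ : Equiv.Perm A, (∑ τ ∈ Finset.univ.filter (QQ u v i j i0 j0 f g A),
        if CC u v i0 j0 f g τ then FF u f g τ else 0) := by
        rw [Finset.sum_const, Finset.card_univ, nsmul_eq_mul]
    _ = ∑ ρ : Equiv.Perm A, (∑ τ ∈ Finset.univ.filter (QQ u v i j i0 j0 f g A),
      if CC u v i0 j0 f g (τ * ext ρ) then FF u f g (τ * ext ρ) else 0) := by
        refine Finset.sum_congr rfl fun ρ _ => (e1 ρ).symm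
    _ = ∑ τ ∈ Finset.univ.filter (QQ u v i j i0 j0 f g A), (∑ ρ : Equiv.Perm A,
      if CC u v i0 j0 f g (τ * ext ρ) then FF u f g (τ * ext ρ) else 0) := Finset.sum_comm
    _ = _ := by
        refine Finset.sum_congr rfl fun τ hτ => ?_
        exact inner_term h1 h2 (Finset.mem_filter.1 hτ).2

theorem sign_smul_mem {K : Ideal (MvPolynomial (Free u) ℂ)} (τ : Equiv.Perm (Fin s))
    {x : MvPolynomial (Free u) ℂ} (hx : x ∈ K) : Equiv.Perm.sign τ • x ∈ K := by
  rcases Int.units_eq_one_or (Equiv.Perm.sign τ) with h | h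
  · rw [h, one_smul]; exact hx
  · rw [h, Units.neg_smul, one_smul]; exact K.neg_mem hx

theorem mem_of_natCast_mul {K : Ideal (MvPolynomial (Free u) ℂ)} {m : ℕ} (hm : m ≠ 0)
    {x : MvPolynomial (Free u) ℂ} (hx : (m : MvPolynomial (Free u) ℂ) * x ∈ K) : x ∈ K := by
  have h := K.mul_mem_left (C ((m : ℂ)⁻¹)) hx
  rw [← mul_assoc] at h
  have h2 : (C ((m : ℂ)⁻¹) : MvPolynomial (Free u) ℂ) * (m : MvPolynomial (Free u) ℂ) = 1 := by
    rw [← map_natCast (C : ℂ →+* MvPolynomial (Free u) ℂ) m, ← C_mul,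
      inv_mul_cancel₀ (Nat.cast_ne_zero.2 hm), C_1]
  rw [h2, one_mul] at h
  exact h

theorem ht_inner_le (τ : Equiv.Perm (Fin s)) (hO : OO u f g A τ ≠ 0) :
    ht (fun y : A => f (τ y)) (fun y : A => g y) ≤ ht f g := by
  have h1 : ∀ y ∈ Aᶜ, ((g y : ℕ) : ℤ) ≤ ((f (τ y) : ℕ) : ℤ) := by
    intro y hy
    have h2 : Zmat u (u (f (τ y))) (g y) ≠ 0 := by
      intro hz
      exact hO (Finset.prod_eq_zero hy hz)
    rcases entry_ne_zero h2 with h3 | h3
    · rw [h3]
    · exact_mod_cast h3.1.le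
  unfold ht
  have h2 : ∑ x, ((f x : ℕ) : ℤ) = ∑ y, ((f (τ y) : ℕ) : ℤ) :=
    (Equiv.sum_comp τ (fun x => ((f x : ℕ) : ℤ))).symm
  rw [h2, ← Finset.sum_add_sum_compl A (fun y => ((f (τ y) : ℕ) : ℤ)),
    ← Finset.sum_add_sum_compl A (fun y => ((g y : ℕ) : ℤ)),
    ← Finset.sum_coe_sort A (fun y => ((f (τ y) : ℕ) : ℤ)),
    ← Finset.sum_coe_sort A (fun y => ((g y : ℕ) : ℤ))]
  have h3 := Finset.sum_le_sum h1
  linarith

open Classical in
theorem block_mem (K : Ideal (MvPolynomial (Free u) ℂ)) {i j : Fin n} {h : ℤ}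
    (H : ∀ i' j' : Fin n, i ≤ i' → j' ≤ j → (i' ≠ i ∨ j' ≠ j) → ∀ (s : ℕ) (f g : Fin s → Fin n),
      (∀ x, i' ≤ u (f x)) → (∀ y, g y ≤ j') → rk v i' j' < s → ht f g ≤ h →
      Dstar u v i' j' f g ∈ K)
    (hh : ht f g ≤ h) (p : Fin n × Fin n) (A : Finset (Fin s)) :
    ∑ τ ∈ Finset.univ.filter (fun τ : Equiv.Perm (Fin s) =>
      First u v i j f g τ p ∧ cells u f g p.1 p.2 τ = A), FF u f g τ ∈ K := by
  obtain ⟨i0, j0⟩ := p
  simp only
  by_cases hst : i ≤ i0 ∧ j0 ≤ j ∧ (i0 ≠ i ∨ j0 ≠ j) ∧ rk v i0 j0 < A.card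
  · obtain ⟨h1, h2, h3, h4⟩ := hst
    have e1 : ∑ τ ∈ Finset.univ.filter (fun τ : Equiv.Perm (Fin s) =>
        First u v i j f g τ (i0, j0) ∧ cells u f g i0 j0 τ = A), FF u f g τ =
        ∑ τ ∈ Finset.univ.filter (QQ u v i j i0 j0 f g A),
          if CC u v i0 j0 f g τ then FF u f g τ else 0 := by
      rw [← Finset.sum_filter, Finset.filter_filter]
      refine Finset.sum_congr ?_ fun _ _ => rfl
      ext τ
      rw [Finset.mem_filter, Finset.mem_filter, first_iff h1 h2 h3 h4 τ]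
    rw [e1]
    refine mem_of_natCast_mul (m := Fintype.card (Equiv.Perm A)) Fintype.card_ne_zero ?_
    rw [card_mul_sum h1 h2]
    refine K.sum_mem fun τ hτ => sign_smul_mem τ ?_
    have hQ : QQ u v i j i0 j0 f g A τ := (Finset.mem_filter.1 hτ).2
    by_cases hO : OO u f g A τ = 0
    · rw [hO, zero_mul]; exact K.zero_mem
    · refine K.mul_mem_left _ ?_
      rw [← Dstar_reindex A.equivFin.symm]
      refine H i0 j0 h1 h2 h3 A.card _ _ ?_ ?_ h4 ?_
      · intro x
        exact ((mem_of_cells hQ.1).1 (A.equivFin.symm x).2).2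
      · intro y
        exact ((mem_of_cells hQ.1).1 (A.equivFin.symm y).2).1
      · have h5 := (ht_inner_le τ hO).trans hh
        refine le_trans (le_of_eq ?_) h5
        unfold ht
        congr 1
        · exact Equiv.sum_comp A.equivFin.symm (fun y : A => ((f (τ y) : ℕ) : ℤ))
        · exact Equiv.sum_comp A.equivFin.symm (fun y : A => ((g y : ℕ) : ℤ))
  · have e0 : Finset.univ.filter (fun τ : Equiv.Perm (Fin s) =>
        First u v i j f g τ (i0, j0) ∧ cells u f g i0 j0 τ = A) = ∅ := by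
      rw [Finset.filter_eq_empty_iff]
      intro τ _ hτ
      obtain ⟨hF, hA⟩ := hτ
      refine hst ⟨hF.1.1, hF.1.2.1, hF.1.2.2.1, ?_⟩
      have := hF.1.2.2.2
      simp only at this
      rw [← card_cells, hA] at this
      exact this
    rw [e0, Finset.sum_empty]
    exact K.zero_mem

end sums

end E1

open E1 in
theorem star_sub_mem (K : Ideal (MvPolynomial (Free u) ℂ)) (i j : Fin n) (h : ℤ)
    (H : ∀ i' j' : Fin n, i ≤ i' → j' ≤ j → (i' ≠ i ∨ j' ≠ j) → ∀ (s : ℕ) (f g : Fin s → Fin n),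
      (∀ x, i' ≤ u (f x)) → (∀ y, g y ≤ j') → rk v i' j' < s → ht f g ≤ h →
      Dstar u v i' j' f g ∈ K)
    {s : ℕ} (f g : Fin s → Fin n) (hf : ∀ x, i ≤ u (f x)) (hg : ∀ y, g y ≤ j)
    (hh : ht f g ≤ h) : Dm u f g - Dstar u v i j f g ∈ K := by
  classical
  have e1 : Dm u f g = ∑ τ : Equiv.Perm (Fin s), FF u f g τ := by
    unfold Dm FF
    rw [Matrix.det_apply]
    rfl
  have e2 : Dstar u v i j f g =
      ∑ τ ∈ Finset.univ.filter (Star u v i j f g), FF u f g τ := by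
    unfold Dstar FF
    refine Finset.sum_congr ?_ fun _ _ => rfl
    ext τ
    simp only [Finset.mem_filter]
  have e3 : Dm u f g - Dstar u v i j f g =
      ∑ τ ∈ Finset.univ.filter (fun τ => ¬ Star u v i j f g τ), FF u f g τ := by
    rw [e1, e2, ← Finset.sum_filter_add_sum_filter_not Finset.univ (Star u v i j f g)]
    ring
  have e4 : ∑ τ ∈ Finset.univ.filter (fun τ => ¬ Star u v i j f g τ), FF u f g τ =
      ∑ p : Fin n × Fin n, ∑ A : Finset (Fin s),
        ∑ τ ∈ Finset.univ.filter (fun τ : Equiv.Perm (Fin s) =>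
          First u v i j f g τ p ∧ cells u f g p.1 p.2 τ = A), FF u f g τ := by
    rw [Finset.sum_filter]
    have e5 : ∀ p : Fin n × Fin n, (∑ A : Finset (Fin s),
        ∑ τ ∈ Finset.univ.filter (fun τ : Equiv.Perm (Fin s) =>
          First u v i j f g τ p ∧ cells u f g p.1 p.2 τ = A), FF u f g τ) =
        ∑ τ : Equiv.Perm (Fin s), if First u v i j f g τ p then FF u f g τ else 0 := by
      intro p
      have e6 : ∀ A : Finset (Fin s), ∑ τ ∈ Finset.univ.filter (fun τ : Equiv.Perm (Fin s) =>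
          First u v i j f g τ p ∧ cells u f g p.1 p.2 τ = A), FF u f g τ =
          ∑ τ : Equiv.Perm (Fin s), if cells u f g p.1 p.2 τ = A then
            (if First u v i j f g τ p then FF u f g τ else 0) else 0 := by
        intro A
        rw [Finset.sum_filter]
        refine Finset.sum_congr rfl fun τ _ => ?_
        by_cases a1 : First u v i j f g τ p
        · by_cases a2 : cells u f g p.1 p.2 τ = A
          · rw [if_pos ⟨a1, a2⟩, if_pos a2, if_pos a1]
          · rw [if_neg (fun hc => a2 hc.2), if_neg a2]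
        · by_cases a2 : cells u f g p.1 p.2 τ = A
          · rw [if_neg (fun hc => a1 hc.1), if_pos a2, if_neg a1]
          · rw [if_neg (fun hc => a2 hc.2), if_neg a2]
      rw [Finset.sum_congr rfl fun A _ => e6 A, Finset.sum_comm]
      refine Finset.sum_congr rfl fun τ _ => ?_
      rw [Finset.sum_ite_eq Finset.univ (cells u f g p.1 p.2 τ), if_pos (Finset.mem_univ _)]
    rw [Finset.sum_congr rfl fun p _ => e5 p, Finset.sum_comm]
    refine Finset.sum_congr rfl fun τ _ => ?_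
    by_cases hS : Star u v i j f g τ
    · rw [if_neg (not_not.2 hS)]
      symm
      refine Finset.sum_eq_zero fun p _ => ?_
      rw [if_neg]
      intro hc
      exact not_star_of_viol hc.1 hS
    · rw [if_pos hS]
      obtain ⟨p, hp⟩ := exists_first hS
      rw [Finset.sum_eq_single p]
      · rw [if_pos hp]
      · intro q _ hq
        rw [if_neg]
        intro hc
        exact hq (hc.unique hp)
      · intro hc
        exact absurd (Finset.mem_univ _) hc
  rw [e3, e4]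
  refine K.sum_mem fun p _ => K.sum_mem fun A _ => ?_
  exact block_mem K H hh p A

end Pool.Agent.H30.KL
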