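import Pool.Agent.H30.KL.Gen.Defs

/-!
# Expansions of minors (GEN-1)

Everything is about membership in an ideal `K`, signs do not matter.  The entry `Zmat u (u b) a` is `1` if `b = a` (`entry_diag`), and if it is nonzero
then `a = b` or `a < b ∧ u a < u b` (`entry_ne_zero`).

* `InK.row`: `Matrix.det_succ_row` along the row of `x` (`f x0 = x`): the term of `g y` is `± Zmat u (u x) (g y) * Dm u (f ∘ x0.succAbove) (g ∘ y.succAbove)`,
  it is `0` unless `g y = x` or `g y < x`, `u (g y) < u x`; `image (f ∘ x0.succAbove) = F.erase x` for injective `f`.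
* `InK.col`: the same with `det_succ_column`.
* `InK.add`: expand `Dm u (Fin.cons x f) (Fin.cons x g)` along row `0`: the term of column `0` is `Dm u f g`, the others are in `K`.
  `InK.add'`: the same along column `0`.
* `InK.repc`: `x = g y0` is a column but not a row.  `Dm u (Fin.cons x f) (Fin.cons x g) = 0` (two equal columns, `det_zero_of_column_eq`), expand
  along column `0`: `Dm u f g` plus terms `± Zmat u (u (f z)) x * Dm u ((Fin.cons x f) ∘ z.succ.succAbove) g`.
* `InK.repr`: the same with rows.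
* `low_rows`: the rows outside of the box are removed one by one with `InK.row` (induction on their number), `low_cols` the same with columns.
-/

open MvPolynomial Matrix

namespace Pool.Agent.H30.KL

variable {n : ℕ} {u v : Equiv.Perm (Fin n)} {K : Ideal (MvPolynomial (Free u) ℂ)}

theorem Dm_eq_zero_of_ht {s : ℕ} (f g : Fin s → Fin n) (h : ht f g < 0) : Dm u f g = 0 := by
  rw [Dm, Matrix.det_apply]
  refine Finset.sum_eq_zero fun τ _ => ?_
  by_cases h0 : ∃ y, Zmat u (u (f (τ y))) (g y) = 0
  · obtain ⟨y, hy⟩ := h0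
    have h1 : (∏ i, ((Zmat u).submatrix (fun x => u (f x)) g) (τ i) i) = 0 :=
      Finset.prod_eq_zero (Finset.mem_univ y) (by rw [Matrix.submatrix_apply]; exact hy)
    rw [h1, smul_zero]
  · exfalso
    push Not at h0
    have h1 : ∑ y, ((g y : ℕ) : ℤ) ≤ ∑ y, ((f (τ y) : ℕ) : ℤ) := by
      refine Finset.sum_le_sum fun y _ => ?_
      rcases entry_ne_zero (h0 y) with h2 | h2
      · rw [h2]
      · have h3 := h2.1
        rw [Fin.lt_def] at h3
        omega
    have h2 : ∑ y, ((f (τ y) : ℕ) : ℤ) = ∑ y, ((f y : ℕ) : ℤ) :=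
      Equiv.sum_comp τ fun y => ((f y : ℕ) : ℤ)
    rw [ht] at h
    omega

theorem ht_eq_hs {s : ℕ} {f g : Fin s → Fin n} (hf : Function.Injective f)
    (hg : Function.Injective g) : ht f g = hs (Finset.univ.image f) (Finset.univ.image g) := by
  rw [ht, hs, Finset.sum_image (fun a _ b _ h => hf h), Finset.sum_image (fun a _ b _ h => hg h)]

theorem Dm_eq_zero_of_not_inj {s : ℕ} {f g : Fin s → Fin n}
    (h : ¬ (Function.Injective f ∧ Function.Injective g)) : Dm u f g = 0 := by
  rw [not_and_or] at h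
  rcases h with h | h
  · rw [Function.Injective] at h
    push Not at h
    obtain ⟨a, b, h1, h2⟩ := h
    exact Matrix.det_zero_of_row_eq h2 (by
      funext y
      rw [Matrix.submatrix_apply, Matrix.submatrix_apply, h1])
  · rw [Function.Injective] at h
    push Not at h
    obtain ⟨a, b, h1, h2⟩ := h
    exact Matrix.det_zero_of_column_eq h2 (fun y => by
      rw [Matrix.submatrix_apply, Matrix.submatrix_apply, h1])

theorem inK_of_hs_neg {F G : Finset (Fin n)} (h : hs F G < 0) : InK u K F G := by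
  intro s f g hf hg hF hG
  rw [Dm_eq_zero_of_ht f g (by rw [ht_eq_hs hf hg, hF, hG]; exact h)]
  exact Ideal.zero_mem _

theorem inK_of_card_ne {F G : Finset (Fin n)} (h : F.card ≠ G.card) : InK u K F G := by
  intro s f g hf hg hF hG
  exfalso
  apply h
  rw [← hF, ← hG, Finset.card_image_of_injective _ hf, Finset.card_image_of_injective _ hg]

theorem Exp_erase {m : ℕ} {f : Fin (m + 1) → Fin n} (hf : Function.Injective f)
    (x : Fin (m + 1)) :
    Finset.univ.image (f ∘ x.succAbove) = (Finset.univ.image f).erase (f x) := by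
  ext a
  rw [Finset.mem_erase, Finset.mem_image, Finset.mem_image]
  constructor
  · rintro ⟨y, -, rfl⟩
    exact ⟨fun h => Fin.succAbove_ne x y (hf h), _, Finset.mem_univ _, rfl⟩
  · rintro ⟨h, y, -, rfl⟩
    have h1 : y ≠ x := fun h2 => h (by rw [h2])
    obtain ⟨z, hz⟩ := Fin.exists_succAbove_eq h1
    exact ⟨z, Finset.mem_univ _, by rw [Function.comp_apply, hz]⟩

theorem InK.row {F G : Finset (Fin n)} {x : Fin n} (hx : x ∈ F)
    (h1 : x ∈ G → InK u K (F.erase x) (G.erase x))
    (h2 : ∀ a ∈ G, a < x → u a < u x → InK u K (F.erase x) (G.erase a)) : InK u K F G := by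
  intro s f g hf hg hF hG
  have hx' : x ∈ Finset.univ.image f := by rw [hF]; exact hx
  obtain ⟨x0, -, hx0⟩ := Finset.mem_image.1 hx'
  cases s with
  | zero => exact x0.elim0
  | succ m =>
    rw [Dm, Matrix.det_succ_row _ x0]
    refine Ideal.sum_mem _ fun y _ => ?_
    rw [Matrix.submatrix_apply, hx0]
    by_cases h0 : Zmat u (u x) (g y) = 0
    · rw [h0, mul_zero, zero_mul]
      exact Ideal.zero_mem _
    · apply Ideal.mul_mem_left
      have hf' : Function.Injective (f ∘ x0.succAbove) := hf.comp Fin.succAbove_right_injective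
      have hg' : Function.Injective (g ∘ y.succAbove) := hg.comp Fin.succAbove_right_injective
      have hF' : Finset.univ.image (f ∘ x0.succAbove) = F.erase x := by
        rw [Exp_erase hf, hF, hx0]
      have hG' : Finset.univ.image (g ∘ y.succAbove) = G.erase (g y) := by
        rw [Exp_erase hg, hG]
      have hgy : g y ∈ G := by
        rw [← hG]
        exact Finset.mem_image_of_mem g (Finset.mem_univ y)
      rcases entry_ne_zero h0 with h3 | h3
      · have h4 := h1 (h3 ▸ hgy) m _ _ hf' hg' hF' (by rw [hG', h3])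
        exact h4
      · have h4 := h2 (g y) hgy h3.1 h3.2 m _ _ hf' hg' hF' hG'
        exact h4

theorem InK.col {F G : Finset (Fin n)} {x : Fin n} (hx : x ∈ G)
    (h1 : x ∈ F → InK u K (F.erase x) (G.erase x))
    (h2 : ∀ b ∈ F, x < b → u x < u b → InK u K (F.erase b) (G.erase x)) : InK u K F G := by
  intro s f g hf hg hF hG
  have hx' : x ∈ Finset.univ.image g := by rw [hG]; exact hx
  obtain ⟨x0, -, hx0⟩ := Finset.mem_image.1 hx'
  cases s with
  | zero => exact x0.elim0
  | succ m =>
    rw [Dm, Matrix.det_succ_column _ x0]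
    refine Ideal.sum_mem _ fun y _ => ?_
    rw [Matrix.submatrix_apply, hx0]
    by_cases h0 : Zmat u (u (f y)) x = 0
    · rw [h0, mul_zero, zero_mul]
      exact Ideal.zero_mem _
    · apply Ideal.mul_mem_left
      have hf' : Function.Injective (f ∘ y.succAbove) := hf.comp Fin.succAbove_right_injective
      have hg' : Function.Injective (g ∘ x0.succAbove) := hg.comp Fin.succAbove_right_injective
      have hF' : Finset.univ.image (f ∘ y.succAbove) = F.erase (f y) := by
        rw [Exp_erase hf, hF]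
      have hG' : Finset.univ.image (g ∘ x0.succAbove) = G.erase x := by
        rw [Exp_erase hg, hG, hx0]
      have hfy : f y ∈ F := by
        rw [← hF]
        exact Finset.mem_image_of_mem f (Finset.mem_univ y)
      rcases entry_ne_zero h0 with h3 | h3
      · have h4 := h1 (h3 ▸ hfy) m _ _ hf' hg' (by rw [hF', ← h3]) hG'
        exact h4
      · have h4 := h2 (f y) hfy h3.1 h3.2 m _ _ hf' hg' hF' hG'
        exact h4

theorem Exp_cons_inj {s : ℕ} {f : Fin s → Fin n} (hf : Function.Injective f) {x : Fin n}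
    (hx : x ∉ Finset.univ.image f) : Function.Injective (Fin.cons x f : Fin (s + 1) → Fin n) := by
  rw [Fin.cons_injective_iff]
  refine ⟨?_, hf⟩
  rintro ⟨y, hy⟩
  exact hx (Finset.mem_image.2 ⟨y, Finset.mem_univ _, hy⟩)

theorem Exp_cons_image {s : ℕ} (f : Fin s → Fin n) (x : Fin n) :
    Finset.univ.image (Fin.cons x f : Fin (s + 1) → Fin n) = insert x (Finset.univ.image f) := by
  ext a
  rw [Finset.mem_insert, Finset.mem_image, Finset.mem_image]
  constructor
  · rintro ⟨y, -, rfl⟩
    refine Fin.cases ?_ (fun z => ?_) y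
    · left
      rfl
    · right
      exact ⟨z, Finset.mem_univ _, rfl⟩
  · rintro (rfl | ⟨y, -, rfl⟩)
    · exact ⟨0, Finset.mem_univ _, rfl⟩
    · exact ⟨y.succ, Finset.mem_univ _, rfl⟩

/-- expansion along row `0` -/
theorem Exp_row0 {s : ℕ} (f g : Fin s → Fin n) (x : Fin n) :
    Dm u (Fin.cons x f : Fin (s + 1) → Fin n) (Fin.cons x g : Fin (s + 1) → Fin n) =
      Dm u f g + ∑ y : Fin s, (-1) ^ ((0 : Fin (s + 1)) + y.succ : ℕ) * Zmat u (u x) (g y) *
        Dm u f ((Fin.cons x g : Fin (s + 1) → Fin n) ∘ y.succ.succAbove) := by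
  rw [Dm, Matrix.det_succ_row _ 0, Fin.sum_univ_succ]
  congr 1
  · rw [Matrix.submatrix_apply]
    have h1 : Zmat u (u ((Fin.cons x f : Fin (s + 1) → Fin n) 0))
        ((Fin.cons x g : Fin (s + 1) → Fin n) 0) = 1 := entry_diag u x
    rw [h1]
    simp only [Fin.val_zero, add_zero, pow_zero, one_mul]
    rfl

/-- expansion along column `0` -/
theorem Exp_col0 {s : ℕ} (f g : Fin s → Fin n) (x : Fin n) :
    Dm u (Fin.cons x f : Fin (s + 1) → Fin n) (Fin.cons x g : Fin (s + 1) → Fin n) =
      Dm u f g + ∑ y : Fin s, (-1) ^ (y.succ + (0 : Fin (s + 1)) : ℕ) * Zmat u (u (f y)) x *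
        Dm u ((Fin.cons x f : Fin (s + 1) → Fin n) ∘ y.succ.succAbove) g := by
  rw [Dm, Matrix.det_succ_column _ 0, Fin.sum_univ_succ]
  congr 1
  · rw [Matrix.submatrix_apply]
    have h1 : Zmat u (u ((Fin.cons x f : Fin (s + 1) → Fin n) 0))
        ((Fin.cons x g : Fin (s + 1) → Fin n) 0) = 1 := entry_diag u x
    rw [h1]
    simp only [Fin.val_zero, add_zero, pow_zero, one_mul]
    rfl

theorem Exp_cons_erase {s : ℕ} {f : Fin s → Fin n} {x : Fin n}
    (hf : Function.Injective (Fin.cons x f : Fin (s + 1) → Fin n)) (y : Fin s) :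
    Finset.univ.image ((Fin.cons x f : Fin (s + 1) → Fin n) ∘ y.succ.succAbove) =
      (insert x (Finset.univ.image f)).erase (f y) := by
  rw [Exp_erase hf, Exp_cons_image]
  rfl

/-- the terms of the expansion along row `0` -/
theorem Exp_row_mem {F G : Finset (Fin n)} {x : Fin n} (hG : x ∉ G)
    (h : ∀ a ∈ G, a < x → u a < u x → InK u K F ((insert x G).erase a)) {s : ℕ}
    {f g : Fin s → Fin n} (hf : Function.Injective f) (hg : Function.Injective g)
    (hF' : Finset.univ.image f = F) (hG' : Finset.univ.image g = G) :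
    ∑ y : Fin s, (-1) ^ ((0 : Fin (s + 1)) + y.succ : ℕ) * Zmat u (u x) (g y) *
        Dm u f ((Fin.cons x g : Fin (s + 1) → Fin n) ∘ y.succ.succAbove) ∈ K := by
  refine Ideal.sum_mem _ fun y _ => ?_
  have hgy : g y ∈ G := by
    rw [← hG']
    exact Finset.mem_image_of_mem g (Finset.mem_univ y)
  by_cases h0 : Zmat u (u x) (g y) = 0
  · rw [h0, mul_zero, zero_mul]
    exact Ideal.zero_mem _
  · apply Ideal.mul_mem_left
    rcases entry_ne_zero h0 with h3 | h3
    · exact absurd (h3 ▸ hgy) hG
    · have hi := Exp_cons_inj hg (x := x) (by rw [hG']; exact hG)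
      exact h (g y) hgy h3.1 h3.2 s _ _ hf (hi.comp Fin.succAbove_right_injective) hF'
        (by rw [Exp_cons_erase hi, hG'])

/-- the terms of the expansion along column `0` -/
theorem Exp_col_mem {F G : Finset (Fin n)} {x : Fin n} (hF : x ∉ F)
    (h : ∀ b ∈ F, x < b → u x < u b → InK u K ((insert x F).erase b) G) {s : ℕ}
    {f g : Fin s → Fin n} (hf : Function.Injective f) (hg : Function.Injective g)
    (hF' : Finset.univ.image f = F) (hG' : Finset.univ.image g = G) :
    ∑ y : Fin s, (-1) ^ (y.succ + (0 : Fin (s + 1)) : ℕ) * Zmat u (u (f y)) x *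
        Dm u ((Fin.cons x f : Fin (s + 1) → Fin n) ∘ y.succ.succAbove) g ∈ K := by
  refine Ideal.sum_mem _ fun y _ => ?_
  have hfy : f y ∈ F := by
    rw [← hF']
    exact Finset.mem_image_of_mem f (Finset.mem_univ y)
  by_cases h0 : Zmat u (u (f y)) x = 0
  · rw [h0, mul_zero, zero_mul]
    exact Ideal.zero_mem _
  · apply Ideal.mul_mem_left
    rcases entry_ne_zero h0 with h3 | h3
    · exact absurd (h3.symm ▸ hfy) hF
    · have hi := Exp_cons_inj hf (x := x) (by rw [hF']; exact hF)
      exact h (f y) hfy h3.1 h3.2 s _ _ (hi.comp Fin.succAbove_right_injective) hg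
        (by rw [Exp_cons_erase hi, hF']) hG'

theorem InK.add {F G : Finset (Fin n)} {x : Fin n} (hF : x ∉ F) (hG : x ∉ G)
    (h1 : InK u K (insert x F) (insert x G))
    (h2 : ∀ a ∈ G, a < x → u a < u x → InK u K F ((insert x G).erase a)) : InK u K F G := by
  intro s f g hf hg hF' hG'
  have h3 : Dm u (Fin.cons x f : Fin (s + 1) → Fin n) (Fin.cons x g : Fin (s + 1) → Fin n) ∈ K :=
    h1 (s + 1) _ _ (Exp_cons_inj hf (by rw [hF']; exact hF))
      (Exp_cons_inj hg (by rw [hG']; exact hG)) (by rw [Exp_cons_image, hF'])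
      (by rw [Exp_cons_image, hG'])
  rw [Exp_row0] at h3
  exact (Ideal.add_mem_iff_left _ (Exp_row_mem hG h2 hf hg hF' hG')).1 h3

theorem InK.add' {F G : Finset (Fin n)} {x : Fin n} (hF : x ∉ F) (hG : x ∉ G)
    (h1 : InK u K (insert x F) (insert x G))
    (h2 : ∀ b ∈ F, x < b → u x < u b → InK u K ((insert x F).erase b) G) : InK u K F G := by
  intro s f g hf hg hF' hG'
  have h3 : Dm u (Fin.cons x f : Fin (s + 1) → Fin n) (Fin.cons x g : Fin (s + 1) → Fin n) ∈ K :=
    h1 (s + 1) _ _ (Exp_cons_inj hf (by rw [hF']; exact hF))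
      (Exp_cons_inj hg (by rw [hG']; exact hG)) (by rw [Exp_cons_image, hF'])
      (by rw [Exp_cons_image, hG'])
  rw [Exp_col0] at h3
  exact (Ideal.add_mem_iff_left _ (Exp_col_mem hF h2 hf hg hF' hG')).1 h3

theorem InK.repc {F G : Finset (Fin n)} {x : Fin n} (hF : x ∉ F) (hG : x ∈ G)
    (h : ∀ b ∈ F, x < b → u x < u b → InK u K ((insert x F).erase b) G) : InK u K F G := by
  intro s f g hf hg hF' hG'
  have h3 : Dm u (Fin.cons x f : Fin (s + 1) → Fin n) (Fin.cons x g : Fin (s + 1) → Fin n) ∈ K := by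
    rw [Dm_eq_zero_of_not_inj]
    · exact Ideal.zero_mem _
    · rintro ⟨-, h4⟩
      rw [Fin.cons_injective_iff] at h4
      rw [← hG'] at hG
      obtain ⟨y, -, hy⟩ := Finset.mem_image.1 hG
      exact h4.1 ⟨y, hy⟩
  rw [Exp_col0] at h3
  exact (Ideal.add_mem_iff_left _ (Exp_col_mem hF h hf hg hF' hG')).1 h3

theorem InK.repr {F G : Finset (Fin n)} {x : Fin n} (hF : x ∈ F) (hG : x ∉ G)
    (h : ∀ a ∈ G, a < x → u a < u x → InK u K F ((insert x G).erase a)) : InK u K F G := by
  intro s f g hf hg hF' hG'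
  have h3 : Dm u (Fin.cons x f : Fin (s + 1) → Fin n) (Fin.cons x g : Fin (s + 1) → Fin n) ∈ K := by
    rw [Dm_eq_zero_of_not_inj]
    · exact Ideal.zero_mem _
    · rintro ⟨h4, -⟩
      rw [Fin.cons_injective_iff] at h4
      rw [← hF'] at hF
      obtain ⟨y, -, hy⟩ := Finset.mem_image.1 hF
      exact h4.1 ⟨y, hy⟩
  rw [Exp_row0] at h3
  exact (Ideal.add_mem_iff_left _ (Exp_row_mem hG h hf hg hF' hG')).1 h3

/-- it is enough to know the minors for injective enumerations -/
theorem low_mem {h : ℤ} (hL : Low u v K h) {i j : Fin n} {s : ℕ} (f g : Fin s → Fin n)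
    (hf : ∀ x, i ≤ u (f x)) (hg : ∀ y, g y ≤ j) (hs' : rk v i j < s) (hh : ht f g < h) :
    Dm u f g ∈ K := by
  by_cases hi : Function.Injective f ∧ Function.Injective g
  · refine hL i j (Finset.univ.image f) (Finset.univ.image g) ?_ ?_ ?_ ?_ s f g hi.1 hi.2 rfl rfl
    · intro x hx
      obtain ⟨y, -, rfl⟩ := Finset.mem_image.1 hx
      exact hf y
    · intro x hx
      obtain ⟨y, -, rfl⟩ := Finset.mem_image.1 hx
      exact hg y
    · rw [Finset.card_image_of_injective _ hi.1, Finset.card_univ, Fintype.card_fin]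
      exact hs'
    · rw [← ht_eq_hs hi.1 hi.2]
      exact hh
  · rw [Dm_eq_zero_of_not_inj hi]
    exact Ideal.zero_mem _

theorem Exp_sum_erase {F : Finset (Fin n)} {x : Fin n} (hx : x ∈ F) :
    ∑ y ∈ F.erase x, ((y : ℕ) : ℤ) = ∑ y ∈ F, ((y : ℕ) : ℤ) - ((x : ℕ) : ℤ) := by
  have h := Finset.add_sum_erase F (fun y => ((y : ℕ) : ℤ)) hx
  omega

theorem Exp_hs_erase {F G : Finset (Fin n)} {x a : Fin n} (hx : x ∈ F) (ha : a ∈ G) :
    hs (F.erase x) (G.erase a) = hs F G - ((x : ℕ) : ℤ) + ((a : ℕ) : ℤ) := by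
  rw [hs, hs, Exp_sum_erase hx, Exp_sum_erase ha]
  ring

theorem low_rows {h : ℤ} (hL : Low u v K h) {i j : Fin n} {F G : Finset (Fin n)}
    (hF : rk v i j < (F.filter fun x => i ≤ u x).card) (hG : ∀ y ∈ G, y ≤ j) (hh : hs F G < h) :
    InK u K F G := by
  induction hN : (F.filter fun x => ¬ i ≤ u x).card generalizing F G with
  | zero =>
    have h1 : ∀ x ∈ F, i ≤ u x := by
      intro x hx
      by_contra h2
      have h3 : x ∈ F.filter fun x => ¬ i ≤ u x := Finset.mem_filter.2 ⟨hx, h2⟩
      rw [Finset.card_eq_zero] at hN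
      rw [hN] at h3
      exact absurd h3 (Finset.notMem_empty x)
    refine hL i j F G h1 hG ?_ hh
    rwa [Finset.filter_true_of_mem h1] at hF
  | succ N ih =>
    obtain ⟨x, hx⟩ : (F.filter fun x => ¬ i ≤ u x).Nonempty := by
      rw [← Finset.card_pos, hN]
      exact Nat.succ_pos N
    have hx' := Finset.mem_filter.1 hx
    have e1 : (F.erase x).filter (fun x => i ≤ u x) = F.filter fun x => i ≤ u x := by
      rw [Finset.filter_erase, Finset.erase_eq_of_notMem]
      intro h
      exact hx'.2 (Finset.mem_filter.1 h).2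
    have e2 : ((F.erase x).filter fun x => ¬ i ≤ u x).card = N := by
      rw [Finset.filter_erase, Finset.card_erase_of_mem hx, hN]
      rfl
    refine InK.row hx'.1 (fun hxG => ?_) (fun a ha hax _ => ?_)
    · refine ih (by rw [e1]; exact hF) (fun y hy => hG y (Finset.mem_of_mem_erase hy)) ?_ e2
      rw [Exp_hs_erase hx'.1 hxG]
      omega
    · refine ih (by rw [e1]; exact hF) (fun y hy => hG y (Finset.mem_of_mem_erase hy)) ?_ e2
      rw [Exp_hs_erase hx'.1 ha]
      rw [Fin.lt_def] at hax
      omega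

theorem low_cols {h : ℤ} (hL : Low u v K h) {i j : Fin n} {F G : Finset (Fin n)}
    (hF : ∀ x ∈ F, i ≤ u x) (hG : rk v i j < (G.filter fun y => y ≤ j).card) (hh : hs F G < h) :
    InK u K F G := by
  induction hN : (G.filter fun y => ¬ y ≤ j).card generalizing F G with
  | zero =>
    have h1 : ∀ y ∈ G, y ≤ j := by
      intro x hx
      by_contra h2
      have h3 : x ∈ G.filter fun y => ¬ y ≤ j := Finset.mem_filter.2 ⟨hx, h2⟩
      rw [Finset.card_eq_zero] at hN
      rw [hN] at h3
      exact absurd h3 (Finset.notMem_empty x)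
    rw [Finset.filter_true_of_mem h1] at hG
    by_cases hc : F.card = G.card
    · exact hL i j F G hF h1 (by rw [hc]; exact hG) hh
    · exact inK_of_card_ne hc
  | succ N ih =>
    obtain ⟨x, hx⟩ : (G.filter fun y => ¬ y ≤ j).Nonempty := by
      rw [← Finset.card_pos, hN]
      exact Nat.succ_pos N
    have hx' := Finset.mem_filter.1 hx
    have e1 : (G.erase x).filter (fun y => y ≤ j) = G.filter fun y => y ≤ j := by
      rw [Finset.filter_erase, Finset.erase_eq_of_notMem]
      intro h
      exact hx'.2 (Finset.mem_filter.1 h).2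
    have e2 : ((G.erase x).filter fun y => ¬ y ≤ j).card = N := by
      rw [Finset.filter_erase, Finset.card_erase_of_mem hx, hN]
      rfl
    refine InK.col hx'.1 (fun hxF => ?_) (fun b hb hbx _ => ?_)
    · refine ih (fun y hy => hF y (Finset.mem_of_mem_erase hy)) (by rw [e1]; exact hG) ?_ e2
      rw [Exp_hs_erase hxF hx'.1]
      omega
    · refine ih (fun y hy => hF y (Finset.mem_of_mem_erase hy)) (by rw [e1]; exact hG) ?_ e2
      rw [Exp_hs_erase hb hx'.1]
      rw [Fin.lt_def] at hbx
      omega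

end Pool.Agent.H30.KL
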