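import Pool.Agent.H30.KL.Cov.S2

/-!
# Increasing permutations (GEN-6)

`b k` is the largest element of the cycle of `k` under `π`; all the other elements of a cycle are steps up (`k < π k`, `u k < u (π k)`).

* `Inc.top`: `b (b k) = b k`.  `O = {x | b x = b k}` is stable under `π`.  If `b k ∉ O` then every `x ∈ O` has `x ≠ b x`, so `x < π x ∈ O`; take the largest `x ∈ O`.
* `Inc.split`: `t = b k0`, `O = {x | b x = t}`, `O' = {x ∈ O | k0 < x}`; `t ∈ O'`.  `π` maps `(O' \ {t}) ∪ {k0}` into `O'`, injectively, and the cardinalities are equal, so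
  every other element of `O` (those `< k0`, and `t`) is mapped to an element `≤ k0`.  The new `b' x = if b x = t ∧ x ≤ k0 then k0 else b x`; `π * swap k0 t` maps `k0 ↦ π t ≤ k0`, `t ↦ π k0 > k0`,
  `x ↦ π x` otherwise.
* `Inc.count`: `M = {k | b k ≤ j'}` is stable under `π` and `π⁻¹` (`b (π k) = b k`).  `a ∈ G`, `a ∉ M`: `a ≤ j' < b a`, so `a` is a step up and `u (π a) ≥ i'` (if `τ a = a` because `u a < u (π a)`).  `a ∈ G ∩ M`: `τ` maps
  `G ∩ M` injectively into `{x ∈ M | i' ≤ u x}`, which has the same cardinality as `{k ∈ M | i' ≤ u (π k)}`; and `k ∈ M` implies `k ≤ j'`.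
* `Good.count`: `Inc.split`, `Inc.count` for `π * swap k0 (b k0)` and the rank condition of `Good`.
* `Good.used`: suppose `k0` is a step up but not (`k0 ≤ j'` and `i' ≤ u (π k0)`).  Take `G = {k ∉ M | k ≤ j', i' ≤ u (π k)} ∪ {x ∈ M | i' ≤ u x}` (`M = {k | b k ≤ j'}`), `τ = π` on the first
  part, `τ = id` on the second: `G.card = rk (u * π) i' j'` (see `Inc.count`), `τ` is injective on `G` (`π` maps the complement of `M` to itself), `k0` is not used; contradiction with `Good.count`.
* `Good.shape`: (1) `u c < i'` for a bottom `c`: otherwise use `τ' c = c` instead of `τ c = π c` in `Good.count` with `k0 = c` (`c` is not hit by another element: the preimage of `c` is a top). (2) `j' < r` for a moved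
  top `r`: otherwise replace `k0 = π⁻¹ r ∈ G` (`τ k0 = r`) by `r ∈ G'`, `τ' r = r` (`r ∉ G` by injectivity). (3) `k ≤ j'`, `i' ≤ u k` implies `k ∈ G` and `k ∈ τ '' G`: if `k` is in neither, add it (`τ' k = k`) and remove some step
  up `k0`; the cardinality is still `G.card`. If `k ∈ τ '' G` but `k ∉ G` then `k = π a` with `a` a step up; `k` is not a step up (these are all in `G`), so `k` is a moved top, `j' < k`. If `k ∈ G` but `k ∉ τ '' G` then `k` is a step up
  and it is a bottom (its preimage is not a step up), `u k < i'`.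
-/

namespace Pool.Agent.H30.KL

variable {n : ℕ}

/-- `b` is the largest element of the cycle; every other element of a cycle is a step up -/
structure Inc (u π : Equiv.Perm (Fin n)) (b : Fin n → Fin n) : Prop where
  inv : ∀ k, b (π k) = b k
  le : ∀ k, k ≤ b k
  up : ∀ k, k ≠ b k → k < π k ∧ u k < u (π k)

/-- `u π` minus one step is below `v` -/
structure Good (u v π : Equiv.Perm (Fin n)) (b : Fin n → Fin n) : Prop where
  inc : Inc u π b
  cut : ∀ k, k ≠ b k → BruhatLE (u * (π * Equiv.swap k (b k))) v

theorem Inc.top {u π : Equiv.Perm (Fin n)} {b : Fin n → Fin n} (h : Inc u π b) (k : Fin n) :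
    b (b k) = b k := by
  by_contra hne
  have hO : (Finset.univ.filter fun x => b x = b k).Nonempty := ⟨k, by simp⟩
  set m := (Finset.univ.filter fun x => b x = b k).max' hO with hm
  have hmO : b m = b k := by
    have := Finset.max'_mem _ hO
    rw [← hm] at this
    simpa using this
  have hmb : m ≠ b m := by
    intro h1
    apply hne
    rw [← hmO, ← h1]
    exact h1.symm
  have h2 := (h.up m hmb).1
  have h3 : π m ≤ m := by
    rw [hm]
    apply Finset.le_max'
    rw [← hm]
    simp only [Finset.mem_filter, Finset.mem_univ, true_and]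
    rw [h.inv, hmO]
  exact absurd h2 (not_lt.2 h3)

/-- `k` is a step up iff it is not the top of its cycle -/
theorem Inc.lt_iff {u π : Equiv.Perm (Fin n)} {b : Fin n → Fin n} (h : Inc u π b) (k : Fin n) :
    k < π k ↔ k ≠ b k := by
  constructor
  · intro h1 h2
    have h3 := h.le (π k)
    rw [h.inv, ← h2] at h3
    exact absurd h1 (not_lt.2 h3)
  · intro h1
    exact (h.up k h1).1

theorem Inc.split {u π : Equiv.Perm (Fin n)} {b : Fin n → Fin n} (h : Inc u π b) {k0 : Fin n}
    (hk : k0 ≠ b k0) :
    Inc u (π * Equiv.swap k0 (b k0)) (fun x => if b x = b k0 ∧ x ≤ k0 then k0 else b x) := by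
  classical
  set t := b k0 with ht
  have hbt : b t = t := by rw [ht]; exact h.top k0
  have hkt : k0 < t := lt_of_le_of_ne (h.le k0) hk
  set O' := Finset.univ.filter fun x => b x = t ∧ k0 < x with hO'
  have htO : t ∈ O' := by simp [hO', hbt, hkt]
  have hkO : k0 ∉ O'.erase t := by simp [hO']
  have himg : (insert k0 (O'.erase t)).image π = O' := by
    apply Finset.eq_of_subset_of_card_le
    · intro y hy
      rw [Finset.mem_image] at hy
      obtain ⟨x, hx, rfl⟩ := hy
      rw [Finset.mem_insert] at hx
      simp only [hO', Finset.mem_filter, Finset.mem_univ, true_and, h.inv]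
      rcases hx with hx | hx
      · rw [hx]
        exact ⟨rfl, (h.up k0 hk).1⟩
      · simp only [hO', Finset.mem_erase, Finset.mem_filter, Finset.mem_univ, true_and] at hx
        refine ⟨hx.2.1, hx.2.2.trans (h.up x ?_).1⟩
        rw [hx.2.1]
        exact hx.1
    · rw [Finset.card_image_of_injective _ π.injective, Finset.card_insert_of_notMem hkO,
        Finset.card_erase_of_mem htO]
      omega
  have hlow : ∀ x, b x = t → x ≠ k0 → (x < k0 ∨ x = t) → π x ≤ k0 := by
    intro x hx1 hx2 hx3
    by_contra hcon
    rw [not_le] at hcon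
    have h1 : π x ∈ O' := by simp [hO', h.inv, hx1, hcon]
    rw [← himg, Finset.mem_image] at h1
    obtain ⟨y, hy1, hy2⟩ := h1
    have hxy := π.injective hy2
    rw [hxy, Finset.mem_insert] at hy1
    rcases hy1 with h2 | h2
    · exact hx2 h2
    · simp only [hO', Finset.mem_erase, Finset.mem_filter, Finset.mem_univ, true_and] at h2
      rcases hx3 with h3 | h3
      · exact absurd h2.2.2 (not_lt.2 h3.le)
      · exact h2.1 h3
  have hp1 : (π * Equiv.swap k0 t) k0 = π t := by simp
  have hp2 : (π * Equiv.swap k0 t) t = π k0 := by simp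
  have hp3 : ∀ x, x ≠ k0 → x ≠ t → (π * Equiv.swap k0 t) x = π x := by
    intro x h1 h2
    rw [Equiv.Perm.mul_apply, Equiv.swap_apply_of_ne_of_ne h1 h2]
  have hnt : ¬ t ≤ k0 := not_le.2 hkt
  refine ⟨?_, ?_, ?_⟩
  · intro x
    by_cases hx1 : x = k0
    · subst hx1
      rw [hp1]
      have h1 := hlow t hbt hk.symm (Or.inr rfl)
      simp [h.inv, hbt, h1, ← ht]
    by_cases hx2 : x = t
    · rw [hx2, hp2]
      have h1 := not_le.2 (h.up k0 hk).1
      simp [h.inv, hbt, h1, hnt, ← ht]
    rw [hp3 x hx1 hx2]
    by_cases hx3 : b x = t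
    · rcases lt_or_gt_of_ne hx1 with h1 | h1
      · have h2 := hlow x hx3 hx1 (Or.inl h1)
        simp [h.inv, hx3, h2, h1.le]
      · have h2 : k0 < π x := h1.trans (h.up x (by rw [hx3]; exact hx2)).1
        simp [h.inv, hx3, not_le.2 h1, not_le.2 h2]
    · simp [h.inv, hx3]
  · intro x
    by_cases hx : b x = t ∧ x ≤ k0
    · simp [hx]
    · simp only [hx, if_false]
      exact h.le x
  · intro x hx
    by_cases hx1 : x = k0
    · subst hx1
      exact absurd (by simp [← ht]) hx
    by_cases hx2 : x = t
    · exact absurd (by simp [hx2, hbt, hnt]) hx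
    rw [hp3 x hx1 hx2]
    apply h.up
    by_cases hx3 : b x = t ∧ x ≤ k0
    · rw [hx3.1]
      exact hx2
    · simp only [hx3, if_false] at hx
      exact hx

/-- the count of the columns `k ≤ j` with `i ≤ u (π k)`, split by the set `b k ≤ j` -/
theorem Inc.rk_eq {u π : Equiv.Perm (Fin n)} {b : Fin n → Fin n} (h : Inc u π b) (i j : Fin n) :
    rk (u * π) i j = (Finset.univ.filter fun k => ¬ b k ≤ j ∧ k ≤ j ∧ i ≤ u (π k)).card +
      (Finset.univ.filter fun x => b x ≤ j ∧ i ≤ u x).card := by
  have h1 : (Finset.univ.filter fun x => b x ≤ j ∧ i ≤ u x) =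
      (Finset.univ.filter fun k => b k ≤ j ∧ i ≤ u (π k)).image π := by
    ext x
    simp only [Finset.mem_filter, Finset.mem_univ, true_and, Finset.mem_image]
    constructor
    · rintro ⟨h2, h3⟩
      refine ⟨π.symm x, ⟨?_, ?_⟩, π.apply_symm_apply x⟩
      · rw [← h.inv (π.symm x), π.apply_symm_apply]
        exact h2
      · rw [π.apply_symm_apply]
        exact h3
    · rintro ⟨k, ⟨h2, h3⟩, rfl⟩
      rw [h.inv]
      exact ⟨h2, h3⟩
  rw [h1, Finset.card_image_of_injective _ π.injective, ← Finset.card_union_of_disjoint]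
  · unfold rk
    congr 1
    ext k
    simp only [Finset.mem_filter, Finset.mem_univ, true_and, Finset.mem_union,
      Equiv.Perm.mul_apply]
    constructor
    · rintro ⟨h2, h3⟩
      by_cases h4 : b k ≤ j
      · exact Or.inr ⟨h4, h3⟩
      · exact Or.inl ⟨h4, h2, h3⟩
    · rintro (h2 | h2)
      · exact h2.2
      · exact ⟨(h.le k).trans h2.1, h2.2⟩
  · rw [Finset.disjoint_left]
    intro k h2 h3
    simp only [Finset.mem_filter, Finset.mem_univ, true_and] at h2 h3
    exact h2.1 h3.1

theorem Inc.count {u π : Equiv.Perm (Fin n)} {b : Fin n → Fin n} (h : Inc u π b) {i j : Fin n}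
    (G : Finset (Fin n)) (τ : Fin n → Fin n) (hinj : Set.InjOn τ ↑G) (hG : ∀ a ∈ G, a ≤ j)
    (hτ : ∀ a ∈ G, i ≤ u (τ a)) (hs : ∀ a ∈ G, τ a = a ∨ (a ≠ b a ∧ τ a = π a)) :
    G.card ≤ rk (u * π) i j := by
  classical
  rw [h.rk_eq, ← Finset.card_filter_add_card_filter_not (s := G) (fun a => b a ≤ j), add_comm]
  apply add_le_add
  · apply Finset.card_le_card
    intro a ha
    simp only [Finset.mem_filter, Finset.mem_univ, true_and] at ha ⊢
    refine ⟨ha.2, hG a ha.1, ?_⟩
    have h1 : a ≠ b a := by
      intro h2
      exact ha.2 (by rw [← h2]; exact hG a ha.1)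
    rcases hs a ha.1 with h2 | h2
    · have h3 := hτ a ha.1
      rw [h2] at h3
      exact h3.trans (h.up a h1).2.le
    · rw [← h2.2]
      exact hτ a ha.1
  · apply Finset.card_le_card_of_injOn τ
    · intro a ha
      simp only [Finset.coe_filter, Set.mem_ofPred_eq] at ha
      simp only [Finset.coe_filter, Finset.mem_univ, true_and, Set.mem_ofPred_eq]
      refine ⟨?_, hτ a ha.1⟩
      rcases hs a ha.1 with h2 | h2
      · rw [h2]
        exact ha.2
      · rw [h2.2, h.inv]
        exact ha.2
    · intro x hx y hy hxy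
      simp only [Finset.coe_filter, Set.mem_ofPred_eq] at hx hy
      exact hinj hx.1 hy.1 hxy

theorem Inc.exists_match {u π : Equiv.Perm (Fin n)} {b : Fin n → Fin n} (h : Inc u π b)
    (i j : Fin n) : ∃ (G : Finset (Fin n)) (τ : Fin n → Fin n), Set.InjOn τ ↑G ∧
      (∀ a ∈ G, a ≤ j) ∧ (∀ a ∈ G, i ≤ u (τ a)) ∧
      (∀ a ∈ G, τ a = a ∨ (a ≠ b a ∧ τ a = π a)) ∧ rk (u * π) i j ≤ G.card := by
  classical
  refine ⟨(Finset.univ.filter fun k => ¬ b k ≤ j ∧ k ≤ j ∧ i ≤ u (π k)) ∪
    (Finset.univ.filter fun x => b x ≤ j ∧ i ≤ u x), fun x => if b x ≤ j then x else π x,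
    ?_, ?_, ?_, ?_, ?_⟩
  · intro x _ y _ hxy
    dsimp only at hxy
    by_cases h1 : b x ≤ j <;> by_cases h2 : b y ≤ j
    · simpa [h1, h2] using hxy
    · simp only [h1, h2, if_true, if_false] at hxy
      exact absurd h1 (by rw [hxy, h.inv]; exact h2)
    · simp only [h1, h2, if_true, if_false] at hxy
      exact absurd h2 (by rw [← hxy, h.inv]; exact h1)
    · simp only [h1, h2, if_false] at hxy
      exact π.injective hxy
  · intro a ha
    simp only [Finset.mem_union, Finset.mem_filter, Finset.mem_univ, true_and] at ha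
    rcases ha with ha | ha
    · exact ha.2.1
    · exact (h.le a).trans ha.1
  · intro a ha
    simp only [Finset.mem_union, Finset.mem_filter, Finset.mem_univ, true_and] at ha
    rcases ha with ha | ha
    · simp only [ha.1, if_false]
      exact ha.2.2
    · simp only [ha.1, if_true]
      exact ha.2
  · intro a ha
    simp only [Finset.mem_union, Finset.mem_filter, Finset.mem_univ, true_and] at ha
    rcases ha with ha | ha
    · right
      simp only [ha.1, if_false, and_true]
      intro h2
      exact ha.1 (by rw [← h2]; exact ha.2.1)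
    · left
      simp only [ha.1, if_true]
  · rw [h.rk_eq, Finset.card_union_of_disjoint]
    rw [Finset.disjoint_left]
    intro k h2 h3
    simp only [Finset.mem_filter, Finset.mem_univ, true_and] at h2 h3
    exact h2.1 h3.1

theorem Good.count {u v π : Equiv.Perm (Fin n)} {b : Fin n → Fin n} (h : Good u v π b)
    {i j : Fin n} (G : Finset (Fin n)) (τ : Fin n → Fin n) (hinj : Set.InjOn τ ↑G)
    (hG : ∀ a ∈ G, a ≤ j) (hτ : ∀ a ∈ G, i ≤ u (τ a))
    (hs : ∀ a ∈ G, τ a = a ∨ (a ≠ b a ∧ τ a = π a)) {k0 : Fin n} (hk : k0 ≠ b k0)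
    (hk' : k0 ∈ G → τ k0 ≠ π k0) : G.card ≤ rk v i j := by
  refine ((h.inc.split hk).count G τ hinj hG hτ ?_).trans (h.cut k0 hk i j)
  intro a ha
  rcases hs a ha with h1 | ⟨h1, h2⟩
  · exact Or.inl h1
  · right
    have h3 : a ≠ k0 := by
      intro h4
      rw [h4] at h2 ha
      exact hk' ha h2
    have h4 : a ≠ b k0 := by
      intro h5
      apply h1
      rw [h5, h.inc.top]
    refine ⟨?_, ?_⟩
    · split_ifs
      · exact h3
      · exact h1
    · rw [Equiv.Perm.mul_apply, Equiv.swap_apply_of_ne_of_ne h3 h4]
      exact h2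

/-- all the steps are used in a violated box -/
theorem Good.used {u v π : Equiv.Perm (Fin n)} {b : Fin n → Fin n} (h : Good u v π b)
    {i j : Fin n} (hv : rk v i j < rk (u * π) i j) {k : Fin n} (hk : k ≠ b k) :
    k ≤ j ∧ i ≤ u (π k) := by
  by_contra hcon
  obtain ⟨G, τ, hinj, hG, hτ, hs, hc⟩ := h.inc.exists_match i j
  have h1 := h.count G τ hinj hG hτ hs hk (fun h2 h3 => hcon ⟨hG k h2, h3 ▸ hτ k h2⟩)
  omega

/-- the shape of a matching which uses all the steps; `k` is a bottom iff `k < π⁻¹ k` -/
theorem Good.shape {u v π : Equiv.Perm (Fin n)} {b : Fin n → Fin n} (h : Good u v π b)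
    {i j : Fin n} (G : Finset (Fin n)) (τ : Fin n → Fin n) (hinj : Set.InjOn τ ↑G)
    (hG : ∀ a ∈ G, a ≤ j) (hτ : ∀ a ∈ G, i ≤ u (τ a))
    (hs : ∀ a ∈ G, τ a = a ∨ (a ≠ b a ∧ τ a = π a)) (hcard : rk v i j < G.card)
    (hne : ∃ k, k ≠ b k) (hall : ∀ k, k ≠ b k → k ∈ G ∧ τ k = π k) :
    (∀ x, x ∈ G ↔ (x ≤ j ∧ i ≤ u x) ∨ x < π.symm x) ∧
      (∀ x, x ∈ G.image τ ↔ (x ≤ j ∧ i ≤ u x) ∨ π x < x) ∧
      (∀ x, x < π.symm x → x ≤ j ∧ u x < i) ∧ (∀ x, π x < x → j < x ∧ i ≤ u x) := by
  classical
  have hinc := h.inc
  -- an element which is not a step up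
  have htop : ∀ x, x = b x → π x ≤ x := by
    intro x hx
    by_contra hc
    exact (hinc.lt_iff x).1 (not_le.1 hc) hx
  -- bottoms
  have hbot : ∀ x, x < π.symm x → π.symm x = b (π.symm x) ∧ x ≠ b x := by
    intro x hx
    have h1 : π.symm x = b (π.symm x) := by
      by_contra hc
      have := (hinc.lt_iff _).2 hc
      rw [π.apply_symm_apply] at this
      exact absurd this (not_lt.2 hx.le)
    refine ⟨h1, ?_⟩
    intro h2
    have h3 := hinc.inv (π.symm x)
    rw [π.apply_symm_apply] at h3
    rw [← h2, ← h1] at h3
    exact absurd h3 hx.ne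
  have hmt : ∀ x, π x < x → x = b x ∧ π.symm x ≠ b (π.symm x) ∧ π.symm x ≠ x := by
    intro x hx
    have h1 : x = b x := by
      by_contra hc
      exact absurd ((hinc.lt_iff x).2 hc) (not_lt.2 hx.le)
    have h2 : π.symm x ≠ x := by
      intro h3
      have h4 := congrArg π h3
      rw [π.apply_symm_apply] at h4
      exact absurd h4.symm hx.ne
    refine ⟨h1, ?_, h2⟩
    intro h3
    have h4 := hinc.inv (π.symm x)
    rw [π.apply_symm_apply] at h4
    rw [← h4, ← h1] at h3
    exact h2 h3
  have hc : ∀ x, x < π.symm x → x ≤ j ∧ u x < i := by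
    intro c hx
    obtain ⟨h1, h2⟩ := hbot c hx
    obtain ⟨h3, h4⟩ := hall c h2
    refine ⟨hG c h3, ?_⟩
    by_contra h5
    rw [not_lt] at h5
    have h6 : ∀ y ∈ G, y ≠ c → τ y ≠ c := by
      intro y hy hyc h7
      rcases hs y hy with h8 | ⟨h8, h9⟩
      · exact hyc (by rw [← h8]; exact h7)
      · rw [h9] at h7
        have h10 : y = π.symm c := by rw [← h7, π.symm_apply_apply]
        rw [h10] at h8
        exact h8 h1
    have h7 := h.count (i := i) G (Function.update τ c c) ?_ hG ?_ ?_ h2 ?_
    · omega
    · intro x hx' y hy' hxy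
      by_cases a1 : x = c <;> by_cases a2 : y = c
      · rw [a1, a2]
      · rw [a1, Function.update_self, Function.update_of_ne a2] at hxy
        exact absurd hxy.symm (h6 y hy' a2)
      · rw [a2, Function.update_self, Function.update_of_ne a1] at hxy
        exact absurd hxy (h6 x hx' a1)
      · rw [Function.update_of_ne a1, Function.update_of_ne a2] at hxy
        exact hinj hx' hy' hxy
    · intro a ha
      by_cases a1 : a = c
      · rw [a1, Function.update_self]
        exact h5
      · rw [Function.update_of_ne a1]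
        exact hτ a ha
    · intro a ha
      by_cases a1 : a = c
      · left
        rw [a1, Function.update_self]
      · rw [Function.update_of_ne a1]
        exact hs a ha
    · intro _
      rw [Function.update_self]
      exact (hinc.up c h2).1.ne
  have hd : ∀ x, π x < x → j < x ∧ i ≤ u x := by
    intro r hr
    obtain ⟨h1, h2, h3⟩ := hmt r hr
    obtain ⟨h4, h5⟩ := hall _ h2
    rw [π.apply_symm_apply] at h5
    have h6 : i ≤ u r := by
      rw [← h5]
      exact hτ _ h4
    refine ⟨?_, h6⟩
    by_contra h7
    rw [not_lt] at h7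
    have h8 : r ∉ G := by
      intro h9
      rcases hs r h9 with h10 | h10
      · exact h3 (hinj h4 h9 (h5.trans h10.symm))
      · exact h10.1 h1
    have h9 : ∀ y ∈ G, y ≠ π.symm r → τ y ≠ r := by
      intro y hy hyc h10
      exact hyc (hinj hy h4 (h10.trans h5.symm))
    have h10 := h.count (i := i) (j := j) (insert r (G.erase (π.symm r))) (Function.update τ r r)
      ?_ ?_ ?_ ?_ h2 ?_
    · rw [Finset.card_insert_of_notMem (by simp [h8]), Finset.card_erase_of_mem h4] at h10
      have := Finset.card_pos.2 ⟨_, h4⟩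
      omega
    · intro x hx y hy hxy
      simp only [Finset.coe_insert, Finset.coe_erase, Set.mem_insert_iff, Set.mem_sdiff,
        Set.mem_singleton_iff, Finset.mem_coe] at hx hy
      by_cases a1 : x = r <;> by_cases a2 : y = r
      · rw [a1, a2]
      · rw [a1, Function.update_self, Function.update_of_ne a2] at hxy
        exact absurd hxy.symm (h9 y (hy.resolve_left a2).1 (hy.resolve_left a2).2)
      · rw [a2, Function.update_self, Function.update_of_ne a1] at hxy
        exact absurd hxy (h9 x (hx.resolve_left a1).1 (hx.resolve_left a1).2)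
      · rw [Function.update_of_ne a1, Function.update_of_ne a2] at hxy
        exact hinj (hx.resolve_left a1).1 (hy.resolve_left a2).1 hxy
    · intro a ha
      rw [Finset.mem_insert] at ha
      rcases ha with ha | ha
      · rw [ha]
        exact h7
      · exact hG a (Finset.mem_of_mem_erase ha)
    · intro a ha
      by_cases a1 : a = r
      · rw [a1, Function.update_self]
        exact h6
      · rw [Function.update_of_ne a1]
        rw [Finset.mem_insert] at ha
        exact hτ a (Finset.mem_of_mem_erase (ha.resolve_left a1))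
    · intro a ha
      by_cases a1 : a = r
      · left
        rw [a1, Function.update_self]
      · rw [Function.update_of_ne a1]
        rw [Finset.mem_insert] at ha
        exact hs a (Finset.mem_of_mem_erase (ha.resolve_left a1))
    · intro h11
      rw [Finset.mem_insert] at h11
      rcases h11 with h11 | h11
      · exact absurd h11 h3
      · exact absurd rfl (Finset.ne_of_mem_erase h11)
  have hthree : ∀ k, k ≤ j → i ≤ u k → k ∈ G ∧ k ∈ G.image τ := by
    intro k hkj hik
    by_cases h1 : k ∈ G <;> by_cases h2 : k ∈ G.image τ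
    · exact ⟨h1, h2⟩
    · exfalso
      rcases hs k h1 with h3 | ⟨h3, h4⟩
      · exact h2 (Finset.mem_image.2 ⟨k, h1, h3⟩)
      · have h5 : π.symm k = b (π.symm k) := by
          by_contra h6
          obtain ⟨h7, h8⟩ := hall _ h6
          rw [π.apply_symm_apply] at h8
          exact h2 (Finset.mem_image.2 ⟨_, h7, h8⟩)
        have h6 := htop _ h5
        rw [π.apply_symm_apply] at h6
        rcases h6.eq_or_lt with h7 | h7
        · have h8 := (hinc.up k h3).1
          have h9 : π k = k := by
            conv_lhs => rw [h7]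
            exact π.apply_symm_apply k
          exact absurd h8 (by rw [h9]; exact lt_irrefl k)
        · exact absurd hik (not_le.2 (hc k h7).2)
    · exfalso
      rw [Finset.mem_image] at h2
      obtain ⟨a, ha, hak⟩ := h2
      rcases hs a ha with h3 | ⟨h3, h4⟩
      · exact h1 (by rw [← hak, h3]; exact ha)
      · have h5 : k = b k := by
          by_contra h6
          exact h1 (hall k h6).1
        have h6 := htop k h5
        rcases h6.eq_or_lt with h7 | h7
        · rw [← hak, h4] at h7
          have h8 := π.injective h7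
          exact h1 (by rw [← hak, h4, h8]; exact ha)
        · exact absurd hkj (not_le.2 (hd k h7).1)
    · exfalso
      obtain ⟨k0, hk0⟩ := hne
      obtain ⟨h3, h4⟩ := hall k0 hk0
      have h5 : k ≠ k0 := by
        rintro rfl
        exact h1 h3
      have h6 : ∀ y ∈ G, τ y ≠ k := fun y hy h7 => h2 (Finset.mem_image.2 ⟨y, hy, h7⟩)
      have h10 := h.count (i := i) (j := j) (insert k (G.erase k0)) (Function.update τ k k)
        ?_ ?_ ?_ ?_ hk0 ?_
      · rw [Finset.card_insert_of_notMem (by simp [h1]), Finset.card_erase_of_mem h3] at h10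
        have := Finset.card_pos.2 ⟨_, h3⟩
        omega
      · intro x hx y hy hxy
        simp only [Finset.coe_insert, Finset.coe_erase, Set.mem_insert_iff, Set.mem_sdiff,
          Set.mem_singleton_iff, Finset.mem_coe] at hx hy
        by_cases a1 : x = k <;> by_cases a2 : y = k
        · rw [a1, a2]
        · rw [a1, Function.update_self, Function.update_of_ne a2] at hxy
          exact absurd hxy.symm (h6 y (hy.resolve_left a2).1)
        · rw [a2, Function.update_self, Function.update_of_ne a1] at hxy
          exact absurd hxy (h6 x (hx.resolve_left a1).1)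
        · rw [Function.update_of_ne a1, Function.update_of_ne a2] at hxy
          exact hinj (hx.resolve_left a1).1 (hy.resolve_left a2).1 hxy
      · intro a ha
        rw [Finset.mem_insert] at ha
        rcases ha with ha | ha
        · rw [ha]
          exact hkj
        · exact hG a (Finset.mem_of_mem_erase ha)
      · intro a ha
        by_cases a1 : a = k
        · rw [a1, Function.update_self]
          exact hik
        · rw [Function.update_of_ne a1]
          rw [Finset.mem_insert] at ha
          exact hτ a (Finset.mem_of_mem_erase (ha.resolve_left a1))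
      · intro a ha
        by_cases a1 : a = k
        · left
          rw [a1, Function.update_self]
        · rw [Function.update_of_ne a1]
          rw [Finset.mem_insert] at ha
          exact hs a (Finset.mem_of_mem_erase (ha.resolve_left a1))
      · intro h11
        rw [Finset.mem_insert] at h11
        rcases h11 with h11 | h11
        · exact absurd h11.symm h5
        · exact absurd rfl (Finset.ne_of_mem_erase h11)
  refine ⟨?_, ?_, hc, hd⟩
  · intro x
    constructor
    · intro hx
      rcases hs x hx with h1 | ⟨h1, h2⟩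
      · left
        refine ⟨hG x hx, ?_⟩
        have := hτ x hx
        rwa [h1] at this
      · by_cases h3 : π.symm x = b (π.symm x)
        · right
          have h6 := htop _ h3
          rw [π.apply_symm_apply] at h6
          refine lt_of_le_of_ne h6 ?_
          intro h7
          have h8 := (hinc.up x h1).1
          have h9 : π x = x := by
            conv_lhs => rw [h7]
            exact π.apply_symm_apply x
          exact absurd h8 (by rw [h9]; exact lt_irrefl x)
        · left
          obtain ⟨h7, h8⟩ := hall _ h3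
          refine ⟨hG x hx, ?_⟩
          have := hτ _ h7
          rwa [h8, π.apply_symm_apply] at this
    · rintro (⟨h1, h2⟩ | h1)
      · exact (hthree x h1 h2).1
      · exact (hall x (hbot x h1).2).1
  · intro x
    constructor
    · intro hx
      rw [Finset.mem_image] at hx
      obtain ⟨a, ha, hax⟩ := hx
      have h0 : i ≤ u x := by
        rw [← hax]
        exact hτ a ha
      rcases hs a ha with h1 | ⟨h1, h2⟩
      · left
        refine ⟨?_, h0⟩
        rw [← hax, h1]
        exact hG a ha
      · by_cases h3 : x = b x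
        · right
          refine lt_of_le_of_ne (htop x h3) ?_
          intro h4
          rw [h2] at hax
          have h5 : a = x := π.injective (hax.trans h4.symm)
          rw [h5] at h1
          exact h1 h3
        · left
          exact ⟨hG x (hall x h3).1, h0⟩
    · rintro (⟨h1, h2⟩ | h1)
      · exact (hthree x h1 h2).2
      · obtain ⟨h7, h8⟩ := hall _ (hmt x h1).2.1
        rw [π.apply_symm_apply] at h8
        exact Finset.mem_image.2 ⟨_, h7, h8⟩

end Pool.Agent.H30.KL
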