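import Pool.Agent.H30.KL.Gen.Nec2

/-!
# Obstruction: two good linkings with different numbers of steps (GEN-7c)
-/

open MvPolynomial Matrix

namespace Pool.Agent.H30.KL

variable {n : ℕ}

theorem Inc.exists_top {u π : Equiv.Perm (Fin n)} {b : Fin n → Fin n} (h : Inc u π b)
    (hne : ∃ k, k ≠ b k) : ∃ k, π k < k := by
  by_contra hcon
  push Not at hcon
  obtain ⟨k0, hk0⟩ := hne
  have h1 : (Finset.univ.filter fun k => k ≠ b k).Nonempty := ⟨k0, by simp [hk0]⟩
  obtain ⟨m, hm, hmax⟩ := Finset.exists_max_image _ id h1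
  rw [Finset.mem_filter] at hm
  have h2 := (h.up m hm.2).1
  by_cases h3 : π m ≠ b (π m)
  · have h4 := hmax (π m) (by simp [h3])
    exact absurd h2 (not_lt.2 h4)
  · have h4 := h.fix (not_lt.2 (hcon (π m))) h3
    rw [π.injective h4] at h2
    exact lt_irrefl _ h2

theorem Inc.exists_step {u π : Equiv.Perm (Fin n)} {b : Fin n → Fin n} (h : Inc u π b)
    (ht : ∃ k, π k < k) : ∃ k, k ≠ b k := by
  by_contra hcon
  push Not at hcon
  obtain ⟨k, hk⟩ := ht
  have h1 := h.inv k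
  rw [← hcon k, ← hcon (π k)] at h1
  rw [h1] at hk
  exact lt_irrefl _ hk

section

variable {u v π₁ π₂ : Equiv.Perm (Fin n)} {b₁ b₂ : Fin n → Fin n}

theorem phi_generator (h₁ : Good u v π₁ b₁) (h₂ : Good u v π₂ b₂) (hne₁ : ∃ k, k ≠ b₁ k)
    (hne₂ : ∃ k, k ≠ b₂ k) (hT : ∀ k, π₁ k < k ↔ π₂ k < k)
    (hB : ∀ k, k < π₁.symm k ↔ k < π₂.symm k)
    (hV : ∀ i j, rk (u * π₁) i j ≤ rk v i j ↔ rk (u * π₂) i j ≤ rk v i j)
    {i j : Fin n} {s : ℕ} (hs : rk v i j < s) {f g : Fin s → Fin n}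
    (hf : Function.Injective f) (hg : Function.Injective g)
    (hfi : ∀ x, i ≤ u (f x)) (hgj : ∀ y, g y ≤ j) (e : Free u →₀ ℕ) (c : ℂ) :
    coeff (mexp u π₁) (monomial e c * Dm u f g) -
      ((Equiv.Perm.sign (theta0 hT hB) : ℤ) : ℂ) *
        coeff (mexp u π₂) (monomial e c * Dm u f g) = 0 := by
  rw [coeff_monomial_mul', coeff_monomial_mul']
  by_cases he : e = 0
  · subst he
    rw [if_pos zero_le, if_pos zero_le, tsub_zero, tsub_zero]
    by_cases hex : ∃ τ : Equiv.Perm (Fin s), Fits π₁ f g τ ∧ (∀ k, k ≠ b₁ k → ∃ y, g y = k) ∧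
        (∀ y, ¬ π₁ (g y) < g y)
    · obtain ⟨τ, hτ, hcov, ht⟩ := hex
      obtain ⟨τ₂, hτ₂, hcov₂, ht₂⟩ := transfer h₁ h₂ hne₁ hT hB (fun i j => (hV i j).1)
        (fun i j => (hV i j).2) hs hf hg hfi hgj ht hτ
      rw [coeff_Dm_of_fits h₁ hne₁ hs hf hg hfi hgj ht hτ hcov,
        coeff_Dm_of_fits h₂ hne₂ hs hf hg hfi hgj ht₂ hτ₂ hcov₂,
        sign_rel h₁.inc h₂.inc hT hB hf hg ht hτ hcov hτ₂ hcov₂]
      push_cast
      ring
    · rw [coeff_Dm_of_not h₁ hne₁ hs hf hg hfi hgj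
        (fun τ h3 h4 h5 => hex ⟨τ, h3, h4, h5⟩),
        coeff_Dm_of_not h₂ hne₂ hs hf hg hfi hgj]
      · ring
      · intro τ₂ h3 h4 h5
        obtain ⟨τ, h6, h7, h8⟩ := transfer h₂ h₁ hne₂ (fun k => (hT k).symm)
          (fun k => (hB k).symm) (fun i j => (hV i j).2) (fun i j => (hV i j).1) hs hf hg hfi hgj
          h5 h3
        exact hex ⟨τ, h6, h7, h8⟩
  · have h3 : (if e ≤ mexp u π₁ then c * coeff (mexp u π₁ - e) (Dm u f g) else 0) = 0 := by
      split_ifs with h4
      · rw [coeff_Dm_sub h₁ hs hf hg hfi hgj h4 he, mul_zero]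
      · rfl
    have h5 : (if e ≤ mexp u π₂ then c * coeff (mexp u π₂ - e) (Dm u f g) else 0) = 0 := by
      split_ifs with h4
      · rw [coeff_Dm_sub h₂ hs hf hg hfi hgj h4 he, mul_zero]
      · rfl
    rw [h3, h5, mul_zero, sub_zero]

theorem phi_ideal (h₁ : Good u v π₁ b₁) (h₂ : Good u v π₂ b₂) (hne₁ : ∃ k, k ≠ b₁ k)
    (hne₂ : ∃ k, k ≠ b₂ k) (hT : ∀ k, π₁ k < k ↔ π₂ k < k)
    (hB : ∀ k, k < π₁.symm k ↔ k < π₂.symm k)
    (hV : ∀ i j, rk (u * π₁) i j ≤ rk v i j ↔ rk (u * π₂) i j ≤ rk v i j)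
    {p : MvPolynomial (Free u) ℂ} (hp : p ∈ klIdeal u v) :
    ∀ q, coeff (mexp u π₁) (q * p) - ((Equiv.Perm.sign (theta0 hT hB) : ℤ) : ℂ) *
      coeff (mexp u π₂) (q * p) = 0 := by
  rw [klIdeal] at hp
  refine Submodule.span_induction (p := fun p _ => ∀ q,
    coeff (mexp u π₁) (q * p) - ((Equiv.Perm.sign (theta0 hT hB) : ℤ) : ℂ) *
      coeff (mexp u π₂) (q * p) = 0) ?_ ?_ ?_ ?_ hp
  · rintro x ⟨i, j, f, g, hf, hg, rfl⟩ q
    have h3 : ((Zmat u).submatrix f g).det = Dm u (fun a => u.symm (f a)) g := by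
      rw [Dm]
      congr 2
      funext a
      rw [Equiv.apply_symm_apply]
    rw [h3]
    have h4 : q * Dm u (fun a => u.symm (f a)) g =
        ∑ e ∈ q.support, monomial e (coeff e q) * Dm u (fun a => u.symm (f a)) g := by
      conv_lhs => rw [q.as_sum]
      rw [Finset.sum_mul]
    rw [h4, coeff_sum, coeff_sum, Finset.mul_sum, ← Finset.sum_sub_distrib]
    apply Finset.sum_eq_zero
    intro e _
    apply phi_generator h₁ h₂ hne₁ hne₂ hT hB hV (Nat.lt_succ_self (rk v i j))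
    · intro x y hxy
      exact f.injective (u.symm.injective hxy)
    · exact g.injective
    · intro x
      rw [Equiv.apply_symm_apply]
      exact hf x
    · exact hg
  · intro q
    simp
  · intro x y _ _ hx hy q
    rw [mul_add, coeff_add, coeff_add]
    have h3 := hx q
    have h4 := hy q
    linear_combination h3 + h4
  · intro a x _ hx q
    rw [smul_eq_mul, ← mul_assoc]
    exact hx (q * a)

/-- in a violated box there is a generator with coefficient `± 1` -/
theorem exists_generator (h₁ : Good u v π₁ b₁) (hne₁ : ∃ k, k ≠ b₁ k)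
    (hv : ¬ BruhatLE (u * π₁) v) : ∃ p ∈ klIdeal u v, coeff (mexp u π₁) p ≠ 0 := by
  rw [BruhatLE] at hv
  push Not at hv
  obtain ⟨i, j, hij⟩ := hv
  obtain ⟨G, τ, hinj, hGj, hτi, hst, hcard⟩ := h₁.inc.exists_match i j
  have hG1 : rk v i j < G.card := by omega
  have hall : ∀ k, k ≠ b₁ k → k ∈ G ∧ τ k = π₁ k := by
    intro k hk
    by_contra hcon
    have h3 := h₁.count G τ hinj hGj hτi hst hk (fun h4 h5 => hcon ⟨h4, h5⟩)
    omega
  obtain ⟨hG, hF, hbot, htop⟩ := h₁.shape G τ hinj hGj hτi hst hG1 hne₁ hall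
  have hG2 : G.card = rk v i j + 1 := by
    obtain ⟨k0, hk0⟩ := hne₁
    have h3 := h₁.count (i := i) (j := j) (G.erase k0) τ
      (hinj.mono (by exact_mod_cast Finset.erase_subset _ _))
      (fun a ha => hGj a (Finset.mem_of_mem_erase ha))
      (fun a ha => hτi a (Finset.mem_of_mem_erase ha))
      (fun a ha => hst a (Finset.mem_of_mem_erase ha)) hk0
      (fun h4 => absurd rfl (Finset.ne_of_mem_erase h4))
    rw [Finset.card_erase_of_mem (hall k0 hk0).1] at h3
    omega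
  have hF2 : (G.image τ).card = rk v i j + 1 := by
    rw [Finset.card_image_of_injOn hinj, hG2]
  set g := G.orderEmbOfFin hG2 with hgdef
  set f := (G.image τ).orderEmbOfFin hF2 with hfdef
  have hgG : ∀ y, g y ∈ G := fun y => G.orderEmbOfFin_mem hG2 y
  have hfF : ∀ y, f y ∈ G.image τ := fun y => (G.image τ).orderEmbOfFin_mem hF2 y
  have hgs : ∀ x ∈ G, ∃ y, g y = x := by
    intro x hx
    have h3 := Finset.range_orderEmbOfFin G hG2
    have h4 : x ∈ Set.range g := by
      rw [hgdef, h3]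
      exact hx
    exact h4
  have hfs : ∀ x ∈ G.image τ, ∃ y, f y = x := by
    intro x hx
    have h3 := Finset.range_orderEmbOfFin (G.image τ) hF2
    have h4 : x ∈ Set.range f := by
      rw [hfdef, h3]
      exact hx
    exact h4
  have ht : ∀ y, ¬ π₁ (g y) < g y := by
    intro y h3
    exact absurd (hGj _ (hgG y)) (not_le.2 (htop _ h3).1)
  have hval : ∀ y, ∃ z, f z = π₁ (g y) := by
    intro y
    apply hfs
    by_cases h3 : g y ≠ b₁ (g y)
    · rw [← (hall _ h3).2]
      exact Finset.mem_image_of_mem _ (hgG y)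
    · rw [h₁.inc.fix (ht y) h3]
      rcases hst _ (hgG y) with h4 | h4
      · rw [← h4]
        exact Finset.mem_image_of_mem _ (hgG y)
      · exact absurd h4.1 h3
  choose t ht' using hval
  have htinj : Function.Injective t := by
    intro x y hxy
    apply g.injective
    apply π₁.injective
    rw [← ht', ← ht', hxy]
  refine ⟨Dm u f g, ?_, ?_⟩
  · have h3 := det_mem_klIdeal u v (i := i) (j := j) (m := rk v i j + 1) rfl
      (fun x => u (f x)) g (fun x => by
        obtain ⟨a, ha, hax⟩ := Finset.mem_image.1 (hfF x)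
        rw [← hax]
        exact hτi a ha) (fun y => hGj _ (hgG y))
    exact h3
  · rw [coeff_Dm_of_fits (τ := Equiv.ofBijective t (Finite.injective_iff_bijective.1 htinj)) h₁ hne₁
      (Nat.lt_succ_self (rk v i j)) f.injective g.injective
      (fun x => by
        obtain ⟨a, ha, hax⟩ := Finset.mem_image.1 (hfF x)
        rw [← hax]
        exact hτi a ha) (fun y => hGj _ (hgG y)) ht (fun y => ht' y)
      (fun k hk => hgs k (hall k hk).1)]
    rcases Int.units_eq_one_or (Equiv.Perm.sign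
      (Equiv.ofBijective t (Finite.injective_iff_bijective.1 htinj))) with h3 | h3 <;>
      simp [h3]

attribute [local instance] MvPolynomial.gradedAlgebra

/-- **two good linkings with different numbers of steps** -/
theorem nonhom (h₁ : Good u v π₁ b₁) (h₂ : Good u v π₂ b₂) (hT : ∀ k, π₁ k < k ↔ π₂ k < k)
    (hB : ∀ k, k < π₁.symm k ↔ k < π₂.symm k)
    (hV : ∀ i j, rk (u * π₁) i j ≤ rk v i j ↔ rk (u * π₂) i j ≤ rk v i j)
    (hv : ¬ BruhatLE (u * π₁) v)
    (hl : (Finset.univ.filter fun k => k < π₁ k).card ≠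
      (Finset.univ.filter fun k => k < π₂ k).card) : ¬ Hom u v := by
  have hne : (∃ k, k ≠ b₁ k) ∧ ∃ k, k ≠ b₂ k := by
    by_cases h3 : ∃ k, k ≠ b₁ k
    · refine ⟨h3, h₂.inc.exists_step ?_⟩
      obtain ⟨k, hk⟩ := h₁.inc.exists_top h3
      exact ⟨k, (hT k).1 hk⟩
    · exfalso
      have h4 : ¬ ∃ k, k ≠ b₂ k := by
        intro h5
        obtain ⟨k, hk⟩ := h₂.inc.exists_top h5
        exact h3 (h₁.inc.exists_step ⟨k, (hT k).2 hk⟩)
      push Not at h3 h4
      apply hl
      rw [Finset.filter_false_of_mem, Finset.filter_false_of_mem]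
      · intro k _ hk
        exact (h₂.inc.lt_iff k).1 hk (h4 k)
      · intro k _ hk
        exact (h₁.inc.lt_iff k).1 hk (h3 k)
  obtain ⟨hne₁, hne₂⟩ := hne
  intro hHom
  obtain ⟨p, hp, hpc⟩ := exists_generator h₁ hne₁ hv
  have h3 : homogeneousComponent (mexp u π₁).degree p ∈ klIdeal u v := by
    have h4 := hHom (mexp u π₁).degree hp
    have hdec : ((DirectSum.decompose (homogeneousSubmodule (Free u) ℂ) p (mexp u π₁).degree :
        homogeneousSubmodule (Free u) ℂ (mexp u π₁).degree) : MvPolynomial (Free u) ℂ) =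
        homogeneousComponent (mexp u π₁).degree p := by
      rw [← MvPolynomial.decomposition.decompose'_apply]
      rfl
    rwa [hdec] at h4
  have h5 := phi_ideal h₁ h₂ hne₁ hne₂ hT hB hV h3 1
  rw [one_mul, coeff_homogeneousComponent, coeff_homogeneousComponent, if_pos rfl, if_neg, mul_zero,
    sub_zero] at h5
  · exact hpc h5
  · rw [degree_mexp h₁.inc, degree_mexp h₂.inc]
    exact fun h6 => hl h6.symm

end

end Pool.Agent.H30.KL
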