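import Pool.Agent.H30.KL.Gen.Nec1

/-!
# Obstruction, second part (GEN-7b): coefficients of the generators
-/

open MvPolynomial Matrix

namespace Pool.Agent.H30.KL

variable {n : ℕ}

section

variable {u v π : Equiv.Perm (Fin n)} {b : Fin n → Fin n} {i j : Fin n} {s : ℕ}
  {f g : Fin s → Fin n} {τ : Equiv.Perm (Fin s)}

/-- `Good.shape` for a permutation of the indices -/
theorem term_shape (hπ : Good u v π b) (hne : ∃ k, k ≠ b k) (hs : rk v i j < s)
    (hf : Function.Injective f) (hg : Function.Injective g) (hfi : ∀ x, i ≤ u (f x))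
    (hgj : ∀ y, g y ≤ j)
    (hst : ∀ y, f (τ y) = g y ∨ (g y ≠ b (g y) ∧ f (τ y) = π (g y))) :
    (∀ x, x ∈ Finset.univ.image g ↔ (x ≤ j ∧ i ≤ u x) ∨ x < π.symm x) ∧
      (∀ x, x ∈ Finset.univ.image f ↔ (x ≤ j ∧ i ≤ u x) ∨ π x < x) ∧
      (∀ x, x < π.symm x → x ≤ j ∧ u x < i) ∧ (∀ x, π x < x → j < x ∧ i ≤ u x) := by
  have h1 := hπ.shape (i := i) (j := j) (Finset.univ.image g) (pmap f g τ) (pmap_injOn hf hg)
    (by
      intro a ha
      obtain ⟨y, -, rfl⟩ := Finset.mem_image.1 ha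
      exact hgj y)
    (by
      intro a ha
      obtain ⟨y, -, rfl⟩ := Finset.mem_image.1 ha
      rw [pmap_apply hg]
      exact hfi _)
    (by
      intro a ha
      obtain ⟨y, -, rfl⟩ := Finset.mem_image.1 ha
      rw [pmap_apply hg]
      exact hst y)
    (by rw [image_card hg]; exact hs) hne
    (by
      intro k hk
      obtain ⟨y, hy1, hy2⟩ := term_used hπ hs hf hg hfi hgj hst hk
      rw [← hy1]
      refine ⟨Finset.mem_image_of_mem _ (Finset.mem_univ y), ?_⟩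
      rw [pmap_apply hg, hy2, hy1])
  rw [pmap_image hg] at h1
  exact h1

theorem fits_of_step (hπ : Good u v π b) (hne : ∃ k, k ≠ b k) (hs : rk v i j < s)
    (hf : Function.Injective f) (hg : Function.Injective g) (hfi : ∀ x, i ≤ u (f x))
    (hgj : ∀ y, g y ≤ j)
    (hst : ∀ y, f (τ y) = g y ∨ (g y ≠ b (g y) ∧ f (τ y) = π (g y))) : Fits π f g τ := by
  intro y
  rcases hst y with h1 | h1
  · by_cases h2 : g y ≠ b (g y)
    · obtain ⟨y', hy1, hy2⟩ := term_used hπ hs hf hg hfi hgj hst h2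
      rw [hg hy1] at hy2
      exact hy2
    · have h3 := (term_shape hπ hne hs hf hg hfi hgj hst).2.2.2 (g y)
      have h4 : ¬ π (g y) < g y := fun h5 => absurd (hgj y) (not_le.2 (h3 h5).1)
      rw [h1, hπ.inc.fix h4 h2]
  · exact h1.2

theorem step_of_fits (hπ : Inc u π b) (ht : ∀ y, ¬ π (g y) < g y) (hτ : Fits π f g τ) (y : Fin s) :
    f (τ y) = g y ∨ (g y ≠ b (g y) ∧ f (τ y) = π (g y)) := by
  by_cases h2 : g y ≠ b (g y)
  · exact Or.inr ⟨h2, hτ y⟩
  · left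
    rw [hτ y, hπ.fix (ht y) h2]

theorem nz_of_fits (hπ : Inc u π b) (ht : ∀ y, ¬ π (g y) < g y) (hτ : Fits π f g τ) (y : Fin s) :
    Zmat u (u (f (τ y))) (g y) ≠ 0 := by
  rcases step_of_fits hπ ht hτ y with h1 | ⟨h1, h2⟩
  · rw [h1, entry_diag]
    exact one_ne_zero
  · have h3 := hπ.up _ h1
    rw [h2, Zmat, Matrix.of_apply, dif_pos ⟨h3.2, by rw [Equiv.symm_apply_apply]; exact h3.1⟩]
    exact X_ne_zero _

theorem sum_of_fits (hπ : Inc u π b) (hg : Function.Injective g) (hτ : Fits π f g τ)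
    (hcov : ∀ k, k ≠ b k → ∃ y, g y = k) : ∑ y, mon u (g y) (f (τ y)) = mexp u π := by
  have h1 : ∑ y, mon u (g y) (f (τ y)) = ∑ k ∈ Finset.univ.image g, mon u k (π k) := by
    rw [Finset.sum_image (fun x _ y _ h => hg h)]
    apply Finset.sum_congr rfl
    intro y _
    rw [hτ y]
  rw [h1, mexp]
  apply Finset.sum_subset (Finset.subset_univ _)
  intro k _ hk
  apply mon_of_not
  rintro ⟨h2, -⟩
  obtain ⟨y, hy⟩ := hcov k ((hπ.lt_iff k).1 h2)
  exact hk (Finset.mem_image.2 ⟨y, Finset.mem_univ _, hy⟩)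

theorem term_eq_monomial (hnz : ∀ y, Zmat u (u (f (τ y))) (g y) ≠ 0) :
    ∏ y, Zmat u (u (f (τ y))) (g y) = monomial (∑ y, mon u (g y) (f (τ y))) (1 : ℂ) := by
  rw [MvPolynomial.monomial_sum_one]
  apply Finset.prod_congr rfl
  intro y _
  exact Zmat_eq_monomial (hnz y)

theorem coeff_term_of_ne {d : Free u →₀ ℕ}
    (h : ¬ ((∀ y, Zmat u (u (f (τ y))) (g y) ≠ 0) ∧ ∑ y, mon u (g y) (f (τ y)) = d)) :
    coeff d (∏ y, Zmat u (u (f (τ y))) (g y)) = 0 := by
  by_cases hnz : ∀ y, Zmat u (u (f (τ y))) (g y) ≠ 0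
  · rw [term_eq_monomial hnz, coeff_monomial, if_neg]
    exact fun h1 => h ⟨hnz, h1⟩
  · push Not at hnz
    obtain ⟨y, hy⟩ := hnz
    rw [Finset.prod_eq_zero (Finset.mem_univ y) hy, coeff_zero]

theorem coeff_Dm (d : Free u →₀ ℕ) : coeff d (Dm u f g) =
    ∑ τ : Equiv.Perm (Fin s), ((Equiv.Perm.sign τ : ℤ) : ℂ) *
      coeff d (∏ y, Zmat u (u (f (τ y))) (g y)) := by
  rw [Dm, Matrix.det_apply', coeff_sum]
  apply Finset.sum_congr rfl
  intro τ _
  have h1 : ((((Equiv.Perm.sign τ : ℤ) : MvPolynomial (Free u) ℂ))) =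
      C (((Equiv.Perm.sign τ : ℤ) : ℂ)) := by
    simp
  rw [h1, coeff_C_mul]
  rfl

/-- the coefficient for a proper part of the steps is zero -/
theorem coeff_Dm_sub (hπ : Good u v π b) (hs : rk v i j < s) (hf : Function.Injective f)
    (hg : Function.Injective g) (hfi : ∀ x, i ≤ u (f x)) (hgj : ∀ y, g y ≤ j)
    {e : Free u →₀ ℕ} (he : e ≤ mexp u π) (hne : e ≠ 0) :
    coeff (mexp u π - e) (Dm u f g) = 0 := by
  rw [coeff_Dm]
  apply Finset.sum_eq_zero
  intro τ _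
  rw [coeff_term_of_ne, mul_zero]
  rintro ⟨hnz, h1⟩
  apply hne
  apply term_zero hπ hs hf hg hfi hgj hnz
  rw [h1, add_tsub_cancel_of_le he]

theorem coeff_Dm_of_fits (hπ : Good u v π b) (hne : ∃ k, k ≠ b k) (hs : rk v i j < s)
    (hf : Function.Injective f) (hg : Function.Injective g) (hfi : ∀ x, i ≤ u (f x))
    (hgj : ∀ y, g y ≤ j) (ht : ∀ y, ¬ π (g y) < g y) (hτ : Fits π f g τ)
    (hcov : ∀ k, k ≠ b k → ∃ y, g y = k) :
    coeff (mexp u π) (Dm u f g) = ((Equiv.Perm.sign τ : ℤ) : ℂ) := by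
  rw [coeff_Dm, Finset.sum_eq_single τ]
  · rw [term_eq_monomial (nz_of_fits hπ.inc ht hτ), sum_of_fits hπ.inc hg hτ hcov, coeff_monomial,
      if_pos rfl, mul_one]
  · intro τ' _ hne'
    rw [coeff_term_of_ne, mul_zero]
    rintro ⟨hnz, h1⟩
    apply hne'
    have h2 : Fits π f g τ' := fits_of_step hπ hne hs hf hg hfi hgj
      (term_hst (e := 0) hπ.inc hnz (by rw [zero_add]; exact h1))
    ext1 y
    apply hf
    rw [h2 y, hτ y]
  · intro h1
    exact absurd (Finset.mem_univ _) h1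

theorem coeff_Dm_of_not (hπ : Good u v π b) (hne : ∃ k, k ≠ b k) (hs : rk v i j < s)
    (hf : Function.Injective f) (hg : Function.Injective g) (hfi : ∀ x, i ≤ u (f x))
    (hgj : ∀ y, g y ≤ j)
    (hno : ∀ τ, Fits π f g τ → (∀ k, k ≠ b k → ∃ y, g y = k) → (∀ y, ¬ π (g y) < g y) → False) :
    coeff (mexp u π) (Dm u f g) = 0 := by
  rw [coeff_Dm]
  apply Finset.sum_eq_zero
  intro τ _
  rw [coeff_term_of_ne, mul_zero]
  rintro ⟨hnz, h1⟩
  have hst := term_hst (e := 0) hπ.inc hnz (by rw [zero_add]; exact h1)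
  apply hno τ (fits_of_step hπ hne hs hf hg hfi hgj hst)
  · intro k hk
    obtain ⟨y, hy, -⟩ := term_used hπ hs hf hg hfi hgj hst hk
    exact ⟨y, hy⟩
  · intro y h2
    have h3 := (term_shape hπ hne hs hf hg hfi hgj hst).2.2.2 (g y) h2
    exact absurd (hgj y) (not_le.2 h3.1)

end

section

variable {u v π₁ π₂ : Equiv.Perm (Fin n)} {b₁ b₂ : Fin n → Fin n} {i j : Fin n} {s : ℕ}
  {f g : Fin s → Fin n} {τ τ₂ : Equiv.Perm (Fin s)}

/-- a term of `π₁` gives a term of `π₂` -/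
theorem transfer (h₁ : Good u v π₁ b₁) (h₂ : Good u v π₂ b₂) (hne : ∃ k, k ≠ b₁ k)
    (hT : ∀ k, π₁ k < k ↔ π₂ k < k) (hB : ∀ k, k < π₁.symm k ↔ k < π₂.symm k)
    (hV : ∀ i j, rk (u * π₁) i j ≤ rk v i j → rk (u * π₂) i j ≤ rk v i j)
    (hV' : ∀ i j, rk (u * π₂) i j ≤ rk v i j → rk (u * π₁) i j ≤ rk v i j)
    (hs : rk v i j < s) (hf : Function.Injective f) (hg : Function.Injective g)
    (hfi : ∀ x, i ≤ u (f x)) (hgj : ∀ y, g y ≤ j) (ht : ∀ y, ¬ π₁ (g y) < g y)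
    (hτ : Fits π₁ f g τ) :
    ∃ τ₂, Fits π₂ f g τ₂ ∧ (∀ k, k ≠ b₂ k → ∃ y, g y = k) ∧ (∀ y, ¬ π₂ (g y) < g y) := by
  have hst := step_of_fits h₁.inc ht hτ
  obtain ⟨hG, hF, hbot, htop⟩ := term_shape h₁ hne hs hf hg hfi hgj hst
  have hc := h₁.inc.count (i := i) (j := j) (Finset.univ.image g) (pmap f g τ) (pmap_injOn hf hg)
    (by
      intro a ha
      obtain ⟨y, -, rfl⟩ := Finset.mem_image.1 ha
      exact hgj y)
    (by
      intro a ha
      obtain ⟨y, -, rfl⟩ := Finset.mem_image.1 ha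
      rw [pmap_apply hg]
      exact hfi _)
    (by
      intro a ha
      obtain ⟨y, -, rfl⟩ := Finset.mem_image.1 ha
      rw [pmap_apply hg]
      exact hst y)
  rw [image_card hg] at hc
  have hv2 : rk v i j < rk (u * π₂) i j := by
    by_contra h3
    have := hV' i j (not_lt.1 h3)
    omega
  have ht2 : ∀ y, ¬ π₂ (g y) < g y := fun y h3 => ht y ((hT _).2 h3)
  -- the values of `π₂`
  have hval : ∀ y, π₂ (g y) ∈ Finset.univ.image f := by
    intro y
    rw [hF]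
    by_cases h3 : g y ≠ b₂ (g y)
    · obtain ⟨h4, h5⟩ := h₂.used hv2 h3
      by_cases h6 : π₂ (g y) ≠ b₂ (π₂ (g y))
      · exact Or.inl ⟨(h₂.used hv2 h6).1, h5⟩
      · right
        rw [hT]
        by_contra h7
        have h8 := h₂.inc.fix h7 h6
        have h9 := (h₂.inc.up _ h3).1
        rw [π₂.injective h8] at h9
        exact lt_irrefl _ h9
    · have h4 := h₂.inc.fix (ht2 y) h3
      rw [h4]
      left
      refine ⟨hgj y, ?_⟩
      have h5 := (hG (g y)).1 (Finset.mem_image_of_mem _ (Finset.mem_univ y))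
      rcases h5 with h5 | h5
      · exact h5.2
      · rw [hB] at h5
        exact absurd (h₂.inc.le_of_lt_symm h5) h3
  have hval' : ∀ y, ∃ z, f z = π₂ (g y) := by
    intro y
    obtain ⟨z, -, hz⟩ := Finset.mem_image.1 (hval y)
    exact ⟨z, hz⟩
  choose t ht' using hval'
  have htinj : Function.Injective t := by
    intro x y hxy
    apply hg
    apply π₂.injective
    rw [← ht', ← ht', hxy]
  refine ⟨Equiv.ofBijective t (Finite.injective_iff_bijective.1 htinj), fun y => ht' y, ?_, ht2⟩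
  intro k hk
  have h3 := h₂.used hv2 hk
  have h4 : k ∈ Finset.univ.image g := by
    rw [hG]
    by_cases h5 : k < π₁.symm k
    · exact Or.inr h5
    · left
      refine ⟨h3.1, ?_⟩
      rw [hB, not_lt] at h5
      have h6 : π₂.symm k ≠ b₂ (π₂.symm k) := by
        rw [← h₂.inc.lt_iff, Equiv.apply_symm_apply]
        rcases lt_or_eq_of_le h5 with h6 | h6
        · exact h6
        · exfalso
          have h7 : π₂ k = k := by
            conv_lhs => rw [← h6]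
            rw [Equiv.apply_symm_apply]
          have h8 := (h₂.inc.up k hk).1
          rw [h7] at h8
          exact lt_irrefl _ h8
      have h7 := (h₂.used hv2 h6).2
      rwa [Equiv.apply_symm_apply] at h7
  obtain ⟨y, -, hy⟩ := Finset.mem_image.1 h4
  exact ⟨y, hy⟩

/-- restriction of `π₁` to the non tops -/
def res₁ (π₁ : Equiv.Perm (Fin n)) : {a // ¬ π₁ a < a} ≃ {x // ¬ x < π₁.symm x} :=
  π₁.subtypeEquiv (fun a => by rw [Equiv.symm_apply_apply])

/-- restriction of `π₂` to the non tops -/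
def res₂ (hT : ∀ k, π₁ k < k ↔ π₂ k < k) (hB : ∀ k, k < π₁.symm k ↔ k < π₂.symm k) :
    {a // ¬ π₁ a < a} ≃ {x // ¬ x < π₁.symm x} :=
  π₂.subtypeEquiv (fun a => by rw [hT, hB, Equiv.symm_apply_apply])

/-- the permutation of the non tops -/
def theta0 (hT : ∀ k, π₁ k < k ↔ π₂ k < k) (hB : ∀ k, k < π₁.symm k ↔ k < π₂.symm k) :
    Equiv.Perm {a // ¬ π₁ a < a} :=
  (res₁ π₁).trans (res₂ hT hB).symm

theorem theta0_spec (hT : ∀ k, π₁ k < k ↔ π₂ k < k) (hB : ∀ k, k < π₁.symm k ↔ k < π₂.symm k)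
    (a : {a // ¬ π₁ a < a}) : π₂ (theta0 hT hB a).1 = π₁ a.1 := by
  have h1 : res₂ hT hB (theta0 hT hB a) = res₁ π₁ a := by
    rw [theta0, Equiv.trans_apply, Equiv.apply_symm_apply]
  exact congrArg Subtype.val h1

theorem sign_rel (h₁ : Inc u π₁ b₁) (h₂ : Inc u π₂ b₂) (hT : ∀ k, π₁ k < k ↔ π₂ k < k)
    (hB : ∀ k, k < π₁.symm k ↔ k < π₂.symm k) (hf : Function.Injective f)
    (hg : Function.Injective g) (ht : ∀ y, ¬ π₁ (g y) < g y) (hτ : Fits π₁ f g τ)
    (hcov : ∀ k, k ≠ b₁ k → ∃ y, g y = k) (hτ₂ : Fits π₂ f g τ₂)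
    (hcov₂ : ∀ k, k ≠ b₂ k → ∃ y, g y = k) :
    Equiv.Perm.sign τ = Equiv.Perm.sign (theta0 hT hB) * Equiv.Perm.sign τ₂ := by
  have key : Equiv.Perm.sign (τ₂⁻¹ * τ) = Equiv.Perm.sign (theta0 hT hB) := by
    have hval : ∀ y, (theta0 hT hB ⟨g y, ht y⟩).1 = g ((τ₂⁻¹ * τ) y) := by
      intro y
      apply π₂.injective
      rw [theta0_spec, ← hτ₂, ← hτ y]
      simp
    apply Equiv.Perm.sign_bij (fun y _ => (⟨g y, ht y⟩ : {a // ¬ π₁ a < a}))
    · intro y _ _
      apply Subtype.ext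
      exact (hval y).symm
    · intro x y _ _ hxy
      exact hg (congrArg Subtype.val hxy)
    · intro a ha
      have h3 : ∃ y, g y = a.1 := by
        by_cases h4 : a.1 ≠ b₁ a.1
        · exact hcov _ h4
        by_cases h5 : a.1 ≠ b₂ a.1
        · exact hcov₂ _ h5
        exfalso
        apply ha
        apply Subtype.ext
        apply π₂.injective
        have h6 : ¬ π₂ a.1 < a.1 := fun h7 => a.2 ((hT _).2 h7)
        rw [theta0_spec, h₁.fix a.2 h4, h₂.fix h6 h5]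
      obtain ⟨y, hy⟩ := h3
      have h4 : (⟨g y, ht y⟩ : {a // ¬ π₁ a < a}) = a := Subtype.ext hy
      refine ⟨y, ?_, h4⟩
      intro h5
      apply ha
      rw [← h4]
      apply Subtype.ext
      rw [hval y, h5]
  rw [← key, Equiv.Perm.sign_mul, Equiv.Perm.sign_inv, mul_comm (Equiv.Perm.sign τ₂), mul_assoc,
    Int.units_mul_self, mul_one]

end

end Pool.Agent.H30.KL
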