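import Pool.Agent.H30.KL.Gen.Exp

/-!
# Reducible pairs (GEN-3a: `red_C`)

The hypothesis `BruhatLE u v` makes `C` and `R` nonempty (the statement is false for `C = R = ∅`, `u ≰ v`).

`red_C`.  Write `W = NWs u i j`, `(i',j')` weakly below and to the left (`i' ≤ i`, `j' ≤ j`), `Y = {k ≤ j' | i' ≤ u k < i}`, `Y' = Y \ C`.
Note `NWs u i' j' = {k ∈ W | k ≤ j'} ∪ Y`.
Step 1 (`red_C1`): for `X ⊆ Y'` (induction on `X`): `InK (W ∪ R ∪ X) (W ∪ C ∪ X)` implies `InK (W ∪ R) (W ∪ C)`: `InK.add` with `x ∈ Y'`; the other terms by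
`low_rows` for the box `(i,j)` (rows `W ∪ R`, all the columns are `≤ j`, the height is `h - x + a < h`).
Step 2: all the rows of `F2 = W ∪ R ∪ Y'` are `≥ i'`; the columns `≤ j'` of `G2 = W ∪ C ∪ Y'` are `{k ∈ W | k ≤ j'} ∪ {c ∈ C | c ≤ j'} ∪ Y'`
`= NWs u i' j' ∪ {c ∈ C | c ≤ j', u c < i'}`, more than `rk v i' j'`.  If some `a ∈ C` has `j' < a`: `InK.col` with `x = a` (`a ∉ F2`), `low_cols` for `(i',j')`.
Otherwise remove the `a ∈ W` with `j' < a` one by one: `InK.col`, `low_cols` for the other terms.  Remaining: `F3 = {k ∈ W | k ≤ j'} ∪ R ∪ Y'`,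
`G3 = {k ∈ W | k ≤ j'} ∪ C ∪ Y'`.  If there is `y0 ∈ C ∩ Y` (i.e. `i' ≤ u y0`): `InK.repc`, `hL` for `(i',j')`.  Otherwise `C ⊆ SWs u i' j'`, `F3 = NWs u i' j' ∪ R`,
`G3 = NWs u i' j' ∪ C`, and `rk v i' j' + 1 < rk u i' j' + C.card` by `hbad`, `hnot`: `InK.row` along some `r ∈ R` (`R` is not empty, `r ∉ G3`), `hL` for `(i',j')`.
All the heights are `hs F G = h` (adding or removing the same vertex on both sides does not change `hs`) minus something positive.

`red_R` is the mirror image: rows and columns exchanged, `i ≤ i'`, `j ≤ j'`, `X = {k | j < k ≤ j', i' ≤ u k}`, `X' = X \ R`, `InK.add'` and `low_cols` for `(i,j)` in step 1;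
in step 2 `InK.row` for `r ∈ R` with `u r < i'` and then for the `k ∈ W` with `u k < i'`, `low_rows` for `(i',j')`; `InK.repr` for `x0 ∈ R`, `x0 ≤ j'`; `InK.col` along some `c ∈ C`.
-/

open MvPolynomial Matrix

namespace Pool.Agent.H30.KL

variable {n : ℕ} {u v : Equiv.Perm (Fin n)} {K : Ideal (MvPolynomial (Free u) ℂ)}

theorem redC_sum_erase {F : Finset (Fin n)} {b : Fin n} (hb : b ∈ F) :
    ∑ x ∈ F.erase b, ((x : ℕ) : ℤ) = ∑ x ∈ F, ((x : ℕ) : ℤ) - ((b : ℕ) : ℤ) := by
  have h1 := Finset.sum_erase_add F (fun x : Fin n => ((x : ℕ) : ℤ)) hb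
  omega

theorem redC_hs_erase {F G : Finset (Fin n)} {a b : Fin n} (hb : b ∈ F) (ha : a ∈ G) :
    hs (F.erase b) (G.erase a) = hs F G - ((b : ℕ) : ℤ) + ((a : ℕ) : ℤ) := by
  unfold hs
  rw [redC_sum_erase hb, redC_sum_erase ha]
  ring

theorem redC_hs_insert {F G : Finset (Fin n)} {a b : Fin n} (hb : b ∉ F) (ha : a ∉ G) :
    hs (insert b F) (insert a G) = hs F G + ((b : ℕ) : ℤ) - ((a : ℕ) : ℤ) := by
  unfold hs
  rw [Finset.sum_insert hb, Finset.sum_insert ha]
  ring

theorem redC_hs_union {F G X : Finset (Fin n)} (hF : Disjoint X F) (hG : Disjoint X G) :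
    hs (F ∪ X) (G ∪ X) = hs F G := by
  unfold hs
  rw [Finset.sum_union hF.symm, Finset.sum_union hG.symm]
  ring

theorem redC_hs_sdiff {F G X : Finset (Fin n)} (hF : X ⊆ F) (hG : X ⊆ G) :
    hs (F \ X) (G \ X) = hs F G := by
  have h1 := Finset.sum_sdiff (f := fun x : Fin n => ((x : ℕ) : ℤ)) hF
  have h2 := Finset.sum_sdiff (f := fun x : Fin n => ((x : ℕ) : ℤ)) hG
  unfold hs
  omega

/-- adding vertices on both sides -/
theorem redC_add {h : ℤ} (hL : Low u v K h) {i j : Fin n} (X : Finset (Fin n)) :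
    ∀ F G : Finset (Fin n), rk v i j < (F.filter fun x => i ≤ u x).card → (∀ y ∈ G, y ≤ j) →
      hs F G ≤ h → Disjoint X F → Disjoint X G → (∀ x ∈ X, x ≤ j) →
      InK u K (F ∪ X) (G ∪ X) → InK u K F G := by
  induction X using Finset.induction_on with
  | empty =>
    intro F G _ _ _ _ _ _ h1
    simpa using h1
  | insert x X hx ih =>
    intro F G hF hG hh hXF hXG hX h1
    rw [Finset.disjoint_insert_left] at hXF hXG
    have e1 : F ∪ insert x X = insert x F ∪ X := by
      rw [Finset.union_insert, Finset.insert_union]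
    have e2 : G ∪ insert x X = insert x G ∪ X := by
      rw [Finset.union_insert, Finset.insert_union]
    rw [e1, e2] at h1
    have hxj : x ≤ j := hX x (Finset.mem_insert_self _ _)
    have h2 : InK u K (insert x F) (insert x G) := by
      apply ih (insert x F) (insert x G) _ _ _ _ _ _ h1
      · exact lt_of_lt_of_le hF (Finset.card_le_card
          (Finset.filter_subset_filter _ (Finset.subset_insert _ _)))
      · intro y hy
        rcases Finset.mem_insert.1 hy with rfl | hy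
        · exact hxj
        · exact hG y hy
      · rw [redC_hs_insert hXF.1 hXG.1]
        omega
      · rw [Finset.disjoint_insert_right]
        exact ⟨hx, hXF.2⟩
      · rw [Finset.disjoint_insert_right]
        exact ⟨hx, hXG.2⟩
      · intro y hy
        exact hX y (Finset.mem_insert_of_mem hy)
    apply InK.add hXF.1 hXG.1 h2
    intro a ha hax _
    apply low_rows hL hF
    · intro y hy
      rcases Finset.mem_insert.1 (Finset.mem_of_mem_erase hy) with rfl | hy
      · exact hxj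
      · exact hG y hy
    · have h3 : hs F ((insert x G).erase a) = hs F G - ((x : ℕ) : ℤ) + ((a : ℕ) : ℤ) := by
        unfold hs
        rw [redC_sum_erase (Finset.mem_insert_of_mem ha), Finset.sum_insert hXG.1]
        ring
      have h4 : ((a : ℕ) : ℤ) < ((x : ℕ) : ℤ) := by exact_mod_cast hax
      omega

/-- removing a column on the right of the box -/
theorem redC_col {h : ℤ} (hL : Low u v K h) {i j : Fin n} {F G : Finset (Fin n)}
    (hF : ∀ x ∈ F, i ≤ u x) (hG : rk v i j < (G.filter fun y => y ≤ j).card) (hh : hs F G ≤ h)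
    {x : Fin n} (hx : x ∈ G) (hxj : j < x) (h1 : x ∈ F → InK u K (F.erase x) (G.erase x)) :
    InK u K F G := by
  apply InK.col hx h1
  intro b hb hxb _
  apply low_cols hL (i := i) (j := j)
  · intro y hy
    exact hF y (Finset.mem_of_mem_erase hy)
  · apply lt_of_lt_of_le hG
    apply Finset.card_le_card
    intro y hy
    rw [Finset.mem_filter] at hy ⊢
    refine ⟨Finset.mem_erase.2 ⟨?_, hy.1⟩, hy.2⟩
    rintro rfl
    exact absurd hy.2 (not_le.2 hxj)
  · rw [redC_hs_erase hb hx]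
    have h4 : ((x : ℕ) : ℤ) < ((b : ℕ) : ℤ) := by exact_mod_cast hxb
    omega

theorem redC_sdiff {h : ℤ} (hL : Low u v K h) {i j : Fin n} (X : Finset (Fin n)) :
    ∀ F G : Finset (Fin n), (∀ x ∈ F, i ≤ u x) → rk v i j < (G.filter fun y => y ≤ j).card →
      hs F G ≤ h → X ⊆ F → X ⊆ G → (∀ x ∈ X, j < x) →
      InK u K (F \ X) (G \ X) → InK u K F G := by
  induction X using Finset.induction_on with
  | empty =>
    intro F G _ _ _ _ _ _ h1
    simpa using h1
  | insert x X hx ih =>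
    intro F G hF hG hh hXF hXG hX h1
    rw [Finset.insert_subset_iff] at hXF hXG
    have hxj : j < x := hX x (Finset.mem_insert_self _ _)
    apply redC_col hL hF hG hh hXG.1 hxj
    intro _
    have e1 : ∀ F : Finset (Fin n), F \ insert x X = F.erase x \ X := by
      intro F
      ext y
      simp only [Finset.mem_sdiff, Finset.mem_insert, Finset.mem_erase]
      tauto
    rw [e1, e1] at h1
    apply ih (F.erase x) (G.erase x) _ _ _ _ _ _ h1
    · intro y hy
      exact hF y (Finset.mem_of_mem_erase hy)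
    · apply lt_of_lt_of_le hG
      apply Finset.card_le_card
      intro y hy
      rw [Finset.mem_filter] at hy ⊢
      refine ⟨Finset.mem_erase.2 ⟨?_, hy.1⟩, hy.2⟩
      rintro rfl
      exact absurd hy.2 (not_le.2 hxj)
    · rw [redC_hs_erase hXF.1 hXG.1]
      omega
    · intro y hy
      refine Finset.mem_erase.2 ⟨?_, hXF.2 hy⟩
      rintro rfl
      exact hx hy
    · intro y hy
      refine Finset.mem_erase.2 ⟨?_, hXG.2 hy⟩
      rintro rfl
      exact hx hy
    · intro y hy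
      exact hX y (Finset.mem_insert_of_mem hy)

theorem red_C (huv : BruhatLE u v) {h : ℤ} (hL : Low u v K h) {i j : Fin n}
    {C R : Finset (Fin n)}
    (hC : C ⊆ SWs u i j) (hR : R ⊆ NEs u i j) (hCR : C.card = R.card)
    (hrk : rk u i j + C.card = rk v i j + 1) (hh : hs (NWs u i j ∪ R) (NWs u i j ∪ C) ≤ h)
    {i' j' : Fin n} (hi : i' ≤ i) (hj : j' ≤ j)
    (hbad : rk v i' j' < rk u i' j' + (C.filter fun c => c ≤ j' ∧ u c < i').card)
    (hnot : ¬ (C ⊆ SWs u i' j' ∧ rk u i' j' + C.card = rk v i' j' + 1)) :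
    InK u K (NWs u i j ∪ R) (NWs u i j ∪ C) := by
  have hRne : R.Nonempty := by
    rw [← Finset.card_pos]
    have h1 := huv i j
    omega
  have hC' : ∀ c ∈ C, c ≤ j ∧ u c < i := fun c hc => mem_SWs.1 (hC hc)
  have hR' : ∀ r ∈ R, j < r ∧ i ≤ u r := fun r hr => mem_NEs.1 (hR hr)
  have dWR : Disjoint (NWs u i j) R := by
    rw [Finset.disjoint_left]
    intro k hk hk'
    exact absurd (mem_NWs.1 hk).1 (not_le.2 (hR' k hk').1)
  have dWC : Disjoint (NWs u i j) C := by
    rw [Finset.disjoint_left]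
    intro k hk hk'
    exact absurd (mem_NWs.1 hk).2 (not_le.2 (hC' k hk').2)
  have cWR : (NWs u i j ∪ R).card = rk v i j + 1 := by
    rw [Finset.card_union_of_disjoint dWR, card_NWs, ← hCR, hrk]
  have cWC : (NWs u i j ∪ C).card = rk v i j + 1 := by
    rw [Finset.card_union_of_disjoint dWC, card_NWs, hrk]
  -- step 1
  obtain ⟨Y, hY⟩ : ∃ Y : Finset (Fin n), ∀ k, k ∈ Y ↔ (k ≤ j' ∧ i' ≤ u k ∧ u k < i) ∧ k ∉ C :=
    ⟨(Finset.univ.filter fun k => k ≤ j' ∧ i' ≤ u k ∧ u k < i) \ C, fun k => by simp⟩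
  have dYR : Disjoint Y (NWs u i j ∪ R) := by
    rw [Finset.disjoint_left]
    intro k hk hk'
    have h1 := ((hY k).1 hk).1.2.2
    rcases Finset.mem_union.1 hk' with h2 | h2
    · exact absurd (mem_NWs.1 h2).2 (not_le.2 h1)
    · exact absurd (hR' k h2).2 (not_le.2 h1)
  have dYC : Disjoint Y (NWs u i j ∪ C) := by
    rw [Finset.disjoint_left]
    intro k hk hk'
    have h1 := ((hY k).1 hk).1.2.2
    rcases Finset.mem_union.1 hk' with h2 | h2
    · exact absurd (mem_NWs.1 h2).2 (not_le.2 h1)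
    · exact ((hY k).1 hk).2 h2
  have hs2 : hs (NWs u i j ∪ R ∪ Y) (NWs u i j ∪ C ∪ Y) ≤ h := by
    rw [redC_hs_union dYR dYC]
    exact hh
  apply redC_add hL (i := i) (j := j) Y _ _ _ _ hh dYR dYC
  · intro x hx
    exact le_trans ((hY x).1 hx).1.1 hj
  rotate_left
  · rw [Finset.filter_true_of_mem, cWR]
    · exact Nat.lt_succ_self _
    · intro x hx
      rcases Finset.mem_union.1 hx with h2 | h2
      · exact (mem_NWs.1 h2).2
      · exact (hR' x h2).2
  · intro x hx
    rcases Finset.mem_union.1 hx with h2 | h2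
    · exact (mem_NWs.1 h2).1
    · exact (hC' x h2).1
  -- step 2
  have hF2 : ∀ x ∈ NWs u i j ∪ R ∪ Y, i' ≤ u x := by
    intro x hx
    rcases Finset.mem_union.1 hx with hx | hx
    · rcases Finset.mem_union.1 hx with h2 | h2
      · exact le_trans hi (mem_NWs.1 h2).2
      · exact le_trans hi (hR' x h2).2
    · exact ((hY x).1 hx).1.2.1
  have hsub : NWs u i' j' ∪ (C.filter fun c => c ≤ j' ∧ u c < i') ⊆
      (NWs u i j ∪ C ∪ Y).filter fun y => y ≤ j' := by
    intro k hk
    rw [Finset.mem_filter]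
    rcases Finset.mem_union.1 hk with hk | hk
    · have h1 := mem_NWs.1 hk
      refine ⟨?_, h1.1⟩
      rw [Finset.mem_union, Finset.mem_union]
      by_cases h2 : i ≤ u k
      · exact Or.inl (Or.inl (mem_NWs.2 ⟨le_trans h1.1 hj, h2⟩))
      · by_cases h3 : k ∈ C
        · exact Or.inl (Or.inr h3)
        · exact Or.inr ((hY k).2 ⟨⟨h1.1, h1.2, not_le.1 h2⟩, h3⟩)
    · rw [Finset.mem_filter] at hk
      refine ⟨?_, hk.2.1⟩
      rw [Finset.mem_union, Finset.mem_union]
      exact Or.inl (Or.inr hk.1)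
  have hcard1 : (NWs u i' j' ∪ (C.filter fun c => c ≤ j' ∧ u c < i')).card =
      rk u i' j' + (C.filter fun c => c ≤ j' ∧ u c < i').card := by
    rw [Finset.card_union_of_disjoint, card_NWs]
    rw [Finset.disjoint_left]
    intro k hk hk'
    exact absurd (mem_NWs.1 hk).2 (not_le.2 (Finset.mem_filter.1 hk').2.2)
  have hG2 : rk v i' j' < ((NWs u i j ∪ C ∪ Y).filter fun y => y ≤ j').card := by
    have h1 := Finset.card_le_card hsub
    omega
  by_cases hA : ∃ a ∈ C, j' < a
  · obtain ⟨a, haC, haj⟩ := hA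
    apply redC_col hL hF2 hG2 hs2 (x := a) _ haj
    · intro ha
      exfalso
      rcases Finset.mem_union.1 ha with ha | ha
      · rcases Finset.mem_union.1 ha with h2 | h2
        · exact absurd (mem_NWs.1 h2).2 (not_le.2 (hC' a haC).2)
        · exact absurd (hR' a h2).2 (not_le.2 (hC' a haC).2)
      · exact ((hY a).1 ha).2 haC
    · rw [Finset.mem_union, Finset.mem_union]
      exact Or.inl (Or.inr haC)
  push Not at hA
  obtain ⟨X, hX⟩ : ∃ X : Finset (Fin n), ∀ k, k ∈ X ↔ k ∈ NWs u i j ∧ j' < k :=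
    ⟨(NWs u i j).filter fun k => j' < k, fun k => by rw [Finset.mem_filter]⟩
  have hXF : X ⊆ NWs u i j ∪ R ∪ Y := by
    intro k hk
    rw [Finset.mem_union, Finset.mem_union]
    exact Or.inl (Or.inl ((hX k).1 hk).1)
  have hXG : X ⊆ NWs u i j ∪ C ∪ Y := by
    intro k hk
    rw [Finset.mem_union, Finset.mem_union]
    exact Or.inl (Or.inl ((hX k).1 hk).1)
  apply redC_sdiff hL (i := i') (j := j') X _ _ hF2 hG2 hs2 hXF hXG
    (fun x hx => ((hX x).1 hx).2)
  have hcFG : ((NWs u i j ∪ R ∪ Y) \ X).card = ((NWs u i j ∪ C ∪ Y) \ X).card := by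
    rw [Finset.card_sdiff_of_subset hXF, Finset.card_sdiff_of_subset hXG,
      Finset.card_union_of_disjoint dYR.symm, Finset.card_union_of_disjoint dYC.symm, cWR, cWC]
  have hs3 : hs ((NWs u i j ∪ R ∪ Y) \ X) ((NWs u i j ∪ C ∪ Y) \ X) ≤ h := by
    rw [redC_hs_sdiff hXF hXG]
    exact hs2
  have hsub3 : ((NWs u i j ∪ C ∪ Y).filter fun y => y ≤ j') ⊆ (NWs u i j ∪ C ∪ Y) \ X := by
    intro k hk
    rw [Finset.mem_filter] at hk
    rw [Finset.mem_sdiff]
    exact ⟨hk.1, fun h1 => absurd hk.2 (not_le.2 ((hX k).1 h1).2)⟩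
  have hF3 : ∀ x ∈ (NWs u i j ∪ R ∪ Y) \ X, i' ≤ u x := fun x hx =>
    hF2 x (Finset.mem_sdiff.1 hx).1
  have hG3 : ∀ y ∈ (NWs u i j ∪ C ∪ Y) \ X, y ≤ j' := by
    intro y hy
    rw [Finset.mem_sdiff] at hy
    rcases Finset.mem_union.1 hy.1 with h1 | h1
    · rcases Finset.mem_union.1 h1 with h2 | h2
      · by_contra h3
        exact hy.2 ((hX y).2 ⟨h2, not_le.1 h3⟩)
      · exact hA y h2
    · exact ((hY y).1 h1).1.1
  have hcG3 := Finset.card_le_card (hsub.trans hsub3)
  by_cases hB : ∃ y ∈ C, i' ≤ u y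
  · obtain ⟨y, hyC, hyu⟩ := hB
    have hyF : y ∉ (NWs u i j ∪ R ∪ Y) \ X := by
      intro h1
      rcases Finset.mem_union.1 (Finset.mem_sdiff.1 h1).1 with ha | ha
      · rcases Finset.mem_union.1 ha with h2 | h2
        · exact absurd (mem_NWs.1 h2).2 (not_le.2 (hC' y hyC).2)
        · exact absurd (hR' y h2).2 (not_le.2 (hC' y hyC).2)
      · exact ((hY y).1 ha).2 hyC
    apply InK.repc hyF
    · rw [Finset.mem_sdiff]
      refine ⟨?_, fun h1 => absurd (hA y hyC) (not_le.2 ((hX y).1 h1).2)⟩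
      rw [Finset.mem_union, Finset.mem_union]
      exact Or.inl (Or.inr hyC)
    · intro b hb hyb _
      apply hL i' j'
      · intro x hx
        rcases Finset.mem_insert.1 (Finset.mem_of_mem_erase hx) with rfl | hx
        · exact hyu
        · exact hF3 x hx
      · exact hG3
      · rw [Finset.card_erase_of_mem (Finset.mem_insert_of_mem hb), Finset.card_insert_of_notMem hyF]
        omega
      · have h3 : hs ((insert y ((NWs u i j ∪ R ∪ Y) \ X)).erase b) ((NWs u i j ∪ C ∪ Y) \ X) =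
            hs ((NWs u i j ∪ R ∪ Y) \ X) ((NWs u i j ∪ C ∪ Y) \ X) + ((y : ℕ) : ℤ) -
              ((b : ℕ) : ℤ) := by
          unfold hs
          rw [redC_sum_erase (Finset.mem_insert_of_mem hb), Finset.sum_insert hyF]
          ring
        have h4 : ((y : ℕ) : ℤ) < ((b : ℕ) : ℤ) := by exact_mod_cast hyb
        omega
  · push Not at hB
    have hCS : C ⊆ SWs u i' j' := fun c hc => mem_SWs.2 ⟨hA c hc, hB c hc⟩
    have hfil : (C.filter fun c => c ≤ j' ∧ u c < i') = C :=
      Finset.filter_true_of_mem fun c hc => ⟨hA c hc, hB c hc⟩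
    rw [hfil] at hbad hcard1 hcG3
    have hne : rk u i' j' + C.card ≠ rk v i' j' + 1 := fun h1 => hnot ⟨hCS, h1⟩
    obtain ⟨r, hr⟩ := hRne
    have hrF : r ∈ (NWs u i j ∪ R ∪ Y) \ X := by
      rw [Finset.mem_sdiff]
      refine ⟨?_, fun h1 => absurd (mem_NWs.1 ((hX r).1 h1).1).1 (not_le.2 (hR' r hr).1)⟩
      rw [Finset.mem_union, Finset.mem_union]
      exact Or.inl (Or.inr hr)
    apply InK.row hrF
    · intro h1
      exact absurd (le_trans (hG3 r h1) hj) (not_le.2 (hR' r hr).1)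
    · intro a ha har _
      apply hL i' j'
      · intro x hx
        exact hF3 x (Finset.mem_of_mem_erase hx)
      · intro x hx
        exact hG3 x (Finset.mem_of_mem_erase hx)
      · rw [Finset.card_erase_of_mem hrF]
        omega
      · rw [redC_hs_erase hrF ha]
        have h4 : ((a : ℕ) : ℤ) < ((r : ℕ) : ℤ) := by exact_mod_cast har
        omega

end Pool.Agent.H30.KL
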