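import Pool.Agent.H30.KL.Gen.Exp

/-!
# Reducible pairs (GEN-3b: `red_R`)

`red_C`.  Write `W = NWs u i j`, `(i',j')` weakly below and to the left (`i' ≤ i`, `j' ≤ j`), `Y = {k ≤ j' | i' ≤ u k < i}`, `Y' = Y \ C`.
Note `NWs u i' j' = {k ∈ W | k ≤ j'} ∪ Y`.
Step 1 (`red_C1`): for `X ⊆ Y'` (induction on `X`): `InK (W ∪ R ∪ X) (W ∪ C ∪ X)` implies `InK (W ∪ R) (W ∪ C)`: `InK.add` with `x ∈ Y'`; the other terms by
`low_rows` for the box `(i,j)` (rows `W ∪ R`, all the columns are `≤ j`, the height is `h - x + a < h`).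
Step 2: all the rows of `F2 = W ∪ R ∪ Y'` are `≥ i'`; the columns `≤ j'` of `G2 = W ∪ C ∪ Y'` are `{k ∈ W | k ≤ j'} ∪ {c ∈ C | c ≤ j'} ∪ Y'`
`= NWs u i' j' ∪ {c ∈ C | c ≤ j', u c < i'}`, more than `rk v i' j'`.  If some `a ∈ C` has `j' < a`: `InK.col` with `x = a` (`a ∉ F2`), `low_cols` for `(i',j')`.
Otherwise remove the `a ∈ W` with `j' < a` one by one: `InK.col`, `low_cols` for the other terms.  Remaining: `F3 = {k ∈ W | k ≤ j'} ∪ R ∪ Y'`,
`G3 = {k ∈ W | k ≤ j'} ∪ C ∪ Y'`.  If there is `y0 ∈ C ∩ Y` (i.e. `i' ≤ u y0`): `InK.repc`, `hL` for `(i',j')`.  Otherwise `C ⊆ SWs u i' j'`, `F3 = NWs u i' j' ∪ R`,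
`G3 = NWs u i' j' ∪ C`, and `rk v i' j' + 1 < rk u i' j' + C.card` by `hbad`, `hnot`: `InK.row` along some `r ∈ R` (`R` is not empty, `r ∉ G3`), `hL` for `(i',j')`.
All the heights are `hs F G = h` (adding or removing the same vertex on both sides does not change `hs`) minus something positive.

`red_R` is the mirror image: rows and columns exchanged, `i ≤ i'`, `j ≤ j'`, `X = {k | j < k ≤ j', i' ≤ u k}`, `X' = X \ R`, `InK.add'` and `low_cols` for `(i,j)` in step 1;
in step 2 `InK.row` for `r ∈ R` with `u r < i'` and then for the `k ∈ W` with `u k < i'`, `low_rows` for `(i',j')`; `InK.repr` for `x0 ∈ R`, `x0 ≤ j'`; `InK.col` along some `c ∈ C`.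
-/

open MvPolynomial Matrix

namespace Pool.Agent.H30.KL

variable {n : ℕ} {u v : Equiv.Perm (Fin n)} {K : Ideal (MvPolynomial (Free u) ℂ)}

theorem hs_union_R {F G X : Finset (Fin n)} (hF : Disjoint F X) (hG : Disjoint G X) :
    hs (F ∪ X) (G ∪ X) = hs F G := by
  unfold hs
  rw [Finset.sum_union hF, Finset.sum_union hG]
  ring

theorem hs_sdiff_R {F G Z : Finset (Fin n)} (hF : Z ⊆ F) (hG : Z ⊆ G) :
    hs (F \ Z) (G \ Z) = hs F G := by
  unfold hs
  have h1 := Finset.sum_sdiff hF (f := fun x : Fin n => ((x : ℕ) : ℤ))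
  have h2 := Finset.sum_sdiff hG (f := fun x : Fin n => ((x : ℕ) : ℤ))
  linarith

theorem hs_erase_R {F G : Finset (Fin n)} {x a : Fin n} (hx : x ∈ F) (ha : a ∈ G) :
    hs (F.erase x) (G.erase a) = hs F G - ((x : ℕ) : ℤ) + ((a : ℕ) : ℤ) := by
  unfold hs
  have h1 := Finset.add_sum_erase F (fun x : Fin n => ((x : ℕ) : ℤ)) hx
  have h2 := Finset.add_sum_erase G (fun x : Fin n => ((x : ℕ) : ℤ)) ha
  linarith

theorem hs_insert_R {F G : Finset (Fin n)} {x : Fin n} (hx : x ∉ F) (hG : x ∉ G) :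
    hs (insert x F) (insert x G) = hs F G := by
  unfold hs
  rw [Finset.sum_insert hx, Finset.sum_insert hG]
  ring

theorem hs_repF_R {F G : Finset (Fin n)} {x b : Fin n} (hx : x ∉ F) (hb : b ∈ F) :
    hs ((insert x F).erase b) G = hs F G + ((x : ℕ) : ℤ) - ((b : ℕ) : ℤ) := by
  unfold hs
  have h1 := Finset.add_sum_erase (insert x F) (fun x : Fin n => ((x : ℕ) : ℤ))
    (Finset.mem_insert_of_mem hb)
  rw [Finset.sum_insert hx] at h1
  linarith

theorem hs_repG_R {F G : Finset (Fin n)} {x a : Fin n} (hx : x ∉ G) (ha : a ∈ G) :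
    hs F ((insert x G).erase a) = hs F G - ((x : ℕ) : ℤ) + ((a : ℕ) : ℤ) := by
  unfold hs
  have h1 := Finset.add_sum_erase (insert x G) (fun x : Fin n => ((x : ℕ) : ℤ))
    (Finset.mem_insert_of_mem ha)
  rw [Finset.sum_insert hx] at h1
  linarith

theorem cast_lt_R {a b : Fin n} (h : a < b) : ((a : ℕ) : ℤ) < ((b : ℕ) : ℤ) := by
  exact_mod_cast h

/-- adding vertices on both sides, for the rank condition of `(i,j)` on the columns -/
theorem red_R1 {h : ℤ} (hL : Low u v K h) {i j : Fin n} (X : Finset (Fin n))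
    (hX : ∀ x ∈ X, i ≤ u x) : ∀ {F G : Finset (Fin n)}, (∀ x ∈ F, i ≤ u x) →
    rk v i j < (G.filter fun y => y ≤ j).card → hs F G ≤ h → Disjoint F X → Disjoint G X →
    InK u K (F ∪ X) (G ∪ X) → InK u K F G := by
  classical
  induction X using Finset.induction_on with
  | empty =>
    intro F G _ _ _ _ _ hfin
    simpa using hfin
  | @insert x X hxX ih =>
    intro F G hF hG hh hdF hdG hfin
    rw [Finset.disjoint_insert_right] at hdF hdG
    have hux : i ≤ u x := hX x (Finset.mem_insert_self _ _)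
    refine InK.add' hdF.1 hdG.1 ?_ ?_
    · refine ih (fun y hy => hX y (Finset.mem_insert_of_mem hy)) ?_ ?_ ?_ ?_ ?_ ?_
      · intro y hy
        rcases Finset.mem_insert.1 hy with rfl | hy
        · exact hux
        · exact hF y hy
      · refine lt_of_lt_of_le hG (Finset.card_le_card ?_)
        exact Finset.filter_subset_filter _ (Finset.subset_insert _ _)
      · rw [hs_insert_R hdF.1 hdG.1]
        exact hh
      · rw [Finset.disjoint_insert_left]
        exact ⟨hxX, hdF.2⟩
      · rw [Finset.disjoint_insert_left]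
        exact ⟨hxX, hdG.2⟩
      · have e1 : insert x F ∪ X = F ∪ insert x X := by
          rw [Finset.insert_union, Finset.union_insert]
        have e2 : insert x G ∪ X = G ∪ insert x X := by
          rw [Finset.insert_union, Finset.union_insert]
        rw [e1, e2]
        exact hfin
    · intro b hb hxb _
      refine low_cols hL (i := i) (j := j) ?_ hG ?_
      · intro y hy
        rcases Finset.mem_insert.1 (Finset.mem_of_mem_erase hy) with rfl | hy
        · exact hux
        · exact hF y hy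
      · rw [hs_repF_R hdF.1 hb]
        have := cast_lt_R hxb
        linarith

/-- removing vertices on both sides, for the rank condition of `(i,j)` on the rows -/
theorem red_R2 {h : ℤ} (hL : Low u v K h) {i j : Fin n} (Z : Finset (Fin n))
    (hZ : ∀ x ∈ Z, u x < i) : ∀ {F G : Finset (Fin n)}, (∀ y ∈ G, y ≤ j) →
    rk v i j < (F.filter fun x => i ≤ u x).card → hs F G ≤ h → Z ⊆ F → Z ⊆ G →
    InK u K (F \ Z) (G \ Z) → InK u K F G := by
  classical
  induction Z using Finset.induction_on with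
  | empty =>
    intro F G _ _ _ _ _ hfin
    simpa using hfin
  | @insert z Z hzZ ih =>
    intro F G hG hF hh hZF hZG hfin
    have hzF : z ∈ F := hZF (Finset.mem_insert_self _ _)
    have hzG : z ∈ G := hZG (Finset.mem_insert_self _ _)
    have huz : u z < i := hZ z (Finset.mem_insert_self _ _)
    have hF' : rk v i j < ((F.erase z).filter fun x => i ≤ u x).card := by
      refine lt_of_lt_of_le hF (Finset.card_le_card ?_)
      intro y hy
      rw [Finset.mem_filter] at hy ⊢
      refine ⟨Finset.mem_erase.2 ⟨?_, hy.1⟩, hy.2⟩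
      rintro rfl
      exact absurd hy.2 (not_le.2 huz)
    refine InK.row hzF ?_ ?_
    · intro _
      refine ih (fun y hy => hZ y (Finset.mem_insert_of_mem hy)) ?_ hF' ?_ ?_ ?_ ?_
      · intro y hy
        exact hG y (Finset.mem_of_mem_erase hy)
      · rw [hs_erase_R hzF hzG]
        linarith
      · intro y hy
        refine Finset.mem_erase.2 ⟨?_, hZF (Finset.mem_insert_of_mem hy)⟩
        rintro rfl
        exact hzZ hy
      · intro y hy
        refine Finset.mem_erase.2 ⟨?_, hZG (Finset.mem_insert_of_mem hy)⟩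
        rintro rfl
        exact hzZ hy
      · have e : ∀ A : Finset (Fin n), A.erase z \ Z = A \ insert z Z := by
          intro A
          ext y
          simp only [Finset.mem_sdiff, Finset.mem_erase, Finset.mem_insert, not_or]
          tauto
        rw [e, e]
        exact hfin
    · intro a ha haz _
      refine low_rows hL (i := i) (j := j) hF' ?_ ?_
      · intro y hy
        exact hG y (Finset.mem_of_mem_erase hy)
      · rw [hs_erase_R hzF ha]
        have := cast_lt_R haz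
        linarith

theorem red_R (huv : BruhatLE u v) {h : ℤ} (hL : Low u v K h) {i j : Fin n}
    {C R : Finset (Fin n)}
    (hC : C ⊆ SWs u i j) (hR : R ⊆ NEs u i j) (hCR : C.card = R.card)
    (hrk : rk u i j + C.card = rk v i j + 1) (hh : hs (NWs u i j ∪ R) (NWs u i j ∪ C) ≤ h)
    {i' j' : Fin n} (hi : i ≤ i') (hj : j ≤ j')
    (hbad : rk v i' j' < rk u i' j' + (R.filter fun r => j' < r ∧ i' ≤ u r).card)
    (hnot : ¬ (R ⊆ NEs u i' j' ∧ rk u i' j' + R.card = rk v i' j' + 1)) :
    InK u K (NWs u i j ∪ R) (NWs u i j ∪ C) := by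
  classical
  set W := NWs u i j with hW
  have mC : ∀ x ∈ C, x ≤ j ∧ u x < i := fun x hx => mem_SWs.1 (hC hx)
  have mR : ∀ x ∈ R, j < x ∧ i ≤ u x := fun x hx => mem_NEs.1 (hR hx)
  have mW : ∀ x, x ∈ W ↔ x ≤ j ∧ i ≤ u x := fun x => mem_NWs
  set X := (Finset.univ.filter fun k : Fin n => j < k ∧ k ≤ j' ∧ i' ≤ u k) \ R with hX
  have mX : ∀ x, x ∈ X ↔ (j < x ∧ x ≤ j' ∧ i' ≤ u x) ∧ x ∉ R := by
    intro x
    simp [hX]
  have dWC : Disjoint W C := by
    rw [Finset.disjoint_left]
    intro x hx hx'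
    exact absurd (mC x hx').2 (not_lt.2 ((mW x).1 hx).2)
  have dWR : Disjoint W R := by
    rw [Finset.disjoint_left]
    intro x hx hx'
    exact absurd (mR x hx').1 (not_lt.2 ((mW x).1 hx).1)
  have dF : Disjoint (W ∪ R) X := by
    rw [Finset.disjoint_left]
    intro x hx hx'
    have hx' := (mX x).1 hx'
    rcases Finset.mem_union.1 hx with hx | hx
    · exact absurd hx'.1.1 (not_lt.2 ((mW x).1 hx).1)
    · exact hx'.2 hx
  have dG : Disjoint (W ∪ C) X := by
    rw [Finset.disjoint_left]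
    intro x hx hx'
    have hx' := (mX x).1 hx'
    rcases Finset.mem_union.1 hx with hx | hx
    · exact absurd hx'.1.1 (not_lt.2 ((mW x).1 hx).1)
    · exact absurd hx'.1.1 (not_lt.2 (mC x hx).1)
  -- step 1
  refine red_R1 hL (i := i) (j := j) X ?_ ?_ ?_ hh dF dG ?_
  · intro x hx
    exact hi.trans ((mX x).1 hx).1.2.2
  · intro x hx
    rcases Finset.mem_union.1 hx with hx | hx
    · exact ((mW x).1 hx).2
    · exact (mR x hx).2
  · have e : (W ∪ C).filter (fun y => y ≤ j) = W ∪ C := by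
      rw [Finset.filter_eq_self]
      intro x hx
      rcases Finset.mem_union.1 hx with hx | hx
      · exact ((mW x).1 hx).1
      · exact (mC x hx).1
    rw [e, Finset.card_union_of_disjoint dWC, hW, card_NWs, hrk]
    exact Nat.lt_succ_self _
  -- step 2
  have hh2 : hs (W ∪ R ∪ X) (W ∪ C ∪ X) ≤ h := by
    rw [hs_union_R dF dG]
    exact hh
  have hcol : ∀ y ∈ W ∪ C ∪ X, y ≤ j' := by
    intro y hy
    rcases Finset.mem_union.1 hy with hy | hy
    · rcases Finset.mem_union.1 hy with hy | hy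
      · exact ((mW y).1 hy).1.trans hj
      · exact (mC y hy).1.trans hj
    · exact ((mX y).1 hy).1.2.1
  have hrow : rk v i' j' < ((W ∪ R ∪ X).filter fun x => i' ≤ u x).card := by
    have e : (W ∪ R ∪ X).filter (fun x => i' ≤ u x) =
        NWs u i' j' ∪ R.filter (fun r => j' < r ∧ i' ≤ u r) := by
      ext x
      simp only [Finset.mem_filter, Finset.mem_union, mW, mX, mem_NWs]
      constructor
      · rintro ⟨(⟨h1, h2⟩ | h1) | ⟨⟨h1, h2, h3⟩, h4⟩, h5⟩
        · exact Or.inl ⟨h1.trans hj, h5⟩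
        · rcases le_or_gt x j' with h6 | h6
          · exact Or.inl ⟨h6, h5⟩
          · exact Or.inr ⟨h1, h6, h5⟩
        · exact Or.inl ⟨h2, h5⟩
      · rintro (⟨h1, h2⟩ | ⟨h1, h2, h3⟩)
        · refine ⟨?_, h2⟩
          rcases le_or_gt x j with h6 | h6
          · exact Or.inl (Or.inl ⟨h6, hi.trans h2⟩)
          · by_cases h7 : x ∈ R
            · exact Or.inl (Or.inr h7)
            · exact Or.inr ⟨⟨h6, h1, h2⟩, h7⟩
        · exact ⟨Or.inl (Or.inr h1), h3⟩
    rw [e, Finset.card_union_of_disjoint, card_NWs]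
    · exact hbad
    · rw [Finset.disjoint_left]
      intro x hx hx'
      exact absurd (Finset.mem_filter.1 hx').2.1 (not_lt.2 (mem_NWs.1 hx).1)
  by_cases hr : ∃ r ∈ R, u r < i'
  · obtain ⟨r, hr, hur⟩ := hr
    have hrF : r ∈ W ∪ R ∪ X := by
      simp [hr]
    have hrG : r ∉ W ∪ C ∪ X := by
      simp only [Finset.mem_union, mW, mX]
      rintro ((⟨h1, h2⟩ | h1) | ⟨h1, h2⟩)
      · exact absurd (mR r hr).1 (not_lt.2 h1)
      · exact absurd (mR r hr).1 (not_lt.2 (mC r h1).1)
      · exact h2 hr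
    refine InK.row hrF (fun h1 => absurd h1 hrG) ?_
    intro a ha har _
    refine low_rows hL (i := i') (j := j') ?_ ?_ ?_
    · refine lt_of_lt_of_le hrow (Finset.card_le_card ?_)
      intro y hy
      rw [Finset.mem_filter] at hy ⊢
      refine ⟨Finset.mem_erase.2 ⟨?_, hy.1⟩, hy.2⟩
      rintro rfl
      exact absurd hy.2 (not_le.2 hur)
    · intro y hy
      exact hcol y (Finset.mem_of_mem_erase hy)
    · rw [hs_erase_R hrF ha]
      have := cast_lt_R har
      linarith
  push Not at hr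
  -- remove the rows of `W` above the box
  refine red_R2 hL (i := i') (j := j') (W.filter fun k => u k < i') ?_ hcol hrow hh2 ?_ ?_ ?_
  · intro x hx
    exact (Finset.mem_filter.1 hx).2
  · intro x hx
    have := (Finset.mem_filter.1 hx).1
    simp [this]
  · intro x hx
    have := (Finset.mem_filter.1 hx).1
    simp [this]
  have hZF : (W.filter fun k => u k < i') ⊆ W ∪ R ∪ X := by
    intro x hx
    have := (Finset.mem_filter.1 hx).1
    simp [this]
  have hZG : (W.filter fun k => u k < i') ⊆ W ∪ C ∪ X := by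
    intro x hx
    have := (Finset.mem_filter.1 hx).1
    simp [this]
  have hh3 := hh2
  rw [← hs_sdiff_R hZF hZG] at hh3
  set F3 := (W ∪ R ∪ X) \ W.filter (fun k => u k < i') with hF3
  set G3 := (W ∪ C ∪ X) \ W.filter (fun k => u k < i') with hG3
  have mF3 : ∀ x, x ∈ F3 ↔ (x ≤ j' ∧ i' ≤ u x) ∨ x ∈ R := by
    intro x
    simp only [hF3, Finset.mem_sdiff, Finset.mem_union, Finset.mem_filter, mW, mX]
    constructor
    · rintro ⟨(⟨h1, h2⟩ | h1) | ⟨⟨h1, h2, h3⟩, h4⟩, h5⟩
      · refine Or.inl ⟨h1.trans hj, ?_⟩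
        by_contra h6
        exact h5 ⟨⟨h1, h2⟩, not_le.1 h6⟩
      · exact Or.inr h1
      · exact Or.inl ⟨h2, h3⟩
    · rintro (⟨h1, h2⟩ | h1)
      · refine ⟨?_, fun h3 => absurd h3.2 (not_lt.2 h2)⟩
        rcases le_or_gt x j with h6 | h6
        · exact Or.inl (Or.inl ⟨h6, hi.trans h2⟩)
        · by_cases h7 : x ∈ R
          · exact Or.inl (Or.inr h7)
          · exact Or.inr ⟨⟨h6, h1, h2⟩, h7⟩
      · refine ⟨Or.inl (Or.inr h1), fun h3 => ?_⟩
        exact absurd (mR x h1).1 (not_lt.2 h3.1.1)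
  have mG3 : ∀ x ∈ G3, x ≤ j' := fun x hx => hcol x (Finset.mem_sdiff.1 hx).1
  have rF3 : ∀ x ∈ F3, i' ≤ u x := by
    intro x hx
    rcases (mF3 x).1 hx with h1 | h1
    · exact h1.2
    · exact hr x h1
  have cF3 : rk v i' j' < F3.card := by
    refine lt_of_lt_of_le hrow (Finset.card_le_card ?_)
    intro x hx
    rw [Finset.mem_filter] at hx
    refine Finset.mem_sdiff.2 ⟨hx.1, fun h3 => ?_⟩
    exact absurd (Finset.mem_filter.1 h3).2 (not_lt.2 hx.2)
  have nRG3 : ∀ x ∈ R, x ∉ G3 := by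
    intro x hx h1
    have h1 := (Finset.mem_sdiff.1 h1).1
    simp only [Finset.mem_union, mW, mX] at h1
    rcases h1 with (⟨h1, _⟩ | h1) | ⟨_, h2⟩
    · exact absurd (mR x hx).1 (not_lt.2 h1)
    · exact absurd (mR x hx).1 (not_lt.2 (mC x h1).1)
    · exact h2 hx
  by_cases hx0 : ∃ x ∈ R, x ≤ j'
  · obtain ⟨x, hx, hxj⟩ := hx0
    have hxF : x ∈ F3 := (mF3 x).2 (Or.inr hx)
    refine InK.repr hxF (nRG3 x hx) ?_
    intro a ha hax _
    refine hL i' j' _ _ rF3 ?_ cF3 ?_
    · intro y hy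
      rcases Finset.mem_insert.1 (Finset.mem_of_mem_erase hy) with rfl | hy
      · exact hxj
      · exact mG3 y hy
    · rw [hs_repG_R (nRG3 x hx) ha]
      have := cast_lt_R hax
      linarith
  push Not at hx0
  have hRs : R ⊆ NEs u i' j' := fun x hx => mem_NEs.2 ⟨hx0 x hx, hr x hx⟩
  have hRf : R.filter (fun r => j' < r ∧ i' ≤ u r) = R := by
    rw [Finset.filter_eq_self]
    intro x hx
    exact ⟨hx0 x hx, hr x hx⟩
  rw [hRf] at hbad
  have hne : rk u i' j' + R.card ≠ rk v i' j' + 1 := fun h1 => hnot ⟨hRs, h1⟩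
  have hbig : rk v i' j' + 1 < rk u i' j' + R.card := by omega
  have hCpos : 0 < C.card := by
    have := huv i j
    omega
  obtain ⟨c, hc⟩ := Finset.card_pos.1 hCpos
  have hcG : c ∈ G3 := by
    refine Finset.mem_sdiff.2 ⟨by simp [hc], fun h1 => ?_⟩
    exact absurd (mC c hc).2 (not_lt.2 ((mW c).1 (Finset.mem_filter.1 h1).1).2)
  have hcF : c ∉ F3 := by
    intro h1
    rcases (mF3 c).1 h1 with h1 | h1
    · exact absurd (mC c hc).2 (not_lt.2 (hi.trans h1.2))
    · exact absurd (mC c hc).2 (not_lt.2 (mR c h1).2)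
  have cF3' : F3.card = rk u i' j' + R.card := by
    have e : F3 = NWs u i' j' ∪ R := by
      ext x
      rw [mF3, Finset.mem_union, mem_NWs]
    rw [e, Finset.card_union_of_disjoint, card_NWs]
    rw [Finset.disjoint_left]
    intro x hx hx'
    exact absurd (hx0 x hx') (not_lt.2 (mem_NWs.1 hx).1)
  refine InK.col hcG (fun h1 => absurd h1 hcF) ?_
  intro b hb hcb _
  refine hL i' j' _ _ ?_ ?_ ?_ ?_
  · intro y hy
    exact rF3 y (Finset.mem_of_mem_erase hy)
  · intro y hy
    exact mG3 y (Finset.mem_of_mem_erase hy)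
  · rw [Finset.card_erase_of_mem hb]
    omega
  · rw [hs_erase_R hb hcG]
    have := cast_lt_R hcb
    linarith

end Pool.Agent.H30.KL
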