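import Pool.Agent.H30.KL.Gen.Dead

/-!
# Standard minors, second part (GEN-4c)

`std_mem`: let `f`, `g` be injective enumerations, `s = rk v i j + 1`.  `Dstar u v i j f g ∈ I = klIdeal u v` (`dstar_mem`).  `theta s'` of the term of `τ` is `s' ^ ℓ` times the term, `ℓ` the number of `y` with `f (τ y) ≠ g y` (`theta_Zmat`).
If all the factors are nonzero and all the steps allowed (alive, or `C = {g y} ∧ R = {f (τ y)}`) then `ℓ` is the same for all these `τ` (`link_of_star`, `Unif`); otherwise the term is in `I` (`dead_mem`; `entry_ne_zero`).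
So `theta s' Dstar - s' ^ ℓ • Dstar ∈ I`, hence `Dstar ∈ Th I` (`mem_Th`), and `Dm - Dstar ∈ Th I` by `star_sub_mem` with `K = Th I`, `h`, `H` (`ht f g = hs ..` by `ht_eq_hs`).
-/

open MvPolynomial Matrix

namespace Pool.Agent.H30.KL

variable {n : ℕ} {u v : Equiv.Perm (Fin n)}

theorem theta_term {s : ℕ} (f g : Fin s → Fin n) (τ : Equiv.Perm (Fin s)) (t : ℂ) :
    theta t (Equiv.Perm.sign τ • ∏ y, Zmat u (u (f (τ y))) (g y)) =
      C (t ^ (Finset.univ.filter fun y => f (τ y) ≠ g y).card) *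
        (Equiv.Perm.sign τ • ∏ y, Zmat u (u (f (τ y))) (g y)) := by
  rw [Units.smul_def, map_zsmul, map_prod, mul_smul_comm]
  congr 1
  have h1 : ∀ y, theta t (Zmat u (u (f (τ y))) (g y)) =
      (if f (τ y) ≠ g y then C t else 1) * Zmat u (u (f (τ y))) (g y) := by
    intro y
    rw [theta_Zmat]
    by_cases h : f (τ y) = g y
    · rw [if_pos h, if_neg (not_not.2 h), one_mul]
    · rw [if_neg h, if_pos h]
  rw [Finset.prod_congr rfl (fun y _ => h1 y), Finset.prod_mul_distrib, Finset.prod_ite,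
    Finset.prod_const, Finset.prod_const_one, mul_one, map_pow]

theorem dead_term (huv : BruhatLE u v) (hU : Unif u v) {C R : Finset (Fin n)} {s : ℕ}
    (f g : Fin s → Fin n) (τ : Equiv.Perm (Fin s))
    (hbad : ¬ ((∀ y, Zmat u (u (f (τ y))) (g y) ≠ 0) ∧
      ∀ y, g y ≠ f (τ y) → BruhatLE (u * Equiv.swap (g y) (f (τ y))) v ∨
        C = {g y} ∧ R = {f (τ y)})) :
    Equiv.Perm.sign τ • ∏ y, Zmat u (u (f (τ y))) (g y) ∈ klIdeal u v := by
  by_cases hz : ∀ y, Zmat u (u (f (τ y))) (g y) ≠ 0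
  · have h1 : ¬ ∀ y, g y ≠ f (τ y) → BruhatLE (u * Equiv.swap (g y) (f (τ y))) v ∨
        C = {g y} ∧ R = {f (τ y)} := fun h => hbad ⟨hz, h⟩
    rw [not_forall] at h1
    obtain ⟨y, hy⟩ := h1
    rw [Classical.not_imp, not_or] at hy
    obtain ⟨hlt, hu⟩ := (entry_ne_zero (hz y)).resolve_left hy.1
    have h2 := dead_mem huv hU hlt hu hy.2.1
    rw [Units.smul_def, zsmul_eq_mul]
    apply Ideal.mul_mem_left
    rw [← Finset.mul_prod_erase _ _ (Finset.mem_univ y)]
    exact Ideal.mul_mem_right _ _ h2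
  · rw [not_forall] at hz
    obtain ⟨y, hy⟩ := hz
    rw [not_not] at hy
    rw [Finset.prod_eq_zero (Finset.mem_univ y) hy, smul_zero]
    exact zero_mem _

theorem std_mem (huv : BruhatLE u v) (hU : Unif u v) {i j : Fin n} {C R : Finset (Fin n)}
    (hC : C ⊆ SWs u i j) (hR : R ⊆ NEs u i j) (hCR : C.card = R.card)
    (hrk : rk u i j + C.card = rk v i j + 1) (hI : Irr u v i j C R) {h : ℤ}
    (hh : hs (NWs u i j ∪ R) (NWs u i j ∪ C) ≤ h)
    (H : ∀ i' j' : Fin n, i ≤ i' → j' ≤ j → (i' ≠ i ∨ j' ≠ j) → ∀ (s : ℕ) (f g : Fin s → Fin n),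
      (∀ x, i' ≤ u (f x)) → (∀ y, g y ≤ j') → rk v i' j' < s → ht f g ≤ h →
      Dstar u v i' j' f g ∈ Th (klIdeal u v)) :
    InK u (Th (klIdeal u v)) (NWs u i j ∪ R) (NWs u i j ∪ C) := by
  intro s f g hf hg hF hG
  have hfW : ∀ x, f x ∈ NWs u i j ∪ R := fun x => by
    rw [← hF]
    exact Finset.mem_image_of_mem _ (Finset.mem_univ _)
  have hgW : ∀ y, g y ∈ NWs u i j ∪ C := fun y => by
    rw [← hG]
    exact Finset.mem_image_of_mem _ (Finset.mem_univ _)
  have hrow : ∀ x, i ≤ u (f x) := by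
    intro x
    rcases Finset.mem_union.1 (hfW x) with h1 | h1
    · exact (mem_NWs.1 h1).2
    · exact (mem_NEs.1 (hR h1)).2
  have hcol : ∀ y, g y ≤ j := by
    intro y
    rcases Finset.mem_union.1 (hgW y) with h1 | h1
    · exact (mem_NWs.1 h1).1
    · exact (mem_SWs.1 (hC h1)).1
  have dWR : Disjoint (NWs u i j) R := by
    rw [Finset.disjoint_left]
    intro k hk hk'
    exact absurd (mem_NWs.1 hk).1 (not_le.2 (mem_NEs.1 (hR hk')).1)
  have hs' : rk v i j < s := by
    have h1 : (Finset.univ.image f).card = s := by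
      rw [Finset.card_image_of_injective _ hf, Finset.card_univ, Fintype.card_fin]
    rw [hF, Finset.card_union_of_disjoint dWR, card_NWs] at h1
    omega
  have hht : ht f g ≤ h := by
    rw [ht_eq_hs hf hg, hF, hG]
    exact hh
  have h1 := star_sub_mem (Th (klIdeal u v)) i j h H f g hrow hcol hht
  have h2 : Dstar u v i j f g ∈ Th (klIdeal u v) := by
    rw [mem_Th]
    intro t
    have hD := dstar_mem (u := u) (v := v) i j f g hrow hcol hs'
    obtain ⟨l, hl⟩ : ∃ l : ℕ, ∀ τ, Star u v i j f g τ →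
        (Finset.univ.filter fun y => f (τ y) ≠ g y).card = l ∨
          Equiv.Perm.sign τ • ∏ y, Zmat u (u (f (τ y))) (g y) ∈ klIdeal u v := by
      by_cases hex : ∃ τ, Star u v i j f g τ ∧ (∀ y, Zmat u (u (f (τ y))) (g y) ≠ 0) ∧
          ∀ y, g y ≠ f (τ y) → BruhatLE (u * Equiv.swap (g y) (f (τ y))) v ∨
            C = {g y} ∧ R = {f (τ y)}
      · obtain ⟨τ0, hτ0, hz0, ha0⟩ := hex
        obtain ⟨σ0, hσ0, hc0⟩ := link_of_star hC hR hf hg hF hG hτ0 hz0 ha0
        refine ⟨(Finset.univ.filter fun y => f (τ0 y) ≠ g y).card, fun τ hτ => ?_⟩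
        by_cases hgood : (∀ y, Zmat u (u (f (τ y))) (g y) ≠ 0) ∧
            ∀ y, g y ≠ f (τ y) → BruhatLE (u * Equiv.swap (g y) (f (τ y))) v ∨
              C = {g y} ∧ R = {f (τ y)}
        · left
          obtain ⟨σ, hσ, hc⟩ := link_of_star hC hR hf hg hF hG hτ hgood.1 hgood.2
          rw [← hc, ← hc0]
          exact hU i j C R hC hR hCR hrk hI σ σ0 hσ hσ0
        · right
          exact dead_term huv hU f g τ hgood
      · refine ⟨0, fun τ hτ => Or.inr (dead_term (C := C) (R := R) huv hU f g τ ?_)⟩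
        rintro ⟨h3, h4⟩
        exact hex ⟨τ, hτ, h3, h4⟩
    have h3 : theta t (Dstar u v i j f g) - MvPolynomial.C (t ^ l) * Dstar u v i j f g ∈
        klIdeal u v := by
      classical
      unfold Dstar
      rw [map_sum, Finset.mul_sum, ← Finset.sum_sub_distrib]
      apply Ideal.sum_mem
      intro τ hτ
      have hτ2 := (Finset.mem_filter.1 hτ).2
      rw [theta_term]
      rcases hl τ hτ2 with h4 | h4
      · rw [h4, sub_self]
        exact zero_mem _
      · exact sub_mem (Ideal.mul_mem_left _ _ h4) (Ideal.mul_mem_left _ _ h4)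
    have h4 := add_mem h3 (Ideal.mul_mem_left _ (MvPolynomial.C (t ^ l)) hD)
    rwa [sub_add_cancel] at h4
  have h3 := add_mem h1 h2
  rwa [sub_add_cancel] at h3

end Pool.Agent.H30.KL
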