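import Pool.Agent.H30.KL.Gen.E1

/-!
# Standard minors, first part (GEN-4a)

Throughout `I = klIdeal u v`.
* `minor_mem`: a minor of size `> rk v i j` of the box is in `I` (size `rk v i j + 1`: `det_mem_klIdeal`; larger: expand along a row, `det_succ_row`, induction).
* `dstar_mem`: by `star_sub_mem` with `K = I`, strong induction on `(n - i) + j` (for all `s`, `f`, `g`; `h = ht f g`).
* `link_of_star`: `f`, `g` injective enumerations of `W ∪ R`, `W ∪ C` (`W = NWs u i j`), `τ` with `Star` and all the factors nonzero (`entry_ne_zero`):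
  `σ a = f (τ (g⁻¹ a))` for `a ∈ W ∪ C`, `σ a = a` otherwise.
-/

open MvPolynomial Matrix

namespace Pool.Agent.H30.KL

variable {n : ℕ} {u v : Equiv.Perm (Fin n)}

theorem minor_mem (i j : Fin n) : ∀ {s : ℕ} (f g : Fin s → Fin n), (∀ x, i ≤ u (f x)) →
    (∀ y, g y ≤ j) → rk v i j < s → Dm u f g ∈ klIdeal u v := by
  intro s
  induction s with
  | zero => intro f g _ _ h; exact absurd h (Nat.not_lt_zero _)
  | succ s ih =>
    intro f g hf hg h
    rcases Nat.lt_succ_iff_lt_or_eq.1 h with h1 | h1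
    · rw [Dm, Matrix.det_succ_row_zero]
      refine Ideal.sum_mem _ fun y _ => ?_
      refine Ideal.mul_mem_left _ _ ?_
      exact ih (fun x => f x.succ) (fun x => g (y.succAbove x)) (fun x => hf _) (fun x => hg _) h1
    · exact det_mem_klIdeal u v (by rw [h1]) (fun x => u (f x)) g hf hg

theorem dstar_mem (i j : Fin n) {s : ℕ} (f g : Fin s → Fin n) (hf : ∀ x, i ≤ u (f x))
    (hg : ∀ y, g y ≤ j) (hs' : rk v i j < s) : Dstar u v i j f g ∈ klIdeal u v := by
  have key : ∀ (m : ℕ) (i j : Fin n), (n - (i : ℕ)) + (j : ℕ) = m → ∀ (s : ℕ)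
      (f g : Fin s → Fin n), (∀ x, i ≤ u (f x)) → (∀ y, g y ≤ j) → rk v i j < s →
      Dstar u v i j f g ∈ klIdeal u v := by
    intro m
    induction m using Nat.strong_induction_on with
    | _ m ih =>
      intro i j hm s f g hf hg hs'
      have h1 : Dm u f g - Dstar u v i j f g ∈ klIdeal u v := by
        refine star_sub_mem (klIdeal u v) i j (ht f g) ?_ f g hf hg le_rfl
        intro i' j' a1 a2 a3 s' f' g' b1 b2 b3 _
        refine ih ((n - (i' : ℕ)) + (j' : ℕ)) ?_ i' j' rfl s' f' g' b1 b2 b3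
        have h2 := i'.isLt
        rw [Fin.le_def] at a1 a2
        rcases a3 with a3 | a3
        · have : (i' : ℕ) ≠ (i : ℕ) := fun h => a3 (Fin.ext h)
          omega
        · have : (j' : ℕ) ≠ (j : ℕ) := fun h => a3 (Fin.ext h)
          omega
      have h2 := Ideal.sub_mem _ (minor_mem (v := v) i j f g hf hg hs') h1
      rwa [sub_sub_cancel] at h2
  exact key _ i j rfl s f g hf hg hs'

theorem link_of_star {i j : Fin n} {C R : Finset (Fin n)} (hC : C ⊆ SWs u i j)
    (hR : R ⊆ NEs u i j) {s : ℕ} {f g : Fin s → Fin n} (hf : Function.Injective f)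
    (hg : Function.Injective g) (hF : Finset.univ.image f = NWs u i j ∪ R)
    (hG : Finset.univ.image g = NWs u i j ∪ C) {τ : Equiv.Perm (Fin s)}
    (hτ : Star u v i j f g τ) (hnz : ∀ y, Zmat u (u (f (τ y))) (g y) ≠ 0)
    (hal : ∀ y, g y ≠ f (τ y) → BruhatLE (u * Equiv.swap (g y) (f (τ y))) v ∨
      C = {g y} ∧ R = {f (τ y)}) :
    ∃ σ : Fin n → Fin n, Link u v i j C R σ ∧
      ((NWs u i j ∪ C).filter fun a => σ a ≠ a).card =
        (Finset.univ.filter fun y => f (τ y) ≠ g y).card := by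
  classical
  have hσ : ∀ y, Function.extend g (fun y => f (τ y)) id (g y) = f (τ y) := fun y =>
    hg.extend_apply _ _ y
  have memG : ∀ a, a ∈ NWs u i j ∪ C ↔ ∃ y, g y = a := by
    intro a
    rw [← hG, Finset.mem_image]
    simp
  have memF : ∀ a, a ∈ NWs u i j ∪ R ↔ ∃ y, f y = a := by
    intro a
    rw [← hF, Finset.mem_image]
    simp
  have hcard : ∀ P : Fin n → Fin n → Prop, [∀ a b, Decidable (P a b)] →
      ((NWs u i j ∪ C).filter fun a => P a (Function.extend g (fun y => f (τ y)) id a)).card =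
        (Finset.univ.filter fun y => P (g y) (f (τ y))).card := by
    intro P _
    symm
    refine Finset.card_bij (fun y _ => g y) ?_ ?_ ?_
    · intro y hy
      rw [Finset.mem_filter] at hy ⊢
      refine ⟨(memG _).2 ⟨y, rfl⟩, ?_⟩
      rw [hσ]
      exact hy.2
    · intro y _ y' _ h
      exact hg h
    · intro a ha
      rw [Finset.mem_filter] at ha
      obtain ⟨y, rfl⟩ := (memG a).1 ha.1
      have h2 := ha.2
      rw [hσ] at h2
      exact ⟨y, by rw [Finset.mem_filter]; exact ⟨Finset.mem_univ _, h2⟩, rfl⟩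
  refine ⟨Function.extend g (fun y => f (τ y)) id, ⟨⟨?_, ?_, ?_⟩, ?_, ?_⟩, ?_⟩
  · intro a ha
    obtain ⟨y, rfl⟩ := (memG a).1 (Finset.mem_coe.1 ha)
    rw [hσ]
    exact Finset.mem_coe.2 ((memF _).2 ⟨τ y, rfl⟩)
  · intro a ha b hb hab
    obtain ⟨y, rfl⟩ := (memG a).1 (Finset.mem_coe.1 ha)
    obtain ⟨y', rfl⟩ := (memG b).1 (Finset.mem_coe.1 hb)
    rw [hσ, hσ] at hab
    rw [τ.injective (hf hab)]
  · intro b hb
    obtain ⟨x, rfl⟩ := (memF b).1 (Finset.mem_coe.1 hb)
    refine ⟨g (τ⁻¹ x), Finset.mem_coe.2 ((memG _).2 ⟨_, rfl⟩), ?_⟩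
    rw [hσ]
    simp
  · intro a ha hne
    obtain ⟨y, rfl⟩ := (memG a).1 ha
    rw [hσ] at hne ⊢
    rcases entry_ne_zero (hnz y) with h | h
    · exact absurd h.symm hne
    · exact ⟨h.1, h.2, hal y (Ne.symm hne)⟩
  · intro i' j' a1 a2 a3
    have h1 := hcard (fun a b => a ≤ j' ∧ i' ≤ u b)
    have h2 := hτ i' j' a1 a2 a3
    rw [cnt] at h2
    rw [h1]
    exact h2
  · have h1 := hcard (fun a b => b ≠ a)
    exact h1

end Pool.Agent.H30.KL
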