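import Pool.Agent.H30.KL.Gen.RedC
import Pool.Agent.H30.KL.Gen.RedR
import Pool.Agent.H30.KL.Gen.Std

/-!
# Uniformity implies homogeneity (GEN-5)
-/

open MvPolynomial Matrix

namespace Pool.Agent.H30.KL

variable {n : ℕ} {u v : Equiv.Perm (Fin n)}

theorem hs_erase_left {F G : Finset (Fin n)} {b : Fin n} (hb : b ∈ F) :
    hs (F.erase b) G = hs F G - ((b : ℕ) : ℤ) := by
  rw [hs, hs, ← Finset.add_sum_erase F _ hb]
  ring

theorem hs_erase_right {F G : Finset (Fin n)} {b : Fin n} (hb : b ∈ G) :
    hs F (G.erase b) = hs F G + ((b : ℕ) : ℤ) := by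
  rw [hs, hs, ← Finset.add_sum_erase G _ hb]
  ring

theorem hs_insert_left {F G : Finset (Fin n)} {b : Fin n} (hb : b ∉ F) :
    hs (insert b F) G = hs F G + ((b : ℕ) : ℤ) := by
  rw [hs, hs, Finset.sum_insert hb]
  ring

theorem hs_insert_right {F G : Finset (Fin n)} {b : Fin n} (hb : b ∉ G) :
    hs F (insert b G) = hs F G - ((b : ℕ) : ℤ) := by
  rw [hs, hs, Finset.sum_insert hb]
  ring

/-- one box, all the minors of height `≤ h` -/
theorem suff_box (huv : BruhatLE u v) (hU : Unif u v) {h : ℤ}
    (hL : Low u v (Th (klIdeal u v)) h) {i j : Fin n}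
    (H : ∀ i' j' : Fin n, i ≤ i' → j' ≤ j → (i' ≠ i ∨ j' ≠ j) → ∀ (s : ℕ) (f g : Fin s → Fin n),
      (∀ x, i' ≤ u (f x)) → (∀ y, g y ≤ j') → rk v i' j' < s → ht f g ≤ h →
      Dstar u v i' j' f g ∈ Th (klIdeal u v)) : ∀ (N : ℕ) (F G : Finset (Fin n)),
      (NWs u i j \ F).card ≤ N → (∀ x ∈ F, i ≤ u x) → (∀ y ∈ G, y ≤ j) → rk v i j < F.card →
      hs F G ≤ h → InK u (Th (klIdeal u v)) F G := by
  intro N
  induction N with
  | zero =>
    intro F G hN hF hG hc hh
    have hWF : NWs u i j ⊆ F := by
      rw [← Finset.sdiff_eq_empty_iff_subset]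
      exact Finset.card_eq_zero.1 (Nat.le_zero.1 hN)
    by_cases hx : ∃ x ∈ NWs u i j, x ∉ G
    · obtain ⟨x, hx, hxG⟩ := hx
      apply InK.repr (hWF hx) hxG
      intro a ha hax _
      have h0 : a ≠ x := hax.ne
      have h1 : a ∈ insert x G := Finset.mem_insert_of_mem ha
      apply hL i j _ _ hF _ hc
      · rw [hs_erase_right h1, hs_insert_right hxG]
        have h2 : (a : ℕ) < x := hax
        have h3 : ((a : ℕ) : ℤ) < ((x : ℕ) : ℤ) := by exact_mod_cast h2
        linarith
      · intro y hy
        rcases Finset.mem_insert.1 (Finset.mem_of_mem_erase hy) with rfl | hy'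
        · exact (mem_NWs.1 hx).1
        · exact hG y hy'
    push Not at hx
    have hWG : NWs u i j ⊆ G := hx
    by_cases hcard : F.card = G.card
    swap
    · exact inK_of_card_ne hcard
    have eF : NWs u i j ∪ (F \ NWs u i j) = F := Finset.union_sdiff_of_subset hWF
    have eG : NWs u i j ∪ (G \ NWs u i j) = G := Finset.union_sdiff_of_subset hWG
    have cF : rk u i j + (F \ NWs u i j).card = F.card := by
      rw [← card_NWs, add_comm]
      exact Finset.card_sdiff_add_card_eq_card hWF
    have cG : rk u i j + (G \ NWs u i j).card = G.card := by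
      rw [← card_NWs, add_comm]
      exact Finset.card_sdiff_add_card_eq_card hWG
    have hR : F \ NWs u i j ⊆ NEs u i j := by
      intro x hx
      rw [Finset.mem_sdiff, mem_NWs] at hx
      rw [mem_NEs]
      refine ⟨?_, hF x hx.1⟩
      by_contra h1
      exact hx.2 ⟨not_lt.1 h1, hF x hx.1⟩
    have hC : G \ NWs u i j ⊆ SWs u i j := by
      intro x hx
      rw [Finset.mem_sdiff, mem_NWs] at hx
      rw [mem_SWs]
      refine ⟨hG x hx.1, ?_⟩
      by_contra h1
      exact hx.2 ⟨hG x hx.1, not_lt.1 h1⟩
    by_cases hbig : rk v i j + 1 < F.card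
    · have hne : (F \ NWs u i j).Nonempty := by
        rw [← Finset.card_pos]
        have := huv i j
        omega
      obtain ⟨r, hr⟩ := hne
      have hr1 := mem_NEs.1 (hR hr)
      have hrF : r ∈ F := (Finset.mem_sdiff.1 hr).1
      apply InK.row hrF
      · intro hrG
        exact absurd (hG r hrG) (not_le.2 hr1.1)
      · intro a ha har _
        apply hL i j
        · exact fun x hx => hF x (Finset.mem_of_mem_erase hx)
        · exact fun y hy => hG y (Finset.mem_of_mem_erase hy)
        · rw [Finset.card_erase_of_mem hrF]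
          omega
        · rw [hs_erase_left hrF, hs_erase_right ha]
          have h2 : (a : ℕ) < r := har
          have h3 : ((a : ℕ) : ℤ) < ((r : ℕ) : ℤ) := by exact_mod_cast h2
          linarith
    · have hF1 : F.card = rk v i j + 1 := by omega
      have hCR : (G \ NWs u i j).card = (F \ NWs u i j).card := by omega
      have hrk : rk u i j + (G \ NWs u i j).card = rk v i j + 1 := by omega
      have hh' : hs (NWs u i j ∪ (F \ NWs u i j)) (NWs u i j ∪ (G \ NWs u i j)) ≤ h := by
        rw [eF, eG]
        exact hh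
      have key : InK u (Th (klIdeal u v)) (NWs u i j ∪ (F \ NWs u i j))
          (NWs u i j ∪ (G \ NWs u i j)) := by
        by_cases hI : Irr u v i j (G \ NWs u i j) (F \ NWs u i j)
        · exact std_mem huv hU hC hR hCR hrk hI hh' H
        · rw [Irr, not_and_or] at hI
          rcases hI with hI | hI
          · push Not at hI
            obtain ⟨i', j', hi, hj, -, h1, h2⟩ := hI
            exact red_C huv hL hC hR hCR hrk hh' hi hj h1 (fun h3 => h2 h3.1 h3.2)
          · push Not at hI
            obtain ⟨i', j', hi, hj, -, h1, h2⟩ := hI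
            exact red_R huv hL hC hR hCR hrk hh' hi hj h1 (fun h3 => h2 h3.1 h3.2)
      rwa [eF, eG] at key
  | succ N ih =>
    intro F G hN hF hG hc hh
    by_cases hx : ∃ x ∈ NWs u i j, x ∉ F
    swap
    · push Not at hx
      apply ih F G _ hF hG hc hh
      rw [Finset.sdiff_eq_empty_iff_subset.2 hx, Finset.card_empty]
      exact Nat.zero_le _
    obtain ⟨x, hx, hxF⟩ := hx
    have hx1 := mem_NWs.1 hx
    by_cases hxG : x ∈ G
    · apply InK.repc hxF hxG
      intro b hb hxb _
      have hbx : b ≠ x := hxb.ne'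
      have h1 : b ∈ insert x F := Finset.mem_insert_of_mem hb
      apply hL i j _ _ _ hG
      · rw [Finset.card_erase_of_mem h1, Finset.card_insert_of_notMem hxF]
        exact hc
      · rw [hs_erase_left h1, hs_insert_left hxF]
        have h2 : (x : ℕ) < b := hxb
        have h3 : ((x : ℕ) : ℤ) < ((b : ℕ) : ℤ) := by exact_mod_cast h2
        linarith
      · intro y hy
        rcases Finset.mem_insert.1 (Finset.mem_of_mem_erase hy) with rfl | hy'
        · exact hx1.2
        · exact hF y hy'
    · apply InK.add hxF hxG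
      · apply ih
        · have h1 : NWs u i j \ insert x F ⊆ (NWs u i j \ F).erase x := by
            intro y hy
            rw [Finset.mem_sdiff, Finset.mem_insert, not_or] at hy
            rw [Finset.mem_erase, Finset.mem_sdiff]
            exact ⟨hy.2.1, hy.1, hy.2.2⟩
          have h2 := Finset.card_le_card h1
          rw [Finset.card_erase_of_mem (Finset.mem_sdiff.2 ⟨hx, hxF⟩)] at h2
          omega
        · intro y hy
          rcases Finset.mem_insert.1 hy with rfl | hy'
          · exact hx1.2
          · exact hF y hy'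
        · intro y hy
          rcases Finset.mem_insert.1 hy with rfl | hy'
          · exact hx1.1
          · exact hG y hy'
        · rw [Finset.card_insert_of_notMem hxF]
          omega
        · rw [hs_insert_left hxF, hs_insert_right hxG]
          linarith
      · intro a ha hax _
        have h1 : a ∈ insert x G := Finset.mem_insert_of_mem ha
        apply hL i j _ _ hF _ hc
        · rw [hs_erase_right h1, hs_insert_right hxG]
          have h2 : (a : ℕ) < x := hax
          have h3 : ((a : ℕ) : ℤ) < ((x : ℕ) : ℤ) := by exact_mod_cast h2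
          linarith
        · intro y hy
          rcases Finset.mem_insert.1 (Finset.mem_of_mem_erase hy) with rfl | hy'
          · exact hx1.1
          · exact hG y hy'

theorem suff_step (huv : BruhatLE u v) (hU : Unif u v) {h : ℤ}
    (hL : Low u v (Th (klIdeal u v)) h) : ∀ (d : ℕ) (i j : Fin n), (n - (i : ℕ)) + j < d →
      (∀ F G : Finset (Fin n), (∀ x ∈ F, i ≤ u x) → (∀ y ∈ G, y ≤ j) → rk v i j < F.card →
        hs F G ≤ h → InK u (Th (klIdeal u v)) F G) ∧
      (∀ (s : ℕ) (f g : Fin s → Fin n), (∀ x, i ≤ u (f x)) → (∀ y, g y ≤ j) → rk v i j < s →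
        ht f g ≤ h → Dstar u v i j f g ∈ Th (klIdeal u v)) := by
  intro d
  induction d with
  | zero => intro i j hd; omega
  | succ d ih =>
    intro i j hd
    have H : ∀ i' j' : Fin n, i ≤ i' → j' ≤ j → (i' ≠ i ∨ j' ≠ j) →
        ∀ (s : ℕ) (f g : Fin s → Fin n), (∀ x, i' ≤ u (f x)) → (∀ y, g y ≤ j') →
        rk v i' j' < s → ht f g ≤ h → Dstar u v i' j' f g ∈ Th (klIdeal u v) := by
      intro i' j' hi hj hne s f g h1 h2 h3 h4
      refine (ih i' j' ?_).2 s f g h1 h2 h3 h4
      have h5 : (i : ℕ) ≤ i' := hi
      have h6 : (j' : ℕ) ≤ j := hj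
      have h7 := i'.isLt
      have h8 : (i' : ℕ) ≠ i ∨ (j' : ℕ) ≠ j := by
        rcases hne with h9 | h9
        · exact Or.inl fun h10 => h9 (Fin.ext h10)
        · exact Or.inr fun h10 => h9 (Fin.ext h10)
      omega
    have h1 : ∀ F G : Finset (Fin n), (∀ x ∈ F, i ≤ u x) → (∀ y ∈ G, y ≤ j) →
        rk v i j < F.card → hs F G ≤ h → InK u (Th (klIdeal u v)) F G :=
      fun F G h1 h2 h3 h4 => suff_box huv hU hL H _ F G le_rfl h1 h2 h3 h4
    refine ⟨h1, ?_⟩
    intro s f g hf hg hs' hh
    have h2 := star_sub_mem (Th (klIdeal u v)) i j h H f g hf hg hh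
    have h3 : Dm u f g ∈ Th (klIdeal u v) := by
      by_cases hinj : Function.Injective f ∧ Function.Injective g
      · apply h1 (Finset.univ.image f) (Finset.univ.image g) _ _ _ _ s f g hinj.1 hinj.2 rfl rfl
        · intro x hx
          obtain ⟨y, -, rfl⟩ := Finset.mem_image.1 hx
          exact hf y
        · intro x hx
          obtain ⟨y, -, rfl⟩ := Finset.mem_image.1 hx
          exact hg y
        · rw [Finset.card_image_of_injective _ hinj.1, Finset.card_univ, Fintype.card_fin]
          exact hs'
        · rw [← ht_eq_hs hinj.1 hinj.2]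
          exact hh
      · rw [Dm_eq_zero_of_not_inj hinj]
        exact Ideal.zero_mem _
    have h4 : Dstar u v i j f g = Dm u f g - (Dm u f g - Dstar u v i j f g) := by ring
    rw [h4]
    exact Ideal.sub_mem _ h3 h2

theorem suff_low (huv : BruhatLE u v) (hU : Unif u v) : ∀ h : ℕ,
    Low u v (Th (klIdeal u v)) (h : ℤ) := by
  intro h
  induction h with
  | zero =>
    intro i j F G _ _ _ h4
    exact inK_of_hs_neg (by exact_mod_cast h4)
  | succ h ih =>
    intro i j F G h1 h2 h3 h4
    refine (suff_step huv hU ih _ i j (Nat.lt_succ_self _)).1 F G h1 h2 h3 ?_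
    push_cast at h4
    omega

attribute [local instance] MvPolynomial.gradedAlgebra

/-- **uniformity implies homogeneity** -/
theorem suff_unif (hU : Unif u v) : Hom u v := by
  by_cases huv : BruhatLE u v
  · have key : klIdeal u v ≤ Th (klIdeal u v) := by
      conv_lhs => rw [klIdeal]
      rw [Ideal.span_le]
      rintro x ⟨i, j, f, g, hf, hg, rfl⟩
      have h1 : ((Zmat u).submatrix f g).det = Dm u (fun a => u.symm (f a)) g := by
        rw [Dm]
        congr 2
        funext a
        rw [Equiv.apply_symm_apply]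
      rw [h1]
      refine low_mem (suff_low huv hU ((ht (fun a => u.symm (f a)) g).toNat + 1)) (i := i) (j := j)
        _ _ ?_ hg (Nat.lt_succ_self _) ?_
      · intro x
        rw [Equiv.apply_symm_apply]
        exact hf x
      · push_cast
        have := Int.self_le_toNat (ht (fun a => u.symm (f a)) g)
        omega
    apply hom_of_scale
    intro s f hf
    exact mem_Th.1 (key hf) s
  · rw [Hom, klIdeal_top huv]
    exact Ideal.IsHomogeneous.top _

end Pool.Agent.H30.KL
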