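import Pool.Agent.H30.KL.Gen.SuffC3

/-!
# The criterion implies homogeneity
-/

open MvPolynomial Matrix

namespace Pool.Agent.H30.KL

variable {n : ℕ} {u v : Equiv.Perm (Fin n)}

theorem boxOf_hs {C R : Finset (Fin n)} {e : Fin n × Fin n} (he : BoxOf u v C R e) :
    hs (NWs u e.1 e.2 ∪ R) (NWs u e.1 e.2 ∪ C) = hs R C := by
  obtain ⟨hC, hR, -⟩ := he
  have dWR : Disjoint (NWs u e.1 e.2) R := by
    rw [Finset.disjoint_left]
    intro k hk hk'
    exact absurd (mem_NWs.1 hk).1 (not_le.2 (mem_NEs.1 (hR hk')).1)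
  have dWC : Disjoint (NWs u e.1 e.2) C := by
    rw [Finset.disjoint_left]
    intro k hk hk'
    exact absurd (mem_NWs.1 hk).2 (not_le.2 (mem_SWs.1 (hC hk')).2)
  rw [hs, hs, Finset.sum_union dWR, Finset.sum_union dWC]
  ring

theorem boxOf_disj {C R : Finset (Fin n)} {e : Fin n × Fin n} (he : BoxOf u v C R e) :
    Disjoint C R := by
  rw [Finset.disjoint_left]
  intro k hk hk'
  exact absurd (mem_SWs.1 (he.1 hk)).1 (not_le.2 (mem_NEs.1 (he.2.1 hk')).1)

theorem conn_box {C R : Finset (Fin n)} {e f : Fin n × Fin n} (he : BoxOf u v C R e)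
    (h : Conn u v C R e f) : BoxOf u v C R f := by
  rcases Relation.ReflTransGen.cases_tail h with h1 | ⟨g, -, h1⟩
  · rw [h1]; exact he
  · exact h1.2.1

theorem adj_symm {e f : Fin n × Fin n} (h : Adj e f) : Adj f e := h.symm

theorem adj_P {K : Ideal (MvPolynomial (Free u) ℂ)} {h : ℤ} (hL : Low u v K h)
    {C R : Finset (Fin n)} (hCR : C.card = R.card) (hh : hs R C ≤ h) {e f : Fin n × Fin n}
    (he : BoxOf u v C R e) (hf : BoxOf u v C R f) (ha : Adj e f)
    (hP : InK u K (NWs u f.1 f.2 ∪ R) (NWs u f.1 f.2 ∪ C)) :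
    InK u K (NWs u e.1 e.2 ∪ R) (NWs u e.1 e.2 ∪ C) := by
  have h1 : hs (NWs u e.1 e.2 ∪ R) (NWs u e.1 e.2 ∪ C) ≤ h := by
    rw [boxOf_hs he]
    exact hh
  rcases ha with ha | ha
  · exact adj_R hL he.1 he.2.1 hCR he.2.2 h1 hf.2.1 hf.2.2 ha.1 ha.2 hP
  · exact adj_C hL he.1 he.2.1 hCR he.2.2 h1 hf.1 hf.2.2 ha.1 ha.2 hP

theorem conn_P {K : Ideal (MvPolynomial (Free u) ℂ)} {h : ℤ} (hL : Low u v K h)
    {C R : Finset (Fin n)} (hCR : C.card = R.card) (hh : hs R C ≤ h) {e f : Fin n × Fin n}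
    (hc : Conn u v C R e f) (hP : InK u K (NWs u f.1 f.2 ∪ R) (NWs u f.1 f.2 ∪ C)) :
    InK u K (NWs u e.1 e.2 ∪ R) (NWs u e.1 e.2 ∪ C) := by
  induction hc with
  | refl => exact hP
  | tail _ h2 ih => exact ih (adj_P hL hCR hh h2.1 h2.2.1 h2.2.2 hP)

theorem red_P {K : Ideal (MvPolynomial (Free u) ℂ)} (huv : BruhatLE u v) {h : ℤ}
    (hL : Low u v K h) {C R : Finset (Fin n)} (hCR : C.card = R.card) (hh : hs R C ≤ h)
    {e : Fin n × Fin n} (he : BoxOf u v C R e) (hI : ¬ Irr u v e.1 e.2 C R) :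
    InK u K (NWs u e.1 e.2 ∪ R) (NWs u e.1 e.2 ∪ C) := by
  have hh' : hs (NWs u e.1 e.2 ∪ R) (NWs u e.1 e.2 ∪ C) ≤ h := by
    rw [boxOf_hs he]
    exact hh
  rw [Irr, not_and_or] at hI
  rcases hI with hI | hI
  · push Not at hI
    obtain ⟨i', j', hi, hj, -, h1, h2⟩ := hI
    exact red_C huv hL he.1 he.2.1 hCR he.2.2 hh' hi hj h1 (fun h3 => h2 h3.1 h3.2)
  · push Not at hI
    obtain ⟨i', j', hi, hj, -, h1, h2⟩ := hI
    exact red_R huv hL he.1 he.2.1 hCR he.2.2 hh' hi hj h1 (fun h3 => h2 h3.1 h3.2)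

/-- a box of another class inside a box of the class lies strictly north-west of the whole class -/
theorem conn_strict {C R : Finset (Fin n)} {e e' x : Fin n × Fin n}
    (he' : BoxOf u v C R e') (hn : ¬ Conn u v C R e e')
    (h0 : e.1 < e'.1 ∧ e'.2 < e.2) (hx : Conn u v C R e x) : x.1 < e'.1 ∧ e'.2 < x.2 := by
  induction hx with
  | refl => exact h0
  | @tail x y hex hxy ih =>
    have hyn : ¬ Adj y e' := fun ha => hn (Relation.ReflTransGen.tail (Relation.ReflTransGen.tail hex hxy)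
      ⟨hxy.2.1, he', ha⟩)
    have hxy' := hxy.2.2
    rw [Adj, not_or, not_and_or, not_and_or, not_le, not_le, not_le, not_le] at hyn
    rcases hyn.1 with h1 | h1
    · rcases hyn.2 with h2 | h2
      · exact absurd (h1.trans h2) (lt_irrefl _)
      · exfalso
        rcases hxy' with h3 | h3
        · exact absurd h3.2 (not_le.2 (h2.trans ih.2))
        · exact absurd h3.1 (not_le.2 (ih.1.trans h1))
    · rcases hyn.2 with h2 | h2
      · exact ⟨h2, h1⟩
      · exact absurd (h1.trans h2) (lt_irrefl _)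

theorem pair_P (huv : BruhatLE u v) (hc : Crit u v) {h : ℤ}
    (hL : Low u v (Th (klIdeal u v)) h) {C R : Finset (Fin n)} (hCR : C.card = R.card)
    (hh : hs R C ≤ h) : ∀ e, BoxOf u v C R e →
      InK u (Th (klIdeal u v)) (NWs u e.1 e.2 ∪ R) (NWs u e.1 e.2 ∪ C) := by
  classical
  by_contra hcon
  push Not at hcon
  obtain ⟨e₁, he₁, hn₁⟩ := hcon
  have hne : (Finset.univ.filter fun e : Fin n × Fin n => BoxOf u v C R e ∧
      ¬ InK u (Th (klIdeal u v)) (NWs u e.1 e.2 ∪ R) (NWs u e.1 e.2 ∪ C)).Nonempty :=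
    ⟨e₁, by rw [Finset.mem_filter]; exact ⟨Finset.mem_univ _, he₁, hn₁⟩⟩
  obtain ⟨e₀, he₀, hmin⟩ := Finset.exists_min_image _
    (fun e : Fin n × Fin n => (n - (e.1 : ℕ)) + (e.2 : ℕ)) hne
  rw [Finset.mem_filter] at he₀
  obtain ⟨-, hb₀, hn₀⟩ := he₀
  obtain ⟨e, hce, hNW, hcase⟩ := hc C R e₀ hCR hb₀
  have hbe := conn_box hb₀ hce
  have hne : ¬ InK u (Th (klIdeal u v)) (NWs u e.1 e.2 ∪ R) (NWs u e.1 e.2 ∪ C) :=
    fun hP => hn₀ (conn_P hL hCR hh hce hP)
  rcases hcase with hI | hU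
  · exact hne (red_P huv hL hCR hh hbe hI)
  · apply hne
    have hh' : hs (NWs u e.1 e.2 ∪ R) (NWs u e.1 e.2 ∪ C) ≤ h := by
      rw [boxOf_hs hbe]
      exact hh
    have hRne : R.Nonempty := by
      rw [← Finset.card_pos, ← hCR]
      have h1 := huv e.1 e.2
      have h2 := hbe.2.2
      omega
    have hP : ∀ i' j' : Fin n, e.1 ≤ i' → j' ≤ e.2 → (i' ≠ e.1 ∨ j' ≠ e.2) →
        BoxOf u v C R (i', j') → InK u (Th (klIdeal u v)) (NWs u i' j' ∪ R) (NWs u i' j' ∪ C) := by
      intro i' j' hi hj hij hb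
      by_contra hnP
      have h1 : ¬ Conn u v C R e (i', j') := by
        intro h2
        have h3 := hNW _ h2 hi hj
        rcases hij with h4 | h4
        · exact h4 (by rw [← h3])
        · exact h4 (by rw [← h3])
      have h2 : ¬ Adj e (i', j') := fun h3 => h1 (Relation.ReflTransGen.single ⟨hbe, hb, h3⟩)
      have h3 : e.1 < i' := by
        refine lt_of_le_of_ne hi fun h4 => ?_
        exact h2 (Or.inr ⟨le_of_eq h4.symm, hj⟩)
      have h4 : j' < e.2 := by
        refine lt_of_le_of_ne hj fun h4 => ?_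
        exact h2 (Or.inl ⟨hi, le_of_eq h4.symm⟩)
      have hce' : Conn u v C R e e₀ := by
        have hsymm : ∀ x y : Fin n × Fin n, Conn u v C R x y → Conn u v C R y x := by
          intro x y hxy
          induction hxy with
          | refl => exact Relation.ReflTransGen.refl
          | tail _ h5 ih =>
            exact Relation.ReflTransGen.head ⟨h5.2.1, h5.1, adj_symm h5.2.2⟩ ih
        exact hsymm _ _ hce
      have h5 := conn_strict hb h1 ⟨h3, h4⟩ hce'
      have h6 := hmin (i', j') (by rw [Finset.mem_filter]; exact ⟨Finset.mem_univ _, hb, hnP⟩)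
      simp only at h6
      have h7 : (e₀.1 : ℕ) < (i' : ℕ) := h5.1
      have h8 : (j' : ℕ) < (e₀.2 : ℕ) := h5.2
      have h9 := i'.isLt
      omega
    refine std_mem' huv hL hbe.1 hbe.2.1 hbe.2.2 hCR hU hh' ?_
    intro i' j' hi hj hij s f g hf hg hs' hw
    refine ds hL hCR hRne (boxOf_disj hbe) hh _ i' j' (Nat.lt_succ_self _) ?_ s f g hf hg hs' hw
    intro i'' j'' hi' hj' hb
    refine hP i'' j'' (hi.trans hi') (hj'.trans hj) ?_ hb
    rcases hij with h1 | h1
    · left
      intro h2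
      rw [h2] at hi'
      exact h1 (le_antisymm hi' hi)
    · right
      intro h2
      rw [h2] at hj'
      exact h1 (le_antisymm hj hj')

theorem crit_low (huv : BruhatLE u v) (hc : Crit u v) : ∀ h : ℕ,
    Low u v (Th (klIdeal u v)) (h : ℤ) := by
  intro h
  induction h with
  | zero =>
    intro i j F G _ _ _ h4
    exact inK_of_hs_neg (by exact_mod_cast h4)
  | succ h ih =>
    intro i j F G h1 h2 h3 h4
    push_cast at h4
    by_cases hcard : F.card = G.card
    swap
    · exact inK_of_card_ne hcard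
    have hCR : (G \ F).card = (F \ G).card := by
      have e1 := Finset.card_sdiff_add_card_inter G F
      have e2 := Finset.card_sdiff_add_card_inter F G
      rw [Finset.inter_comm] at e1
      omega
    have hsEq : hs (F \ G) (G \ F) = hs F G := by
      rw [hs_eq_sum_wc, hs_eq_sum_wc, wc_sdiff]
    by_cases hRne : (F \ G).Nonempty
    · refine suff_box' ih hCR hRne ?_ _ F G le_rfl h1 h2 h3 (by omega) rfl rfl
      intro hb
      exact pair_P huv hc ih hCR (by omega) (i, j) hb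
    · exfalso
      rw [Finset.not_nonempty_iff_eq_empty, Finset.sdiff_eq_empty_iff_subset] at hRne
      have h5 : F ⊆ NWs u i j := fun x hx => mem_NWs.2 ⟨h2 x (hRne hx), h1 x hx⟩
      have h6 := Finset.card_le_card h5
      rw [card_NWs] at h6
      have h7 := huv i j
      omega

attribute [local instance] MvPolynomial.gradedAlgebra

/-- **the criterion implies homogeneity** -/
theorem suff_crit (huv : BruhatLE u v) (hc : Crit u v) : Hom u v := by
  have key : klIdeal u v ≤ Th (klIdeal u v) := by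
    conv_lhs => rw [klIdeal]
    rw [Ideal.span_le]
    rintro x ⟨i, j, f, g, hf, hg, rfl⟩
    have h1 : ((Zmat u).submatrix f g).det = Dm u (fun a => u.symm (f a)) g := by
      rw [Dm]
      congr 2
      funext a
      rw [Equiv.apply_symm_apply]
    rw [h1]
    refine low_mem (crit_low huv hc ((ht (fun a => u.symm (f a)) g).toNat + 1)) (i := i) (j := j)
      _ _ ?_ hg (Nat.lt_succ_self _) ?_
    · intro x
      rw [Equiv.apply_symm_apply]
      exact hf x
    · push_cast
      have := Int.self_le_toNat (ht (fun a => u.symm (f a)) g)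
      omega
  apply hom_of_scale
  intro s f hf
  exact mem_Th.1 (key hf) s

/-- if `u ≤ v` fails, then `I_{u,v}` is the unit ideal -/
theorem hom_of_not_le (huv : ¬ BruhatLE u v) : Hom u v := by
  rw [Hom, klIdeal_top huv]
  exact Ideal.IsHomogeneous.top _

end Pool.Agent.H30.KL
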