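import Pool.Agent.H30.KL.Gen.Suff
import Pool.Agent.H30.KL.Gen.Crit

/-!
# The decomposition of a minor by the first violated box, with weights
-/

open MvPolynomial Matrix

namespace Pool.Agent.H30.KL

variable {n : ℕ} {u v : Equiv.Perm (Fin n)}

/-- weight of a minor -/
def wt {ι : Type*} [Fintype ι] (f g : ι → Fin n) (k : Fin n) : ℤ :=
  ∑ x, (if f x = k then 1 else 0) - ∑ y, (if g y = k then 1 else 0)

namespace E1

section sums

variable {s : ℕ} {f g : Fin s → Fin n} {i0 j0 : Fin n} {A : Finset (Fin s)}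

theorem ht_inner (τ : Equiv.Perm (Fin s)) (hO : OO u f g A τ ≠ 0) :
    ht (fun y : A => f (τ y)) (fun y : A => g y) < ht f g ∨
      wt (fun y : A => f (τ y)) (fun y : A => g y) = wt f g := by
  have h0 : ∀ y ∈ Aᶜ, g y = f (τ y) ∨ g y < f (τ y) := by
    intro y hy
    have h2 : Zmat u (u (f (τ y))) (g y) ≠ 0 := by
      intro hz
      exact hO (Finset.prod_eq_zero hy hz)
    rcases entry_ne_zero h2 with h3 | h3
    · exact Or.inl h3
    · exact Or.inr h3.1
  have h1 : ∀ y ∈ Aᶜ, ((g y : ℕ) : ℤ) ≤ ((f (τ y) : ℕ) : ℤ) := by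
    intro y hy
    rcases h0 y hy with h3 | h3
    · rw [h3]
    · exact_mod_cast h3.le
  have h2 : ∑ x, ((f x : ℕ) : ℤ) = ∑ y, ((f (τ y) : ℕ) : ℤ) :=
    (Equiv.sum_comp τ (fun x => ((f x : ℕ) : ℤ))).symm
  by_cases hall : ∀ y ∈ Aᶜ, g y = f (τ y)
  · right
    funext k
    unfold wt
    have h3 : ∑ x, (if f x = k then (1 : ℤ) else 0) = ∑ y, (if f (τ y) = k then (1 : ℤ) else 0) :=
      (Equiv.sum_comp τ (fun x => (if f x = k then (1 : ℤ) else 0))).symm
    rw [h3, ← Finset.sum_add_sum_compl A (fun y => (if f (τ y) = k then (1 : ℤ) else 0)),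
      ← Finset.sum_add_sum_compl A (fun y => (if g y = k then (1 : ℤ) else 0)),
      ← Finset.sum_coe_sort A (fun y => (if f (τ y) = k then (1 : ℤ) else 0)),
      ← Finset.sum_coe_sort A (fun y => (if g y = k then (1 : ℤ) else 0))]
    have h4 : ∑ y ∈ Aᶜ, (if f (τ y) = k then (1 : ℤ) else 0) =
        ∑ y ∈ Aᶜ, (if g y = k then (1 : ℤ) else 0) := by
      refine Finset.sum_congr rfl fun y hy => ?_
      rw [hall y hy]
    rw [h4]
    ring
  · left
    push Not at hall
    obtain ⟨y0, hy0, hne⟩ := hall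
    have h5 : ((g y0 : ℕ) : ℤ) < ((f (τ y0) : ℕ) : ℤ) := by
      rcases h0 y0 hy0 with h3 | h3
      · exact absurd h3 hne
      · exact_mod_cast h3
    unfold ht
    rw [h2, ← Finset.sum_add_sum_compl A (fun y => ((f (τ y) : ℕ) : ℤ)),
      ← Finset.sum_add_sum_compl A (fun y => ((g y : ℕ) : ℤ)),
      ← Finset.sum_coe_sort A (fun y => ((f (τ y) : ℕ) : ℤ)),
      ← Finset.sum_coe_sort A (fun y => ((g y : ℕ) : ℤ))]
    have h3 := Finset.sum_lt_sum h1 ⟨y0, hy0, h5⟩
    linarith

open Classical in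
theorem block_mem' (K : Ideal (MvPolynomial (Free u) ℂ)) {i j : Fin n}
    (H : ∀ i' j' : Fin n, i ≤ i' → j' ≤ j → (i' ≠ i ∨ j' ≠ j) → ∀ (s' : ℕ) (f' g' : Fin s' → Fin n),
      (∀ x, i' ≤ u (f' x)) → (∀ y, g' y ≤ j') → rk v i' j' < s' →
      (ht f' g' < ht f g ∨ wt f' g' = wt f g) → Dstar u v i' j' f' g' ∈ K)
    (p : Fin n × Fin n) (A : Finset (Fin s)) :
    ∑ τ ∈ Finset.univ.filter (fun τ : Equiv.Perm (Fin s) =>
      First u v i j f g τ p ∧ cells u f g p.1 p.2 τ = A), FF u f g τ ∈ K := by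
  obtain ⟨i0, j0⟩ := p
  simp only
  by_cases hst : i ≤ i0 ∧ j0 ≤ j ∧ (i0 ≠ i ∨ j0 ≠ j) ∧ rk v i0 j0 < A.card
  · obtain ⟨h1, h2, h3, h4⟩ := hst
    have e1 : ∑ τ ∈ Finset.univ.filter (fun τ : Equiv.Perm (Fin s) =>
        First u v i j f g τ (i0, j0) ∧ cells u f g i0 j0 τ = A), FF u f g τ =
        ∑ τ ∈ Finset.univ.filter (QQ u v i j i0 j0 f g A),
          if CC u v i0 j0 f g τ then FF u f g τ else 0 := by
      rw [← Finset.sum_filter, Finset.filter_filter]
      refine Finset.sum_congr ?_ fun _ _ => rfl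
      ext τ
      rw [Finset.mem_filter, Finset.mem_filter, first_iff h1 h2 h3 h4 τ]
    rw [e1]
    refine mem_of_natCast_mul (m := Fintype.card (Equiv.Perm A)) Fintype.card_ne_zero ?_
    rw [card_mul_sum h1 h2]
    refine K.sum_mem fun τ hτ => sign_smul_mem τ ?_
    have hQ : QQ u v i j i0 j0 f g A τ := (Finset.mem_filter.1 hτ).2
    by_cases hO : OO u f g A τ = 0
    · rw [hO, zero_mul]; exact K.zero_mem
    · refine K.mul_mem_left _ ?_
      rw [← Dstar_reindex A.equivFin.symm]
      have e2 : ht (fun x => f (τ (A.equivFin.symm x))) (fun y => g (A.equivFin.symm y)) =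
          ht (fun y : A => f (τ y)) (fun y : A => g y) := by
        unfold ht
        congr 1
        · exact Equiv.sum_comp A.equivFin.symm (fun y : A => ((f (τ y) : ℕ) : ℤ))
        · exact Equiv.sum_comp A.equivFin.symm (fun y : A => ((g y : ℕ) : ℤ))
      have e3 : wt (fun x => f (τ (A.equivFin.symm x))) (fun y => g (A.equivFin.symm y)) =
          wt (fun y : A => f (τ y)) (fun y : A => g y) := by
        funext k
        unfold wt
        congr 1
        · exact Equiv.sum_comp A.equivFin.symm (fun y : A => (if f (τ y) = k then (1 : ℤ) else 0))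
        · exact Equiv.sum_comp A.equivFin.symm (fun y : A => (if g y = k then (1 : ℤ) else 0))
      refine H i0 j0 h1 h2 h3 A.card _ _ ?_ ?_ h4 ?_
      · intro x
        exact ((mem_of_cells hQ.1).1 (A.equivFin.symm x).2).2
      · intro y
        exact ((mem_of_cells hQ.1).1 (A.equivFin.symm y).2).1
      · rcases ht_inner τ hO with h5 | h5
        · exact Or.inl (by
            refine lt_of_le_of_lt (le_of_eq ?_) h5
            exact e2)
        · exact Or.inr (by
            refine Eq.trans ?_ h5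
            exact e3)
  · have e0 : Finset.univ.filter (fun τ : Equiv.Perm (Fin s) =>
        First u v i j f g τ (i0, j0) ∧ cells u f g i0 j0 τ = A) = ∅ := by
      rw [Finset.filter_eq_empty_iff]
      intro τ _ hτ
      obtain ⟨hF, hA⟩ := hτ
      refine hst ⟨hF.1.1, hF.1.2.1, hF.1.2.2.1, ?_⟩
      have := hF.1.2.2.2
      simp only at this
      rw [← card_cells, hA] at this
      exact this
    rw [e0, Finset.sum_empty]
    exact K.zero_mem

end sums

end E1

open E1 in
theorem star_sub_mem' (K : Ideal (MvPolynomial (Free u) ℂ)) (i j : Fin n)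
    {s : ℕ} (f g : Fin s → Fin n)
    (H : ∀ i' j' : Fin n, i ≤ i' → j' ≤ j → (i' ≠ i ∨ j' ≠ j) → ∀ (s' : ℕ) (f' g' : Fin s' → Fin n),
      (∀ x, i' ≤ u (f' x)) → (∀ y, g' y ≤ j') → rk v i' j' < s' →
      (ht f' g' < ht f g ∨ wt f' g' = wt f g) → Dstar u v i' j' f' g' ∈ K) :
    Dm u f g - Dstar u v i j f g ∈ K := by
  classical
  have e1 : Dm u f g = ∑ τ : Equiv.Perm (Fin s), FF u f g τ := by
    unfold Dm FF
    rw [Matrix.det_apply]
    rfl
  have e2 : Dstar u v i j f g =
      ∑ τ ∈ Finset.univ.filter (Star u v i j f g), FF u f g τ := by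
    unfold Dstar FF
    refine Finset.sum_congr ?_ fun _ _ => rfl
    ext τ
    simp only [Finset.mem_filter]
  have e3 : Dm u f g - Dstar u v i j f g =
      ∑ τ ∈ Finset.univ.filter (fun τ => ¬ Star u v i j f g τ), FF u f g τ := by
    rw [e1, e2, ← Finset.sum_filter_add_sum_filter_not Finset.univ (Star u v i j f g)]
    ring
  have e4 : ∑ τ ∈ Finset.univ.filter (fun τ => ¬ Star u v i j f g τ), FF u f g τ =
      ∑ p : Fin n × Fin n, ∑ A : Finset (Fin s),
        ∑ τ ∈ Finset.univ.filter (fun τ : Equiv.Perm (Fin s) =>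
          First u v i j f g τ p ∧ cells u f g p.1 p.2 τ = A), FF u f g τ := by
    rw [Finset.sum_filter]
    have e5 : ∀ p : Fin n × Fin n, (∑ A : Finset (Fin s),
        ∑ τ ∈ Finset.univ.filter (fun τ : Equiv.Perm (Fin s) =>
          First u v i j f g τ p ∧ cells u f g p.1 p.2 τ = A), FF u f g τ) =
        ∑ τ : Equiv.Perm (Fin s), if First u v i j f g τ p then FF u f g τ else 0 := by
      intro p
      have e6 : ∀ A : Finset (Fin s), ∑ τ ∈ Finset.univ.filter (fun τ : Equiv.Perm (Fin s) =>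
          First u v i j f g τ p ∧ cells u f g p.1 p.2 τ = A), FF u f g τ =
          ∑ τ : Equiv.Perm (Fin s), if cells u f g p.1 p.2 τ = A then
            (if First u v i j f g τ p then FF u f g τ else 0) else 0 := by
        intro A
        rw [Finset.sum_filter]
        refine Finset.sum_congr rfl fun τ _ => ?_
        by_cases a1 : First u v i j f g τ p
        · by_cases a2 : cells u f g p.1 p.2 τ = A
          · rw [if_pos ⟨a1, a2⟩, if_pos a2, if_pos a1]
          · rw [if_neg (fun hc => a2 hc.2), if_neg a2]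
        · by_cases a2 : cells u f g p.1 p.2 τ = A
          · rw [if_neg (fun hc => a1 hc.1), if_pos a2, if_neg a1]
          · rw [if_neg (fun hc => a2 hc.2), if_neg a2]
      rw [Finset.sum_congr rfl fun A _ => e6 A, Finset.sum_comm]
      refine Finset.sum_congr rfl fun τ _ => ?_
      rw [Finset.sum_ite_eq Finset.univ (cells u f g p.1 p.2 τ), if_pos (Finset.mem_univ _)]
    rw [Finset.sum_congr rfl fun p _ => e5 p, Finset.sum_comm]
    refine Finset.sum_congr rfl fun τ _ => ?_
    by_cases hS : Star u v i j f g τ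
    · rw [if_neg (not_not.2 hS)]
      symm
      refine Finset.sum_eq_zero fun p _ => ?_
      rw [if_neg]
      intro hc
      exact not_star_of_viol hc.1 hS
    · rw [if_pos hS]
      obtain ⟨p, hp⟩ := exists_first hS
      rw [Finset.sum_eq_single p]
      · rw [if_pos hp]
      · intro q _ hq
        rw [if_neg]
        intro hc
        exact hq (hc.unique hp)
      · intro hc
        exact absurd (Finset.mem_univ _) hc
  rw [e3, e4]
  refine K.sum_mem fun p _ => K.sum_mem fun A _ => ?_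
  exact block_mem' K H p A

/-- the reduced minors of lower height -/
theorem low_star {K : Ideal (MvPolynomial (Free u) ℂ)} {h : ℤ} (hL : Low u v K h) :
    ∀ (d : ℕ) (i j : Fin n), (n - (i : ℕ)) + j < d → ∀ (s : ℕ) (f g : Fin s → Fin n),
      (∀ x, i ≤ u (f x)) → (∀ y, g y ≤ j) → rk v i j < s → ht f g < h →
      Dstar u v i j f g ∈ K := by
  intro d
  induction d with
  | zero => intro i j hd; omega
  | succ d ih =>
    intro i j hd s f g hf hg hs hh
    have h1 : Dm u f g - Dstar u v i j f g ∈ K := by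
      refine star_sub_mem K i j (h - 1) ?_ f g hf hg (by omega)
      intro i' j' hi hj hne s' f' g' h1 h2 h3 h4
      refine ih i' j' ?_ s' f' g' h1 h2 h3 (by omega)
      have h5 : (i : ℕ) ≤ i' := hi
      have h6 : (j' : ℕ) ≤ j := hj
      have h7 := i'.isLt
      have h8 : (i' : ℕ) ≠ i ∨ (j' : ℕ) ≠ j := by
        rcases hne with h9 | h9
        · exact Or.inl fun h10 => h9 (Fin.ext h10)
        · exact Or.inr fun h10 => h9 (Fin.ext h10)
      omega
    have h2 : Dm u f g ∈ K := low_mem hL f g hf hg hs hh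
    have h3 := K.sub_mem h2 h1
    rwa [sub_sub_cancel] at h3

end Pool.Agent.H30.KL
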