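import Pool.Agent.H30.KL.Gen.SuffC1

/-!
# Two neighbouring boxes of the same pair; entries of dead steps
-/

open MvPolynomial Matrix

namespace Pool.Agent.H30.KL

variable {n : ℕ} {u v : Equiv.Perm (Fin n)} {K : Ideal (MvPolynomial (Free u) ℂ)}

theorem adj_C {h : ℤ} (hL : Low u v K h) {i j i' j' : Fin n} {C R : Finset (Fin n)}
    (hC : C ⊆ SWs u i j) (hR : R ⊆ NEs u i j) (hCR : C.card = R.card)
    (hrk : rk u i j + C.card = rk v i j + 1) (hh : hs (NWs u i j ∪ R) (NWs u i j ∪ C) ≤ h)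
    (hC' : C ⊆ SWs u i' j') (hrk' : rk u i' j' + C.card = rk v i' j' + 1) (hi : i' ≤ i) (hj : j' ≤ j)
    (hK : InK u K (NWs u i' j' ∪ R) (NWs u i' j' ∪ C)) : InK u K (NWs u i j ∪ R) (NWs u i j ∪ C) := by
  classical
  have mC : ∀ c ∈ C, c ≤ j ∧ u c < i := fun c hc => mem_SWs.1 (hC hc)
  have mC' : ∀ c ∈ C, c ≤ j' ∧ u c < i' := fun c hc => mem_SWs.1 (hC' hc)
  have mR : ∀ r ∈ R, j < r ∧ i ≤ u r := fun r hr => mem_NEs.1 (hR hr)
  have dWR : Disjoint (NWs u i j) R := by
    rw [Finset.disjoint_left]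
    intro k hk hk'
    exact absurd (mem_NWs.1 hk).1 (not_le.2 (mR k hk').1)
  have dWC' : Disjoint (NWs u i' j') C := by
    rw [Finset.disjoint_left]
    intro k hk hk'
    exact absurd (mem_NWs.1 hk).2 (not_le.2 (mC' k hk').2)
  have cWR : (NWs u i j ∪ R).card = rk v i j + 1 := by
    rw [Finset.card_union_of_disjoint dWR, card_NWs, ← hCR, hrk]
  have cWC' : (NWs u i' j' ∪ C).card = rk v i' j' + 1 := by
    rw [Finset.card_union_of_disjoint dWC', card_NWs, hrk']
  obtain ⟨Y, hY⟩ : ∃ Y : Finset (Fin n), ∀ k, k ∈ Y ↔ (k ≤ j' ∧ i' ≤ u k ∧ u k < i) :=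
    ⟨Finset.univ.filter fun k => k ≤ j' ∧ i' ≤ u k ∧ u k < i, fun k => by simp⟩
  have dYR : Disjoint Y (NWs u i j ∪ R) := by
    rw [Finset.disjoint_left]
    intro k hk hk'
    have h1 := ((hY k).1 hk).2.2
    rcases Finset.mem_union.1 hk' with h2 | h2
    · exact absurd (mem_NWs.1 h2).2 (not_le.2 h1)
    · exact absurd (mR k h2).2 (not_le.2 h1)
  have dYC : Disjoint Y (NWs u i j ∪ C) := by
    rw [Finset.disjoint_left]
    intro k hk hk'
    have h1 := ((hY k).1 hk)
    rcases Finset.mem_union.1 hk' with h2 | h2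
    · exact absurd (mem_NWs.1 h2).2 (not_le.2 h1.2.2)
    · exact absurd h1.2.1 (not_le.2 (mC' k h2).2)
  have hs2 : hs (NWs u i j ∪ R ∪ Y) (NWs u i j ∪ C ∪ Y) ≤ h := by
    rw [redC_hs_union dYR dYC]
    exact hh
  apply redC_add hL (i := i) (j := j) Y _ _ _ _ hh dYR dYC
  · intro x hx
    exact le_trans ((hY x).1 hx).1 hj
  rotate_left
  · rw [Finset.filter_true_of_mem, cWR]
    · exact Nat.lt_succ_self _
    · intro x hx
      rcases Finset.mem_union.1 hx with h2 | h2
      · exact (mem_NWs.1 h2).2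
      · exact (mR x h2).2
  · intro x hx
    rcases Finset.mem_union.1 hx with h2 | h2
    · exact (mem_NWs.1 h2).1
    · exact (mC x h2).1
  have hF2 : ∀ x ∈ NWs u i j ∪ R ∪ Y, i' ≤ u x := by
    intro x hx
    rcases Finset.mem_union.1 hx with hx | hx
    · rcases Finset.mem_union.1 hx with h2 | h2
      · exact le_trans hi (mem_NWs.1 h2).2
      · exact le_trans hi (mR x h2).2
    · exact ((hY x).1 hx).2.1
  have hsub : NWs u i' j' ∪ C ⊆ (NWs u i j ∪ C ∪ Y).filter fun y => y ≤ j' := by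
    intro k hk
    rw [Finset.mem_filter]
    rcases Finset.mem_union.1 hk with hk | hk
    · have h1 := mem_NWs.1 hk
      refine ⟨?_, h1.1⟩
      rw [Finset.mem_union, Finset.mem_union]
      by_cases h2 : i ≤ u k
      · exact Or.inl (Or.inl (mem_NWs.2 ⟨le_trans h1.1 hj, h2⟩))
      · exact Or.inr ((hY k).2 ⟨h1.1, h1.2, not_le.1 h2⟩)
    · refine ⟨?_, (mC' k hk).1⟩
      rw [Finset.mem_union, Finset.mem_union]
      exact Or.inl (Or.inr hk)
  have hG2 : rk v i' j' < ((NWs u i j ∪ C ∪ Y).filter fun y => y ≤ j').card := by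
    have h1 := Finset.card_le_card hsub
    omega
  obtain ⟨X, hX⟩ : ∃ X : Finset (Fin n), ∀ k, k ∈ X ↔ k ∈ NWs u i j ∧ j' < k :=
    ⟨(NWs u i j).filter fun k => j' < k, fun k => by rw [Finset.mem_filter]⟩
  have hXF : X ⊆ NWs u i j ∪ R ∪ Y := by
    intro k hk
    rw [Finset.mem_union, Finset.mem_union]
    exact Or.inl (Or.inl ((hX k).1 hk).1)
  have hXG : X ⊆ NWs u i j ∪ C ∪ Y := by
    intro k hk
    rw [Finset.mem_union, Finset.mem_union]
    exact Or.inl (Or.inl ((hX k).1 hk).1)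
  apply redC_sdiff hL (i := i') (j := j') X _ _ hF2 hG2 hs2 hXF hXG
    (fun x hx => ((hX x).1 hx).2)
  have e1 : (NWs u i j ∪ R ∪ Y) \ X = NWs u i' j' ∪ R := by
    ext k
    simp only [Finset.mem_sdiff, Finset.mem_union, hX, hY, mem_NWs]
    constructor
    · rintro ⟨(⟨h1, h2⟩ | h1) | ⟨h1, h2, h3⟩, h4⟩
      · left
        refine ⟨?_, hi.trans h2⟩
        by_contra h5
        exact h4 ⟨⟨h1, h2⟩, not_le.1 h5⟩
      · exact Or.inr h1
      · exact Or.inl ⟨h1, h2⟩
    · rintro (⟨h1, h2⟩ | h1)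
      · refine ⟨?_, fun h3 => absurd h3.2 (not_lt.2 h1)⟩
        by_cases h3 : i ≤ u k
        · exact Or.inl (Or.inl ⟨h1.trans hj, h3⟩)
        · exact Or.inr ⟨h1, h2, not_le.1 h3⟩
      · exact ⟨Or.inl (Or.inr h1), fun h3 => absurd (mR k h1).1 (not_lt.2 h3.1.1)⟩
  have e2 : (NWs u i j ∪ C ∪ Y) \ X = NWs u i' j' ∪ C := by
    ext k
    simp only [Finset.mem_sdiff, Finset.mem_union, hX, hY, mem_NWs]
    constructor
    · rintro ⟨(⟨h1, h2⟩ | h1) | ⟨h1, h2, h3⟩, h4⟩
      · left
        refine ⟨?_, hi.trans h2⟩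
        by_contra h5
        exact h4 ⟨⟨h1, h2⟩, not_le.1 h5⟩
      · exact Or.inr h1
      · exact Or.inl ⟨h1, h2⟩
    · rintro (⟨h1, h2⟩ | h1)
      · refine ⟨?_, fun h3 => absurd h3.2 (not_lt.2 h1)⟩
        by_cases h3 : i ≤ u k
        · exact Or.inl (Or.inl ⟨h1.trans hj, h3⟩)
        · exact Or.inr ⟨h1, h2, not_le.1 h3⟩
      · exact ⟨Or.inl (Or.inr h1), fun h3 => absurd (mC' k h1).1 (not_le.2 h3.2)⟩
  rw [e1, e2]
  exact hK

theorem adj_R {h : ℤ} (hL : Low u v K h) {i j i' j' : Fin n} {C R : Finset (Fin n)}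
    (hC : C ⊆ SWs u i j) (hR : R ⊆ NEs u i j) (hCR : C.card = R.card)
    (hrk : rk u i j + C.card = rk v i j + 1) (hh : hs (NWs u i j ∪ R) (NWs u i j ∪ C) ≤ h)
    (hR' : R ⊆ NEs u i' j') (hrk' : rk u i' j' + C.card = rk v i' j' + 1) (hi : i ≤ i') (hj : j ≤ j')
    (hK : InK u K (NWs u i' j' ∪ R) (NWs u i' j' ∪ C)) : InK u K (NWs u i j ∪ R) (NWs u i j ∪ C) := by
  classical
  have mC : ∀ x ∈ C, x ≤ j ∧ u x < i := fun x hx => mem_SWs.1 (hC hx)
  have mR : ∀ x ∈ R, j < x ∧ i ≤ u x := fun x hx => mem_NEs.1 (hR hx)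
  have mR' : ∀ x ∈ R, j' < x ∧ i' ≤ u x := fun x hx => mem_NEs.1 (hR' hx)
  obtain ⟨X, mX⟩ : ∃ X : Finset (Fin n), ∀ k, k ∈ X ↔ (j < k ∧ k ≤ j' ∧ i' ≤ u k) :=
    ⟨Finset.univ.filter fun k : Fin n => j < k ∧ k ≤ j' ∧ i' ≤ u k, fun k => by simp⟩
  have dWC : Disjoint (NWs u i j) C := by
    rw [Finset.disjoint_left]
    intro x hx hx'
    exact absurd (mC x hx').2 (not_lt.2 (mem_NWs.1 hx).2)
  have dWR' : Disjoint (NWs u i' j') R := by
    rw [Finset.disjoint_left]
    intro x hx hx'
    exact absurd (mR' x hx').1 (not_lt.2 (mem_NWs.1 hx).1)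
  have dF : Disjoint (NWs u i j ∪ R) X := by
    rw [Finset.disjoint_left]
    intro x hx hx'
    have hx' := (mX x).1 hx'
    rcases Finset.mem_union.1 hx with hx | hx
    · exact absurd hx'.1 (not_lt.2 (mem_NWs.1 hx).1)
    · exact absurd hx'.2.1 (not_le.2 (mR' x hx).1)
  have dG : Disjoint (NWs u i j ∪ C) X := by
    rw [Finset.disjoint_left]
    intro x hx hx'
    have hx' := (mX x).1 hx'
    rcases Finset.mem_union.1 hx with hx | hx
    · exact absurd hx'.1 (not_lt.2 (mem_NWs.1 hx).1)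
    · exact absurd hx'.1 (not_lt.2 (mC x hx).1)
  refine red_R1 hL (i := i) (j := j) X ?_ ?_ ?_ hh dF dG ?_
  · intro x hx
    exact hi.trans ((mX x).1 hx).2.2
  · intro x hx
    rcases Finset.mem_union.1 hx with hx | hx
    · exact (mem_NWs.1 hx).2
    · exact (mR x hx).2
  · have e : (NWs u i j ∪ C).filter (fun y => y ≤ j) = NWs u i j ∪ C := by
      rw [Finset.filter_eq_self]
      intro x hx
      rcases Finset.mem_union.1 hx with hx | hx
      · exact (mem_NWs.1 hx).1
      · exact (mC x hx).1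
    rw [e, Finset.card_union_of_disjoint dWC, card_NWs, hrk]
    exact Nat.lt_succ_self _
  have hh2 : hs (NWs u i j ∪ R ∪ X) (NWs u i j ∪ C ∪ X) ≤ h := by
    rw [hs_union_R dF dG]
    exact hh
  have hcol : ∀ y ∈ NWs u i j ∪ C ∪ X, y ≤ j' := by
    intro y hy
    rcases Finset.mem_union.1 hy with hy | hy
    · rcases Finset.mem_union.1 hy with hy | hy
      · exact (mem_NWs.1 hy).1.trans hj
      · exact (mC y hy).1.trans hj
    · exact ((mX y).1 hy).2.1
  have hrow : rk v i' j' < ((NWs u i j ∪ R ∪ X).filter fun x => i' ≤ u x).card := by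
    have hsub : NWs u i' j' ∪ R ⊆ (NWs u i j ∪ R ∪ X).filter (fun x => i' ≤ u x) := by
      intro x hx
      rw [Finset.mem_filter, Finset.mem_union, Finset.mem_union]
      rcases Finset.mem_union.1 hx with hx | hx
      · have h1 := mem_NWs.1 hx
        refine ⟨?_, h1.2⟩
        rcases le_or_gt x j with h6 | h6
        · exact Or.inl (Or.inl (mem_NWs.2 ⟨h6, hi.trans h1.2⟩))
        · exact Or.inr ((mX x).2 ⟨h6, h1.1, h1.2⟩)
      · exact ⟨Or.inl (Or.inr hx), (mR' x hx).2⟩
    have h1 := Finset.card_le_card hsub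
    rw [Finset.card_union_of_disjoint dWR', card_NWs] at h1
    omega
  have hZF : ((NWs u i j).filter fun k => u k < i') ⊆ NWs u i j ∪ R ∪ X := by
    intro x hx
    rw [Finset.mem_union, Finset.mem_union]
    exact Or.inl (Or.inl (Finset.mem_filter.1 hx).1)
  have hZG : ((NWs u i j).filter fun k => u k < i') ⊆ NWs u i j ∪ C ∪ X := by
    intro x hx
    rw [Finset.mem_union, Finset.mem_union]
    exact Or.inl (Or.inl (Finset.mem_filter.1 hx).1)
  refine red_R2 hL (i := i') (j := j') ((NWs u i j).filter fun k => u k < i') ?_ hcol hrow hh2 hZF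
    hZG ?_
  · intro x hx
    exact (Finset.mem_filter.1 hx).2
  have e1 : (NWs u i j ∪ R ∪ X) \ ((NWs u i j).filter fun k => u k < i') = NWs u i' j' ∪ R := by
    ext k
    simp only [Finset.mem_sdiff, Finset.mem_union, Finset.mem_filter, mX, mem_NWs]
    constructor
    · rintro ⟨(⟨h1, h2⟩ | h1) | ⟨h1, h2, h3⟩, h5⟩
      · refine Or.inl ⟨h1.trans hj, ?_⟩
        by_contra h6
        exact h5 ⟨⟨h1, h2⟩, not_le.1 h6⟩
      · exact Or.inr h1
      · exact Or.inl ⟨h2, h3⟩
    · rintro (⟨h1, h2⟩ | h1)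
      · refine ⟨?_, fun h3 => absurd h3.2 (not_lt.2 h2)⟩
        rcases le_or_gt k j with h6 | h6
        · exact Or.inl (Or.inl ⟨h6, hi.trans h2⟩)
        · exact Or.inr ⟨h6, h1, h2⟩
      · exact ⟨Or.inl (Or.inr h1), fun h3 => absurd (mR k h1).1 (not_lt.2 h3.1.1)⟩
  have e2 : (NWs u i j ∪ C ∪ X) \ ((NWs u i j).filter fun k => u k < i') = NWs u i' j' ∪ C := by
    ext k
    simp only [Finset.mem_sdiff, Finset.mem_union, Finset.mem_filter, mX, mem_NWs]
    constructor
    · rintro ⟨(⟨h1, h2⟩ | h1) | ⟨h1, h2, h3⟩, h5⟩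
      · refine Or.inl ⟨h1.trans hj, ?_⟩
        by_contra h6
        exact h5 ⟨⟨h1, h2⟩, not_le.1 h6⟩
      · exact Or.inr h1
      · exact Or.inl ⟨h2, h3⟩
    · rintro (⟨h1, h2⟩ | h1)
      · refine ⟨?_, fun h3 => absurd h3.2 (not_lt.2 h2)⟩
        rcases le_or_gt k j with h6 | h6
        · exact Or.inl (Or.inl ⟨h6, hi.trans h2⟩)
        · exact Or.inr ⟨h6, h1, h2⟩
      · exact ⟨Or.inl (Or.inr h1), fun h3 => absurd (mC k h1).2 (not_lt.2 h3.1.2)⟩
  rw [e1, e2]
  exact hK

attribute [local instance] MvPolynomial.gradedAlgebra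

theorem theta_theta {σ : Type*} (s t : ℂ) (p : MvPolynomial σ ℂ) :
    theta s (theta t p) = theta (s * t) p := by
  have h : (theta s).comp (theta t) = theta (σ := σ) (s * t) := by
    apply MvPolynomial.algHom_ext
    intro x
    rw [AlgHom.comp_apply, theta_X, map_mul, theta_X, theta_X, map_mul, ← MvPolynomial.algebraMap_eq,
      AlgHom.commutes]
    ring
  exact DFunLike.congr_fun h p

theorem th_hom {σ : Type*} (I : Ideal (MvPolynomial σ ℂ)) :
    (Th I).IsHomogeneous (homogeneousSubmodule σ ℂ) := by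
  apply hom_of_scale
  intro s f hf
  rw [mem_Th] at hf ⊢
  intro t
  rw [theta_theta]
  exact hf _

theorem zmat_hom (a b : Fin n) (hab : a ≠ b) : (Zmat u (u b) a).IsHomogeneous 1 := by
  by_cases h : Zmat u (u b) a = 0
  · rw [h]; exact isHomogeneous_zero _ _ _
  rcases entry_ne_zero h with h1 | h1
  · exact absurd h1 hab
  · have h2 : Zmat u (u b) a = X ⟨(u b, a), h1.2, by rw [Equiv.symm_apply_apply]; exact h1.1⟩ := by
      unfold Zmat
      rw [Matrix.of_apply, dif_pos ⟨h1.2, by rw [Equiv.symm_apply_apply]; exact h1.1⟩]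
    rw [h2]
    exact isHomogeneous_X _ _

/-- the entry of a step which is not allowed lies in the ideal, if the minors of larger height than the step are not used -/
theorem dead_low (huv : BruhatLE u v) {h : ℤ} (hL : Low u v (Th (klIdeal u v)) h) {a b : Fin n}
    (hab : a < b) (hu : u a < u b) (hd : ¬ BruhatLE (u * Equiv.swap a b) v)
    (hlt : ((b : ℕ) : ℤ) - ((a : ℕ) : ℤ) < h) : Zmat u (u b) a ∈ klIdeal u v := by
  classical
  obtain ⟨i, j, -, haj, hjb, hai, hib, hrk⟩ := sep_of_not_le huv hab hu hd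
  set W := NWs u i j with hW
  have hWc : W.card = rk v i j := by rw [hW, card_NWs, hrk]
  set w := W.orderEmbOfFin rfl with hw
  have hwm : ∀ k, w k ≤ j ∧ i ≤ u (w k) := fun k => mem_NWs.1 (W.orderEmbOfFin_mem rfl k)
  have hwinj : Function.Injective w := w.injective
  set f : Fin (W.card + 1) → Fin n := Fin.cons b w with hf
  set g : Fin (W.card + 1) → Fin n := Fin.cons a w with hg
  have hfr : ∀ x, i ≤ u (f x) := by
    intro x
    refine Fin.cases ?_ (fun k => ?_) x
    · exact hib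
    · exact (hwm k).2
  have hgc : ∀ y, g y ≤ j := by
    intro y
    refine Fin.cases ?_ (fun k => ?_) y
    · exact haj
    · exact (hwm k).1
  have hht : ht f g = ((b : ℕ) : ℤ) - ((a : ℕ) : ℤ) := by
    unfold ht
    rw [Fin.sum_univ_succ, Fin.sum_univ_succ]
    simp only [hf, hg, Fin.cons_zero, Fin.cons_succ]
    ring
  have h1 : Dm u f g ∈ Th (klIdeal u v) :=
    low_mem hL f g hfr hgc (by rw [← hWc]; exact Nat.lt_succ_self _) (by rw [hht]; exact hlt)
  have h2 := homogeneousComponent_mem_of_mem (th_hom (klIdeal u v)) h1 1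
  have hterm : ∀ τ : Equiv.Perm (Fin (W.card + 1)),
      (∏ y, Zmat u (u (f (τ y))) (g y)).IsHomogeneous
        (Finset.univ.filter fun y => f (τ y) ≠ g y).card := by
    intro τ
    have h3 : (Finset.univ.filter fun y => f (τ y) ≠ g y).card =
        ∑ y, if f (τ y) ≠ g y then 1 else 0 := by
      rw [Finset.card_filter]
    rw [h3]
    apply IsHomogeneous.prod
    intro y _
    by_cases h4 : f (τ y) = g y
    · rw [if_neg (not_not.2 h4), h4]
      have h5 : Zmat u (u (g y)) (g y) = 1 := by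
        unfold Zmat
        rw [Matrix.of_apply, dif_neg (fun h => lt_irrefl _ h.1), if_pos rfl]
      rw [h5]
      exact isHomogeneous_one _ _
    · rw [if_pos h4]
      exact zmat_hom _ _ (Ne.symm h4)
  have hcomp : homogeneousComponent 1 (Dm u f g) = Zmat u (u b) a := by
    unfold Dm
    rw [Matrix.det_apply, map_sum]
    have hone : ∀ τ : Equiv.Perm (Fin (W.card + 1)), homogeneousComponent 1
        (Equiv.Perm.sign τ • ∏ y, ((Zmat u).submatrix (fun x => u (f x)) g) (τ y) y) =
        if (Finset.univ.filter fun y => f (τ y) ≠ g y).card = 1 then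
          Equiv.Perm.sign τ • ∏ y, Zmat u (u (f (τ y))) (g y) else 0 := by
      intro τ
      have h3 : (∏ y, ((Zmat u).submatrix (fun x => u (f x)) g) (τ y) y) =
          ∏ y, Zmat u (u (f (τ y))) (g y) := rfl
      rw [h3, Units.smul_def, map_zsmul]
      have h4 := homogeneousComponent_of_mem (m := 1) ((mem_homogeneousSubmodule _ _).2 (hterm τ))
      rw [h4]
      by_cases h5 : (Finset.univ.filter fun y => f (τ y) ≠ g y).card = 1
      · rw [if_pos h5.symm, if_pos h5]
      · rw [if_neg (fun h6 => h5 h6.symm), if_neg h5, smul_zero]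
    rw [Finset.sum_congr rfl fun τ _ => hone τ, Finset.sum_eq_single 1]
    · have h3 : (Finset.univ.filter fun y => f ((1 : Equiv.Perm (Fin (W.card + 1))) y) ≠ g y) =
          {0} := by
        ext y
        rw [Finset.mem_filter, Finset.mem_singleton, Equiv.Perm.one_apply]
        refine Fin.cases ?_ (fun k => ?_) y
        · refine ⟨fun _ => rfl, fun _ => ⟨Finset.mem_univ _, ?_⟩⟩
          simp only [hf, hg, Fin.cons_zero]
          exact hab.ne'
        · refine ⟨fun h => absurd rfl h.2, fun h => absurd h (Fin.succ_ne_zero k)⟩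
      rw [h3, if_pos (Finset.card_singleton _), Equiv.Perm.sign_one, one_smul, Fin.prod_univ_succ]
      have h4 : ∀ k : Fin W.card, Zmat u (u (f ((1 : Equiv.Perm (Fin (W.card + 1))) k.succ)))
          (g k.succ) = 1 := by
        intro k
        unfold Zmat
        rw [Matrix.of_apply, dif_neg (fun h => lt_irrefl _ h.1)]
        exact if_pos rfl
      rw [Finset.prod_congr rfl fun k _ => h4 k, Finset.prod_const_one, mul_one]
      rfl
    · intro τ _ hτ
      rw [if_neg]
      intro h3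
      apply hτ
      have h0 : f (τ 0) ≠ g 0 := by
        intro h4
        have h5 : a ∉ Set.range f := by
          rintro ⟨x, hx⟩
          revert hx
          refine Fin.cases ?_ (fun k => ?_) x
          · intro hx
            exact hab.ne' hx
          · intro hx
            have h6 := (hwm k).2
            have h7 : w k = a := hx
            rw [h7] at h6
            exact absurd hai (not_lt.2 h6)
        exact h5 ⟨τ 0, h4⟩
      have h4 : ∀ y, y ≠ 0 → f (τ y) = g y := by
        intro y hy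
        by_contra h5
        have h6 : ({0, y} : Finset (Fin (W.card + 1))) ⊆
            Finset.univ.filter fun y => f (τ y) ≠ g y := by
          intro z hz
          rw [Finset.mem_insert, Finset.mem_singleton] at hz
          rw [Finset.mem_filter]
          rcases hz with rfl | rfl
          · exact ⟨Finset.mem_univ _, h0⟩
          · exact ⟨Finset.mem_univ _, h5⟩
        have h7 := Finset.card_le_card h6
        rw [Finset.card_pair (Ne.symm hy), h3] at h7
        omega
      have h5 : ∀ k : Fin W.card, τ k.succ = k.succ := by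
        intro k
        have h6 := h4 k.succ (Fin.succ_ne_zero k)
        have h7 : g k.succ = w k := rfl
        rw [h7] at h6
        revert h6
        refine Fin.cases ?_ (fun k' => ?_) (τ k.succ)
        · intro h6
          have h8 : b = w k := h6
          have h9 := (hwm k).1
          rw [← h8] at h9
          exact absurd hjb (not_lt.2 h9)
        · intro h6
          have h8 : w k' = w k := h6
          rw [hwinj h8]
      ext y
      refine Fin.cases ?_ (fun k => ?_) y
      · rw [Equiv.Perm.one_apply]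
        by_contra h6
        have h7 : τ 0 ≠ 0 := fun h => h6 (by rw [h])
        obtain ⟨k, hk⟩ := Fin.exists_succ_eq.2 h7
        have h8 := h5 k
        rw [hk] at h8
        exact h7 (τ.injective h8)
      · rw [h5, Equiv.Perm.one_apply]
    · intro h3
      exact absurd (Finset.mem_univ _) h3
  rw [hcomp] at h2
  exact Th_le _ h2

end Pool.Agent.H30.KL
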