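import Pool.Agent.H30.KL.Gen.SuffC2

/-!
# The criterion implies homogeneity
-/

open MvPolynomial Matrix

namespace Pool.Agent.H30.KL

variable {n : ℕ} {u v : Equiv.Perm (Fin n)}

/-- weight of a pair -/
def wc (C R : Finset (Fin n)) (k : Fin n) : ℤ := (if k ∈ R then 1 else 0) - (if k ∈ C then 1 else 0)

theorem sum_ind {s : ℕ} {f : Fin s → Fin n} (hf : Function.Injective f) (k : Fin n) :
    ∑ x, (if f x = k then (1 : ℤ) else 0) = if k ∈ Finset.univ.image f then 1 else 0 := by
  classical
  by_cases hk : k ∈ Finset.univ.image f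
  · obtain ⟨x, -, hx⟩ := Finset.mem_image.1 hk
    rw [if_pos hk, Finset.sum_eq_single x]
    · rw [if_pos hx]
    · intro y _ hy
      rw [if_neg]
      intro h
      exact hy (hf (h.trans hx.symm))
    · intro h
      exact absurd (Finset.mem_univ _) h
  · rw [if_neg hk]
    apply Finset.sum_eq_zero
    intro x _
    rw [if_neg]
    intro h
    exact hk (Finset.mem_image.2 ⟨x, Finset.mem_univ _, h⟩)

theorem wt_inj {s : ℕ} {f g : Fin s → Fin n} (hf : Function.Injective f)
    (hg : Function.Injective g) : wt f g = wc (Finset.univ.image g) (Finset.univ.image f) := by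
  funext k
  unfold wt wc
  rw [sum_ind hf, sum_ind hg]

theorem wc_sdiff (F G : Finset (Fin n)) : wc (G \ F) (F \ G) = wc G F := by
  funext k
  unfold wc
  by_cases h1 : k ∈ F
  · by_cases h2 : k ∈ G
    · simp [h1, h2]
    · simp [h1, h2]
  · by_cases h2 : k ∈ G
    · simp [h1, h2]
    · simp [h1, h2]

theorem sdiff_of_wc {C R F G : Finset (Fin n)} (hd : Disjoint C R) (h : wc G F = wc C R) :
    F \ G = R ∧ G \ F = C := by
  have key : ∀ k, ((k ∈ F ∧ k ∉ G) ↔ k ∈ R) ∧ ((k ∈ G ∧ k ∉ F) ↔ k ∈ C) := by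
    intro k
    have h1 := congrFun h k
    unfold wc at h1
    have h2 : ¬ (k ∈ C ∧ k ∈ R) := fun h3 => Finset.disjoint_left.1 hd h3.1 h3.2
    by_cases a1 : k ∈ F <;> by_cases a2 : k ∈ G <;> by_cases a3 : k ∈ R <;>
      by_cases a4 : k ∈ C <;> simp [a1, a2, a3, a4] at h1 h2 ⊢
  constructor
  · ext k
    rw [Finset.mem_sdiff]
    exact (key k).1
  · ext k
    rw [Finset.mem_sdiff]
    exact (key k).2

theorem ht_eq_sum_wt {s : ℕ} (f g : Fin s → Fin n) : ht f g = ∑ k : Fin n, ((k : ℕ) : ℤ) * wt f g k := by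
  unfold ht wt
  have h1 : ∀ f : Fin s → Fin n, ∑ x, ((f x : ℕ) : ℤ) =
      ∑ k : Fin n, ((k : ℕ) : ℤ) * ∑ x, (if f x = k then (1 : ℤ) else 0) := by
    intro f
    simp only [Finset.mul_sum]
    rw [Finset.sum_comm]
    refine Finset.sum_congr rfl fun x _ => ?_
    rw [Finset.sum_eq_single (f x)]
    · simp
    · intro k _ hk
      rw [if_neg (Ne.symm hk), mul_zero]
    · intro h
      exact absurd (Finset.mem_univ _) h
  rw [h1 f, h1 g, ← Finset.sum_sub_distrib]
  refine Finset.sum_congr rfl fun k _ => ?_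
  ring

theorem hs_eq_sum_wc (C R : Finset (Fin n)) : hs R C = ∑ k : Fin n, ((k : ℕ) : ℤ) * wc C R k := by
  unfold hs wc
  have h1 : ∀ F : Finset (Fin n), ∑ x ∈ F, ((x : ℕ) : ℤ) =
      ∑ k : Fin n, ((k : ℕ) : ℤ) * (if k ∈ F then (1 : ℤ) else 0) := by
    intro F
    simp only [mul_ite, mul_one, mul_zero]
    rw [Finset.sum_ite_mem, Finset.univ_inter]
  rw [h1 R, h1 C, ← Finset.sum_sub_distrib]
  refine Finset.sum_congr rfl fun k _ => ?_
  ring

theorem ht_of_wt {s : ℕ} {f g : Fin s → Fin n} {C R : Finset (Fin n)} (h : wt f g = wc C R) :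
    ht f g = hs R C := by
  rw [ht_eq_sum_wt, hs_eq_sum_wc, h]

/-- one box, all the minors of one weight -/
theorem suff_box' {K : Ideal (MvPolynomial (Free u) ℂ)} {h : ℤ}
    (hL : Low u v K h) {i j : Fin n} {C R : Finset (Fin n)} (hCR : C.card = R.card)
    (hne : R.Nonempty)
    (key : BoxOf u v C R (i, j) → InK u K (NWs u i j ∪ R) (NWs u i j ∪ C)) :
    ∀ (N : ℕ) (F G : Finset (Fin n)),
      (NWs u i j \ F).card ≤ N → (∀ x ∈ F, i ≤ u x) → (∀ y ∈ G, y ≤ j) → rk v i j < F.card →
      hs F G ≤ h → F \ G = R → G \ F = C → InK u K F G := by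
  intro N
  induction N with
  | zero =>
    intro F G hN hF hG hc hh hFG hGF
    have hWF : NWs u i j ⊆ F := by
      rw [← Finset.sdiff_eq_empty_iff_subset]
      exact Finset.card_eq_zero.1 (Nat.le_zero.1 hN)
    by_cases hx : ∃ x ∈ NWs u i j, x ∉ G
    · obtain ⟨x, hx, hxG⟩ := hx
      apply InK.repr (hWF hx) hxG
      intro a ha hax _
      have h0 : a ≠ x := hax.ne
      have h1 : a ∈ insert x G := Finset.mem_insert_of_mem ha
      apply hL i j _ _ hF _ hc
      · rw [hs_erase_right h1, hs_insert_right hxG]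
        have h2 : (a : ℕ) < x := hax
        have h3 : ((a : ℕ) : ℤ) < ((x : ℕ) : ℤ) := by exact_mod_cast h2
        linarith
      · intro y hy
        rcases Finset.mem_insert.1 (Finset.mem_of_mem_erase hy) with rfl | hy'
        · exact (mem_NWs.1 hx).1
        · exact hG y hy'
    push Not at hx
    have hWG : NWs u i j ⊆ G := hx
    have eF : NWs u i j ∪ (F \ NWs u i j) = F := Finset.union_sdiff_of_subset hWF
    have eG : NWs u i j ∪ (G \ NWs u i j) = G := Finset.union_sdiff_of_subset hWG
    have hR : F \ NWs u i j ⊆ NEs u i j := by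
      intro x hx
      rw [Finset.mem_sdiff, mem_NWs] at hx
      rw [mem_NEs]
      refine ⟨?_, hF x hx.1⟩
      by_contra h1
      exact hx.2 ⟨not_lt.1 h1, hF x hx.1⟩
    have hC : G \ NWs u i j ⊆ SWs u i j := by
      intro x hx
      rw [Finset.mem_sdiff, mem_NWs] at hx
      rw [mem_SWs]
      refine ⟨hG x hx.1, ?_⟩
      by_contra h1
      exact hx.2 ⟨hG x hx.1, not_lt.1 h1⟩
    have eR : F \ NWs u i j = R := by
      rw [← hFG]
      ext x
      rw [Finset.mem_sdiff, Finset.mem_sdiff]
      constructor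
      · rintro ⟨h1, h2⟩
        refine ⟨h1, fun h3 => ?_⟩
        exact absurd (hG x h3) (not_le.2 (mem_NEs.1 (hR (Finset.mem_sdiff.2 ⟨h1, h2⟩))).1)
      · rintro ⟨h1, h2⟩
        exact ⟨h1, fun h3 => h2 (hWG h3)⟩
    have eC : G \ NWs u i j = C := by
      rw [← hGF]
      ext x
      rw [Finset.mem_sdiff, Finset.mem_sdiff]
      constructor
      · rintro ⟨h1, h2⟩
        refine ⟨h1, fun h3 => ?_⟩
        exact absurd (hF x h3) (not_le.2 (mem_SWs.1 (hC (Finset.mem_sdiff.2 ⟨h1, h2⟩))).2)
      · rintro ⟨h1, h2⟩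
        exact ⟨h1, fun h3 => h2 (hWF h3)⟩
    rw [eR] at hR eF
    rw [eC] at hC eG
    have cG : rk u i j + C.card = G.card := by
      rw [← card_NWs, add_comm, ← eC]
      exact Finset.card_sdiff_add_card_eq_card hWG
    have cF : rk u i j + R.card = F.card := by
      rw [← card_NWs, add_comm, ← eR]
      exact Finset.card_sdiff_add_card_eq_card hWF
    by_cases hbig : rk v i j + 1 < F.card
    · obtain ⟨r, hr⟩ := hne
      have hr1 := mem_NEs.1 (hR hr)
      have hrF : r ∈ F := by rw [← eR] at hr; exact (Finset.mem_sdiff.1 hr).1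
      apply InK.row hrF
      · intro hrG
        exact absurd (hG r hrG) (not_le.2 hr1.1)
      · intro a ha har _
        apply hL i j
        · exact fun x hx => hF x (Finset.mem_of_mem_erase hx)
        · exact fun y hy => hG y (Finset.mem_of_mem_erase hy)
        · rw [Finset.card_erase_of_mem hrF]
          omega
        · rw [hs_erase_left hrF, hs_erase_right ha]
          have h2 : (a : ℕ) < r := har
          have h3 : ((a : ℕ) : ℤ) < ((r : ℕ) : ℤ) := by exact_mod_cast h2
          linarith
    · have h1 := key ⟨hC, hR, by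
        show rk u i j + C.card = rk v i j + 1
        omega⟩
      rwa [eF, eG] at h1
  | succ N ih =>
    intro F G hN hF hG hc hh hFG hGF
    by_cases hx : ∃ x ∈ NWs u i j, x ∉ F
    swap
    · push Not at hx
      apply ih F G _ hF hG hc hh hFG hGF
      rw [Finset.sdiff_eq_empty_iff_subset.2 hx, Finset.card_empty]
      exact Nat.zero_le _
    obtain ⟨x, hx, hxF⟩ := hx
    have hx1 := mem_NWs.1 hx
    by_cases hxG : x ∈ G
    · apply InK.repc hxF hxG
      intro b hb hxb _
      have hbx : b ≠ x := hxb.ne'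
      have h1 : b ∈ insert x F := Finset.mem_insert_of_mem hb
      apply hL i j _ _ _ hG
      · rw [Finset.card_erase_of_mem h1, Finset.card_insert_of_notMem hxF]
        exact hc
      · rw [hs_erase_left h1, hs_insert_left hxF]
        have h2 : (x : ℕ) < b := hxb
        have h3 : ((x : ℕ) : ℤ) < ((b : ℕ) : ℤ) := by exact_mod_cast h2
        linarith
      · intro y hy
        rcases Finset.mem_insert.1 (Finset.mem_of_mem_erase hy) with rfl | hy'
        · exact hx1.2
        · exact hF y hy'
    · apply InK.add hxF hxG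
      · apply ih
        · have h1 : NWs u i j \ insert x F ⊆ (NWs u i j \ F).erase x := by
            intro y hy
            rw [Finset.mem_sdiff, Finset.mem_insert, not_or] at hy
            rw [Finset.mem_erase, Finset.mem_sdiff]
            exact ⟨hy.2.1, hy.1, hy.2.2⟩
          have h2 := Finset.card_le_card h1
          rw [Finset.card_erase_of_mem (Finset.mem_sdiff.2 ⟨hx, hxF⟩)] at h2
          omega
        · intro y hy
          rcases Finset.mem_insert.1 hy with rfl | hy'
          · exact hx1.2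
          · exact hF y hy'
        · intro y hy
          rcases Finset.mem_insert.1 hy with rfl | hy'
          · exact hx1.1
          · exact hG y hy'
        · rw [Finset.card_insert_of_notMem hxF]
          omega
        · rw [hs_insert_left hxF, hs_insert_right hxG]
          linarith
        · rw [← hFG]
          ext y
          simp only [Finset.mem_sdiff, Finset.mem_insert]
          constructor
          · rintro ⟨h1 | h1, h2⟩
            · exact absurd (Or.inl h1) h2
            · exact ⟨h1, fun h3 => h2 (Or.inr h3)⟩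
          · rintro ⟨h1, h2⟩
            refine ⟨Or.inr h1, ?_⟩
            rintro (h3 | h3)
            · rw [h3] at h1
              exact hxF h1
            · exact h2 h3
        · rw [← hGF]
          ext y
          simp only [Finset.mem_sdiff, Finset.mem_insert]
          constructor
          · rintro ⟨h1 | h1, h2⟩
            · exact absurd (Or.inl h1) h2
            · exact ⟨h1, fun h3 => h2 (Or.inr h3)⟩
          · rintro ⟨h1, h2⟩
            refine ⟨Or.inr h1, ?_⟩
            rintro (h3 | h3)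
            · rw [h3] at h1
              exact hxG h1
            · exact h2 h3
      · intro a ha hax _
        have h1 : a ∈ insert x G := Finset.mem_insert_of_mem ha
        apply hL i j _ _ hF _ hc
        · rw [hs_erase_right h1, hs_insert_right hxG]
          have h2 : (a : ℕ) < x := hax
          have h3 : ((a : ℕ) : ℤ) < ((x : ℕ) : ℤ) := by exact_mod_cast h2
          linarith
        · intro y hy
          rcases Finset.mem_insert.1 (Finset.mem_of_mem_erase hy) with rfl | hy'
          · exact hx1.1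
          · exact hG y hy'

/-- the reduced minors of one weight -/
theorem ds {K : Ideal (MvPolynomial (Free u) ℂ)} {h : ℤ} (hL : Low u v K h)
    {C R : Finset (Fin n)} (hCR : C.card = R.card) (hne : R.Nonempty) (hd : Disjoint C R)
    (hh : hs R C ≤ h) : ∀ (d : ℕ) (i j : Fin n), (n - (i : ℕ)) + j < d →
      (∀ i' j' : Fin n, i ≤ i' → j' ≤ j → BoxOf u v C R (i', j') →
        InK u K (NWs u i' j' ∪ R) (NWs u i' j' ∪ C)) →
      ∀ (s : ℕ) (f g : Fin s → Fin n), (∀ x, i ≤ u (f x)) → (∀ y, g y ≤ j) → rk v i j < s →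
        wt f g = wc C R → Dstar u v i j f g ∈ K := by
  intro d
  induction d with
  | zero => intro i j hd; omega
  | succ d ih =>
    intro i j hdd hP s f g hf hg hs' hw
    have hht := ht_of_wt hw
    have h1 : Dm u f g - Dstar u v i j f g ∈ K := by
      refine star_sub_mem' K i j f g ?_
      intro i' j' hi hj hij s' f' g' h1 h2 h3 h4
      rcases h4 with h4 | h4
      · exact low_star hL _ i' j' (Nat.lt_succ_self _) s' f' g' h1 h2 h3 (by omega)
      · refine ih i' j' ?_ ?_ s' f' g' h1 h2 h3 (h4.trans hw)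
        · have h5 : (i : ℕ) ≤ i' := hi
          have h6 : (j' : ℕ) ≤ j := hj
          have h7 := i'.isLt
          have h8 : (i' : ℕ) ≠ i ∨ (j' : ℕ) ≠ j := by
            rcases hij with h9 | h9
            · exact Or.inl fun h10 => h9 (Fin.ext h10)
            · exact Or.inr fun h10 => h9 (Fin.ext h10)
          omega
        · intro i'' j'' h5 h6 h7
          exact hP i'' j'' (hi.trans h5) (h6.trans hj) h7
    have h3 : Dm u f g ∈ K := by
      by_cases hinj : Function.Injective f ∧ Function.Injective g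
      · rw [wt_inj hinj.1 hinj.2] at hw
        obtain ⟨e1, e2⟩ := sdiff_of_wc hd hw
        apply suff_box' hL hCR hne (hP i j le_rfl le_rfl) _ (Finset.univ.image f)
          (Finset.univ.image g) le_rfl _ _ _ _ e1 e2 s f g hinj.1 hinj.2 rfl rfl
        · intro x hx
          obtain ⟨y, -, rfl⟩ := Finset.mem_image.1 hx
          exact hf y
        · intro x hx
          obtain ⟨y, -, rfl⟩ := Finset.mem_image.1 hx
          exact hg y
        · rw [Finset.card_image_of_injective _ hinj.1, Finset.card_univ, Fintype.card_fin]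
          exact hs'
        · rw [← ht_eq_hs hinj.1 hinj.2, hht]
          exact hh
      · rw [Dm_eq_zero_of_not_inj hinj]
        exact Ideal.zero_mem _
    have h4 := K.sub_mem h3 h1
    rwa [sub_sub_cancel] at h4

theorem single_step {s : ℕ} {f g : Fin s → Fin n} (hf : Function.Injective f)
    (hg : Function.Injective g) {τ : Equiv.Perm (Fin s)} {y0 : Fin s} (h0 : f (τ y0) ≠ g y0)
    (h : ∀ y, y ≠ y0 → f (τ y) = g y) :
    Finset.univ.image g \ Finset.univ.image f = {g y0} ∧
      Finset.univ.image f \ Finset.univ.image g = {f (τ y0)} := by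
  have key : ∀ x, (x ∈ Finset.univ.image g ↔ x = g y0 ∨ ∃ y, y ≠ y0 ∧ x = g y) ∧
      (x ∈ Finset.univ.image f ↔ x = f (τ y0) ∨ ∃ y, y ≠ y0 ∧ x = g y) := by
    intro x
    constructor
    · constructor
      · intro hx
        obtain ⟨y, -, rfl⟩ := Finset.mem_image.1 hx
        by_cases hy : y = y0
        · rw [hy]; exact Or.inl rfl
        · exact Or.inr ⟨y, hy, rfl⟩
      · rintro (rfl | ⟨y, -, rfl⟩)
        · exact Finset.mem_image_of_mem _ (Finset.mem_univ _)
        · exact Finset.mem_image_of_mem _ (Finset.mem_univ _)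
    · constructor
      · intro hx
        obtain ⟨z, -, rfl⟩ := Finset.mem_image.1 hx
        by_cases hy : τ.symm z = y0
        · rw [← hy, Equiv.apply_symm_apply]; exact Or.inl rfl
        · refine Or.inr ⟨τ.symm z, hy, ?_⟩
          rw [← h _ hy, Equiv.apply_symm_apply]
      · rintro (rfl | ⟨y, hy, rfl⟩)
        · exact Finset.mem_image_of_mem _ (Finset.mem_univ _)
        · rw [← h y hy]
          exact Finset.mem_image_of_mem _ (Finset.mem_univ _)
  constructor
  · ext x
    rw [Finset.mem_sdiff, (key x).1, (key x).2, Finset.mem_singleton]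
    constructor
    · rintro ⟨h1 | h1, h2⟩
      · exact h1
      · exact absurd (Or.inr h1) h2
    · rintro rfl
      refine ⟨Or.inl rfl, ?_⟩
      rintro (h1 | ⟨y, hy, h1⟩)
      · exact h0 h1.symm
      · exact hy (hg h1).symm
  · ext x
    rw [Finset.mem_sdiff, (key x).1, (key x).2, Finset.mem_singleton]
    constructor
    · rintro ⟨h1 | h1, h2⟩
      · exact h1
      · exact absurd (Or.inr h1) h2
    · rintro rfl
      refine ⟨Or.inl rfl, ?_⟩
      rintro (h1 | ⟨y, hy, h1⟩)
      · exact h0 h1
      · have h2 : f (τ y) = f (τ y0) := (h y hy).trans h1.symm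
        exact hy (τ.injective (hf h2))

theorem dead_term' (huv : BruhatLE u v) {h : ℤ} (hL : Low u v (Th (klIdeal u v)) h) {s : ℕ}
    {f g : Fin s → Fin n} (hf : Function.Injective f) (hg : Function.Injective g)
    (hh : ht f g ≤ h) (τ : Equiv.Perm (Fin s))
    (hbad : ¬ ((∀ y, Zmat u (u (f (τ y))) (g y) ≠ 0) ∧
      ∀ y, g y ≠ f (τ y) → BruhatLE (u * Equiv.swap (g y) (f (τ y))) v ∨
        Finset.univ.image g \ Finset.univ.image f = {g y} ∧
          Finset.univ.image f \ Finset.univ.image g = {f (τ y)})) :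
    Equiv.Perm.sign τ • ∏ y, Zmat u (u (f (τ y))) (g y) ∈ klIdeal u v := by
  by_cases hz : ∀ y, Zmat u (u (f (τ y))) (g y) ≠ 0
  · have h1 : ¬ ∀ y, g y ≠ f (τ y) → BruhatLE (u * Equiv.swap (g y) (f (τ y))) v ∨
        Finset.univ.image g \ Finset.univ.image f = {g y} ∧
          Finset.univ.image f \ Finset.univ.image g = {f (τ y)} := fun h => hbad ⟨hz, h⟩
    rw [not_forall] at h1
    obtain ⟨y, hy⟩ := h1
    rw [Classical.not_imp, not_or] at hy
    obtain ⟨hlt, hu⟩ := (entry_ne_zero (hz y)).resolve_left hy.1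
    have hle : ∀ y, ((g y : ℕ) : ℤ) ≤ ((f (τ y) : ℕ) : ℤ) := by
      intro y
      rcases entry_ne_zero (hz y) with h3 | h3
      · rw [h3]
      · exact_mod_cast h3.1.le
    have hex : ∃ y', y' ≠ y ∧ f (τ y') ≠ g y' := by
      by_contra hcon
      push Not at hcon
      exact hy.2.2 (single_step hf hg (Ne.symm hy.1) hcon)
    obtain ⟨y', hy', hne'⟩ := hex
    have hlt' : ((g y' : ℕ) : ℤ) < ((f (τ y') : ℕ) : ℤ) := by
      rcases entry_ne_zero (hz y') with h3 | h3
      · exact absurd h3.symm hne'
      · exact_mod_cast h3.1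
    have hsum : ((f (τ y) : ℕ) : ℤ) - ((g y : ℕ) : ℤ) < ht f g := by
      have e1 : ht f g = ∑ z, (((f (τ z) : ℕ) : ℤ) - ((g z : ℕ) : ℤ)) := by
        unfold ht
        rw [Finset.sum_sub_distrib, Equiv.sum_comp τ (fun x => ((f x : ℕ) : ℤ))]
      rw [e1, ← Finset.add_sum_erase _ _ (Finset.mem_univ y)]
      have e2 : 0 < ∑ z ∈ Finset.univ.erase y, (((f (τ z) : ℕ) : ℤ) - ((g z : ℕ) : ℤ)) := by
        apply Finset.sum_pos'
        · intro z _
          have := hle z
          linarith
        · exact ⟨y', Finset.mem_erase.2 ⟨hy', Finset.mem_univ _⟩, by linarith⟩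
      linarith
    have h2 := dead_low huv hL hlt hu hy.2.1 (lt_of_lt_of_le hsum hh)
    rw [Units.smul_def, zsmul_eq_mul]
    apply Ideal.mul_mem_left
    rw [← Finset.mul_prod_erase _ _ (Finset.mem_univ y)]
    exact Ideal.mul_mem_right _ _ h2
  · rw [not_forall] at hz
    obtain ⟨y, hy⟩ := hz
    rw [not_not] at hy
    rw [Finset.prod_eq_zero (Finset.mem_univ y) hy, smul_zero]
    exact zero_mem _

theorem std_mem' (huv : BruhatLE u v) {h : ℤ} (hL : Low u v (Th (klIdeal u v)) h) {i j : Fin n}
    {C R : Finset (Fin n)}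
    (hC : C ⊆ SWs u i j) (hR : R ⊆ NEs u i j)
    (hrk : rk u i j + C.card = rk v i j + 1) (hCR : C.card = R.card) (hU : Uni u v C R (i, j))
    (hh : hs (NWs u i j ∪ R) (NWs u i j ∪ C) ≤ h)
    (H : ∀ i' j' : Fin n, i ≤ i' → j' ≤ j → (i' ≠ i ∨ j' ≠ j) → ∀ (s : ℕ) (f g : Fin s → Fin n),
      (∀ x, i' ≤ u (f x)) → (∀ y, g y ≤ j') → rk v i' j' < s → wt f g = wc C R →
      Dstar u v i' j' f g ∈ Th (klIdeal u v)) :
    InK u (Th (klIdeal u v)) (NWs u i j ∪ R) (NWs u i j ∪ C) := by
  intro s f g hf hg hF hG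
  have hfW : ∀ x, f x ∈ NWs u i j ∪ R := fun x => by
    rw [← hF]
    exact Finset.mem_image_of_mem _ (Finset.mem_univ _)
  have hgW : ∀ y, g y ∈ NWs u i j ∪ C := fun y => by
    rw [← hG]
    exact Finset.mem_image_of_mem _ (Finset.mem_univ _)
  have hrow : ∀ x, i ≤ u (f x) := by
    intro x
    rcases Finset.mem_union.1 (hfW x) with h1 | h1
    · exact (mem_NWs.1 h1).2
    · exact (mem_NEs.1 (hR h1)).2
  have hcol : ∀ y, g y ≤ j := by
    intro y
    rcases Finset.mem_union.1 (hgW y) with h1 | h1
    · exact (mem_NWs.1 h1).1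
    · exact (mem_SWs.1 (hC h1)).1
  have dWR : Disjoint (NWs u i j) R := by
    rw [Finset.disjoint_left]
    intro k hk hk'
    exact absurd (mem_NWs.1 hk).1 (not_le.2 (mem_NEs.1 (hR hk')).1)
  have dWC : Disjoint (NWs u i j) C := by
    rw [Finset.disjoint_left]
    intro k hk hk'
    exact absurd (mem_NWs.1 hk).2 (not_le.2 (mem_SWs.1 (hC hk')).2)
  have dCR : Disjoint C R := by
    rw [Finset.disjoint_left]
    intro k hk hk'
    exact absurd (mem_SWs.1 (hC hk)).1 (not_le.2 (mem_NEs.1 (hR hk')).1)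
  have eGF : Finset.univ.image g \ Finset.univ.image f = C := by
    rw [hF, hG]
    ext k
    rw [Finset.mem_sdiff, Finset.mem_union, Finset.mem_union]
    constructor
    · rintro ⟨h1 | h1, h2⟩
      · exact absurd (Or.inl h1) h2
      · exact h1
    · intro h1
      refine ⟨Or.inr h1, ?_⟩
      rintro (h2 | h2)
      · exact Finset.disjoint_left.1 dWC h2 h1
      · exact Finset.disjoint_left.1 dCR h1 h2
  have eFG : Finset.univ.image f \ Finset.univ.image g = R := by
    rw [hF, hG]
    ext k
    rw [Finset.mem_sdiff, Finset.mem_union, Finset.mem_union]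
    constructor
    · rintro ⟨h1 | h1, h2⟩
      · exact absurd (Or.inl h1) h2
      · exact h1
    · intro h1
      refine ⟨Or.inr h1, ?_⟩
      rintro (h2 | h2)
      · exact Finset.disjoint_left.1 dWR h2 h1
      · exact Finset.disjoint_left.1 dCR h2 h1
  have hwt : wt f g = wc C R := by
    rw [wt_inj hf hg, ← wc_sdiff, eGF, eFG]
  have hs' : rk v i j < s := by
    have h1 : (Finset.univ.image f).card = s := by
      rw [Finset.card_image_of_injective _ hf, Finset.card_univ, Fintype.card_fin]
    rw [hF, Finset.card_union_of_disjoint dWR, card_NWs] at h1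
    omega
  have hht : ht f g ≤ h := by
    rw [ht_eq_hs hf hg, hF, hG]
    exact hh
  have h1 : Dm u f g - Dstar u v i j f g ∈ Th (klIdeal u v) := by
    refine star_sub_mem' (Th (klIdeal u v)) i j f g ?_
    intro i' j' hi hj hij s' f' g' h1 h2 h3 h4
    rcases h4 with h4 | h4
    · exact low_star hL _ i' j' (Nat.lt_succ_self _) s' f' g' h1 h2 h3 (by omega)
    · exact H i' j' hi hj hij s' f' g' h1 h2 h3 (h4.trans hwt)
  have h2 : Dstar u v i j f g ∈ Th (klIdeal u v) := by
    rw [mem_Th]
    intro t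
    have hD := dstar_mem (u := u) (v := v) i j f g hrow hcol hs'
    obtain ⟨l, hl⟩ : ∃ l : ℕ, ∀ τ, Star u v i j f g τ →
        (Finset.univ.filter fun y => f (τ y) ≠ g y).card = l ∨
          Equiv.Perm.sign τ • ∏ y, Zmat u (u (f (τ y))) (g y) ∈ klIdeal u v := by
      by_cases hex : ∃ τ, Star u v i j f g τ ∧ (∀ y, Zmat u (u (f (τ y))) (g y) ≠ 0) ∧
          ∀ y, g y ≠ f (τ y) → BruhatLE (u * Equiv.swap (g y) (f (τ y))) v ∨
            C = {g y} ∧ R = {f (τ y)}
      · obtain ⟨τ0, hτ0, hz0, ha0⟩ := hex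
        obtain ⟨σ0, hσ0, hc0⟩ := link_of_star hC hR hf hg hF hG hτ0 hz0 ha0
        refine ⟨(Finset.univ.filter fun y => f (τ0 y) ≠ g y).card, fun τ hτ => ?_⟩
        by_cases hgood : (∀ y, Zmat u (u (f (τ y))) (g y) ≠ 0) ∧
            ∀ y, g y ≠ f (τ y) → BruhatLE (u * Equiv.swap (g y) (f (τ y))) v ∨
              C = {g y} ∧ R = {f (τ y)}
        · left
          obtain ⟨σ, hσ, hc⟩ := link_of_star hC hR hf hg hF hG hτ hgood.1 hgood.2
          rw [← hc, ← hc0]
          exact hU σ σ0 hσ hσ0
        · right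
          refine dead_term' huv hL hf hg hht τ ?_
          rw [eGF, eFG]
          exact hgood
      · refine ⟨0, fun τ hτ => Or.inr (dead_term' huv hL hf hg hht τ ?_)⟩
        rw [eGF, eFG]
        rintro ⟨h3, h4⟩
        exact hex ⟨τ, hτ, h3, h4⟩
    have h3 : theta t (Dstar u v i j f g) - MvPolynomial.C (t ^ l) * Dstar u v i j f g ∈
        klIdeal u v := by
      classical
      unfold Dstar
      rw [map_sum, Finset.mul_sum, ← Finset.sum_sub_distrib]
      apply Ideal.sum_mem
      intro τ hτ
      have hτ2 := (Finset.mem_filter.1 hτ).2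
      rw [theta_term]
      rcases hl τ hτ2 with h4 | h4
      · rw [h4, sub_self]
        exact zero_mem _
      · exact sub_mem (Ideal.mul_mem_left _ _ h4) (Ideal.mul_mem_left _ _ h4)
    have h4 := add_mem h3 (Ideal.mul_mem_left _ (MvPolynomial.C (t ^ l)) hD)
    rwa [sub_add_cancel] at h4
  have h3 := add_mem h1 h2
  rwa [sub_add_cancel] at h3

end Pool.Agent.H30.KL
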