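import Pool.Agent.H30.KL.Gen.Suff
import Pool.Agent.H30.KL.Gen.Nec

/-!
# Standard-graded homogeneity of Kazhdan–Lusztig ideals: linkings

Vertices are the positions `a` of `u`, with value `u a`.  For every pair `(u,v)`:
(1) if for every box and every irreducible pair `(C,R)` all the linkings from `C` to `R` have the same number of steps, then `I_{u,v}` is homogeneous;
(2) if `I_{u,v}` is homogeneous, then there are no two good linkings with the same tops, the same bottoms, the same violated boxes and different numbers of steps.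
-/

namespace Pool.Agent.H30.KL.Uniform

open Pool.Agent.H30.KL

theorem result {n : ℕ} (u v : Equiv.Perm (Fin n)) :
    (Unif u v → Hom u v) ∧
    (Hom u v → ¬ ∃ (π₁ π₂ : Equiv.Perm (Fin n)) (b₁ b₂ : Fin n → Fin n),
      Good u v π₁ b₁ ∧ Good u v π₂ b₂ ∧ (∀ k, π₁ k < k ↔ π₂ k < k) ∧
      (∀ k, k < π₁.symm k ↔ k < π₂.symm k) ∧
      (∀ i j, rk (u * π₁) i j ≤ rk v i j ↔ rk (u * π₂) i j ≤ rk v i j) ∧
      ¬ BruhatLE (u * π₁) v ∧
      (Finset.univ.filter fun k => k < π₁ k).card ≠ (Finset.univ.filter fun k => k < π₂ k).card) := by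
  refine ⟨suff_unif, ?_⟩
  rintro h ⟨π₁, π₂, b₁, b₂, h₁, h₂, hT, hB, hV, hv, hl⟩
  exact nonhom h₁ h₂ hT hB hV hv hl h

end Pool.Agent.H30.KL.Uniform
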